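import Pool.Agent.ShghQ.Pat

/-!
# The demands
-/

namespace ShghQ

/-- The demands: `X - l`, enlarged by one in the block `2m ≤ l < 2m + σ`. -/
def dem (m X σ l : ℕ) : ℕ := X - l + (if 2 * m ≤ l ∧ l < 2 * m + σ then 1 else 0)

theorem Dem_sum (X n : ℕ) (h : n ≤ X) :
    ∑ l ∈ Finset.range n, (X - l) + tri (X - n) = tri X := by
  induction n with
  | zero => simp
  | succ n ih =>
    have h1 := ih (by omega)
    have h2 : tri (X - n) = tri (X - (n + 1)) + (X - n) := by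
      obtain ⟨c, hc⟩ : ∃ c, X - n = c + 1 := ⟨X - n - 1, by omega⟩
      have hc2 : X - (n + 1) = c := by omega
      rw [hc, hc2, tri_succ]
    rw [Finset.sum_range_succ]
    omega

theorem Dem_block (a σ n : ℕ) (h : a + σ ≤ n) :
    ∑ l ∈ Finset.range n, (if a ≤ l ∧ l < a + σ then 1 else 0) = σ := by
  rw [← Finset.sum_filter, Finset.sum_const, smul_eq_mul, mul_one]
  have h1 : (Finset.range n).filter (fun l => a ≤ l ∧ l < a + σ) = Finset.Ico a (a + σ) := by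
    ext l
    rw [Finset.mem_filter, Finset.mem_range, Finset.mem_Ico]
    omega
  rw [h1, Nat.card_Ico]
  omega

/-- `Σ_{l<X-X'} (X - l) = tri X - tri X'`, and `σ` for the block. -/
theorem sum_dem (m X X' σ : ℕ) (hX : X' ≤ X) (hσ : 2 * m + σ ≤ X - X') :
    ∑ l ∈ Finset.range (X - X'), dem m X σ l + tri X' = tri X + σ := by
  have h1 := Dem_sum X (X - X') (Nat.sub_le _ _)
  have h2 := Dem_block (2 * m) σ (X - X') hσ
  have h3 : X - (X - X') = X' := by omega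
  rw [h3] at h1
  simp only [dem]
  rw [Finset.sum_add_distrib, h2]
  omega

theorem dem_anti (m X σ l : ℕ) (hl : l + 1 ≤ X) : dem m X σ (l + 1) ≤ dem m X σ l := by
  unfold dem
  split_ifs <;> omega

/-- `tri (2 μ0² + 2 μ0) = ((2 μ0 + 1)² + 1) tri μ0`. -/
theorem tri_base (μ0 : ℕ) : tri (2 * μ0 ^ 2 + 2 * μ0) = ((2 * μ0 + 1) ^ 2 + 1) * tri μ0 := by
  have h1 := two_mul_tri (2 * μ0 ^ 2 + 2 * μ0)
  have h2 := two_mul_tri μ0
  have h3 : 2 * tri (2 * μ0 ^ 2 + 2 * μ0) = 2 * (((2 * μ0 + 1) ^ 2 + 1) * tri μ0) := by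
    rw [h1]
    calc (2 * μ0 ^ 2 + 2 * μ0) * (2 * μ0 ^ 2 + 2 * μ0 + 1) =
        ((2 * μ0 + 1) ^ 2 + 1) * (μ0 * (μ0 + 1)) := by ring
      _ = ((2 * μ0 + 1) ^ 2 + 1) * (2 * tri μ0) := by rw [h2]
      _ = 2 * (((2 * μ0 + 1) ^ 2 + 1) * tri μ0) := by ring
  omega

end ShghQ
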