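import Pool.Agent.ShghQ.Pat

/-!
# Closing phase: the first column
-/

namespace ShghQ

/-- The first column `q0` of the closing phase. `r = D q0 - F q0`, `r = t μ - g`, `0 ≤ g < μ`. `b = t` and
`e = []` if `g = 0`, `b = t - 1` and `e = [g]` otherwise. `conc`: everything vanishes in the columns `≤ μ`
(`hsupp`, `pat_zero`, `2 μ ≤ q0`), and `y + μ ≤ 2 μ ≤ q0`. `total`: `sum_pat`, `htot`. -/
theorem clo_init {m μ q0 N : ℕ} {D F : ℕ → ℕ} (hμ : 1 ≤ μ) (hμm : μ ≤ m) (hq : 2 * m ≤ q0)
    (hle : F q0 ≤ D q0) (hsteep : ∀ l, l < q0 → F (l + 1) + m * F l ≤ m * F (l + 1))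
    (hsupp : ∀ l, l ≤ μ → F l = 0)
    (htot : ∑ l ∈ Finset.range (q0 + 1), D l = ∑ l ∈ Finset.range (q0 + 1), F l + N * tri μ) :
    ∃ (b : ℕ) (e : List ℕ), Clo m μ q0 D (fun l => F l + b * pat μ q0 μ l) (N - b) q0 e := by
  set r := D q0 - F q0 with hr
  have hdiv := Nat.div_add_mod r μ
  have hmod : r % μ < μ := Nat.mod_lt _ hμ
  set b := r / μ with hb
  set g := r % μ with hg
  have hpat : pat μ q0 μ q0 = μ := by
    unfold pat
    rw [if_pos le_rfl, Nat.sub_self, if_pos (by omega), Nat.sub_zero]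
  have hzero : ∀ l, l ≤ μ → F l + b * pat μ q0 μ l = 0 := by
    intro l hl
    rw [hsupp l hl, pat_zero le_rfl (by omega)]
    simp
  have hcol : (F q0 + b * pat μ q0 μ q0) + g = D q0 := by
    rw [hpat, mul_comm b μ]
    omega
  refine ⟨b, if g = 0 then [] else [μ - g], ?_⟩
  have hmin : min μ q0 = μ := min_eq_left (by omega)
  refine ⟨by omega, le_rfl, ?_, ?_, ?_, ?_, ?_, ?_, ?_⟩
  · split_ifs <;> simp
  · intro g' hg'
    split_ifs at hg' with h0
    · simp at hg'
    · rw [List.mem_singleton] at hg'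
      rw [hmin]
      omega
  · intro l h1 h2
    omega
  · have h1 : μ - q0 = 0 := by omega
    rw [h1, hmin, ← hcol]
    split_ifs with h0
    · rw [h0]
      simp
    · have h2 : μ - (μ - g) = g := by omega
      simp [h2]
  · intro l hl
    have h1 := hsteep l hl
    have h2 := pat_steep (ν := μ) (p := q0) (n := μ) (l := l) hμm hl
    show F (l + 1) + b * pat μ q0 μ (l + 1) + m * (F l + b * pat μ q0 μ l) ≤
      m * (F (l + 1) + b * pat μ q0 μ (l + 1))
    have h3 := Nat.mul_le_mul_left b h2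
    calc F (l + 1) + b * pat μ q0 μ (l + 1) + m * (F l + b * pat μ q0 μ l)
        = (F (l + 1) + m * F l) + b * (pat μ q0 μ (l + 1) + m * pat μ q0 μ l) := by ring
      _ ≤ m * F (l + 1) + b * (m * pat μ q0 μ (l + 1)) := Nat.add_le_add h1 h3
      _ = m * (F (l + 1) + b * pat μ q0 μ (l + 1)) := by ring
  · intro z y hz hzy hy hyx
    have h1 : y + μ - max q0 (z + μ) = 0 := by
      have := le_max_left q0 (z + μ)
      omega
    have e1 := hzero y hy
    have e2 := hzero (y - 1) (by omega)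
    have e3 := hzero z (by omega)
    have e4 := hzero (z - 1) (by omega)
    rw [h1, e1, e2, e3, e4]
    simp
  · have hA : Adm (q0 + 1) μ q0 μ := ⟨hμ, le_rfl, by omega, by omega, fun _ => rfl⟩
    have h1 := sum_pat hA (by omega)
    have h2 : ∑ l ∈ Finset.range (q0 + 1), (F l + b * pat μ q0 μ l) =
        ∑ l ∈ Finset.range (q0 + 1), F l + b * tri μ := by
      rw [Finset.sum_add_distrib, ← Finset.mul_sum, h1]
    have h3 : ∑ l ∈ Finset.range (q0 + 1), ((F l + b * pat μ q0 μ l : ℕ) : ℤ) =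
        ((∑ l ∈ Finset.range (q0 + 1), F l : ℕ) : ℤ) + b * tri μ := by
      rw [← Nat.cast_sum, h2]
      push_cast
      ring
    have h4 : ∑ l ∈ Finset.range (q0 + 1), (D l : ℤ) =
        ((∑ l ∈ Finset.range (q0 + 1), F l : ℕ) : ℤ) + N * tri μ := by
      rw [← Nat.cast_sum, htot]
      push_cast
      ring
    rw [h3, h4]
    ring

end ShghQ
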