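import Pool.Agent.ShghQ.Pat

/-!
# Closing phase: one column
-/

namespace ShghQ

/-- Division with remainder: `r = t w - g`, `0 ≤ g < w`; the defect `g` is split into two halves. -/
theorem clo_div (w : ℕ) (hw : 1 ≤ w) (r : ℤ) (hr : 3 * (w : ℤ) + 1 ≤ r) :
    ∃ (b : ℕ) (e : List ℕ), 2 ≤ b ∧ e.length ≤ 2 ∧ (20 * (w : ℤ) ≤ r → 18 ≤ b) ∧
      (∀ g ∈ e, 1 ≤ g ∧ g + 1 ≤ w ∧ 2 * g ≤ w) ∧
      (b : ℤ) * w + (e.map fun g => ((w - g : ℕ) : ℤ)).sum = r := by
  obtain ⟨R, rfl⟩ : ∃ R : ℕ, r = R := ⟨r.toNat, by rw [Int.toNat_of_nonneg (by omega)]⟩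
  have hR : 3 * w + 1 ≤ R := by exact_mod_cast hr
  obtain ⟨t, g, htg, hg⟩ : ∃ t g : ℕ, t * w = R + g ∧ g < w := by
    refine ⟨(R + (w - 1)) / w, w - 1 - (R + (w - 1)) % w, ?_, by omega⟩
    have h1 := Nat.div_add_mod (R + (w - 1)) w
    have h2 := Nat.mod_lt (R + (w - 1)) (show 0 < w by omega)
    rw [mul_comm] at h1
    omega
  have ht4 : 4 ≤ t := by
    by_contra hcon
    push Not at hcon
    have : t * w ≤ 3 * w := Nat.mul_le_mul_right w (by omega)
    omega
  have ht20 : 20 * (w : ℤ) ≤ (R : ℤ) → 20 ≤ t := by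
    intro h
    have h' : 20 * w ≤ R := by exact_mod_cast h
    by_contra hcon
    push Not at hcon
    have : t * w ≤ 19 * w := Nat.mul_le_mul_right w (by omega)
    omega
  have htg' : (t : ℤ) * w = R + g := by exact_mod_cast htg
  rcases Nat.lt_or_ge g 2 with hg2 | hg2
  · rcases Nat.eq_zero_or_pos g with hg0 | hg0
    · refine ⟨t, [], by omega, by simp, fun h => by have := ht20 h; omega, by simp, ?_⟩
      simp only [List.map_nil, List.sum_nil, add_zero]
      rw [htg', hg0]; simp
    · have hg1 : g = 1 := by omega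
      subst hg1
      refine ⟨t - 1, [1], by omega, by simp, fun h => by have := ht20 h; omega, ?_, ?_⟩
      · intro g hg'
        simp only [List.mem_singleton] at hg'
        subst hg'
        omega
      · simp only [List.map_cons, List.map_nil, List.sum_cons, List.sum_nil, add_zero]
        rw [Nat.cast_sub (by omega), Nat.cast_sub (by omega)]
        push_cast
        push_cast at htg'
        linarith
  · refine ⟨t - 2, [g / 2, g - g / 2], by omega, by simp, fun h => by have := ht20 h; omega, ?_, ?_⟩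
    · intro g' hg'
      simp only [List.mem_cons, List.not_mem_nil, or_false] at hg'
      rcases hg' with rfl | rfl <;> omega
    · simp only [List.map_cons, List.map_nil, List.sum_cons, List.sum_nil, add_zero]
      have h1 : ((w - g / 2 : ℕ) : ℤ) + ((w - (g - g / 2) : ℕ) : ℤ) = 2 * w - g := by
        have : (w - g / 2) + (w - (g - g / 2)) = 2 * w - g := by omega
        have h2 : ((2 * w - g : ℕ) : ℤ) = 2 * w - g := by
          rw [Nat.cast_sub (by omega)]; push_cast; ring
        rw [← h2, ← this]; push_cast; ring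
      rw [h1, Nat.cast_sub (by omega)]
      push_cast
      linarith

/-! ### Sums over the list of exchanged points -/

theorem CloStep_far {μ x l n : ℕ} (hl : x + 1 < l) : pat μ x n l = μ - l := by
  unfold pat
  rw [if_neg (by omega), if_neg (by omega)]

theorem CloStep_next {μ x n : ℕ} : pat μ x n (x + 1) = μ - n := by
  unfold pat
  rw [if_neg (by omega), if_pos rfl]

theorem CloStep_peak {μ x n : ℕ} (hn : 1 ≤ n) : pat μ x n x = μ := by
  unfold pat
  rw [if_pos le_rfl, if_pos (by omega)]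
  omega

theorem CloStep_list_far {μ x l : ℕ} (hl : x + 1 < l) (e : List ℕ) :
    (e.map fun g => pat μ x g l).sum = e.length * (μ - l) := by
  induction e with
  | nil => simp
  | cons a t ih =>
    rw [List.map_cons, List.sum_cons, ih, CloStep_far hl, List.length_cons]
    ring

theorem CloStep_list_next {μ x : ℕ} (e : List ℕ) (he : ∀ g ∈ e, g + 1 ≤ min μ (x + 1)) :
    (((e.map fun g => pat μ x g (x + 1)).sum : ℕ) : ℤ) = e.length * ((μ - (x + 1) : ℕ) : ℤ) +
      (e.map fun g => ((min μ (x + 1) - g : ℕ) : ℤ)).sum := by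
  induction e with
  | nil => simp
  | cons a t ih =>
    rw [List.map_cons, List.sum_cons, List.map_cons, List.sum_cons, List.length_cons,
      CloStep_next, Nat.cast_add, ih (fun g hg => he g (List.mem_cons_of_mem _ hg))]
    have h1 := he a (by simp)
    have h2 : ((μ - a : ℕ) : ℤ) = ((μ - (x + 1) : ℕ) : ℤ) + ((min μ (x + 1) - a : ℕ) : ℤ) := by
      have : μ - a = (μ - (x + 1)) + (min μ (x + 1) - a) := by omega
      rw [this, Nat.cast_add]
    rw [h2]
    push_cast
    ring

theorem CloStep_list_peak {μ x : ℕ} (e : List ℕ) (he : ∀ g ∈ e, 1 ≤ g) :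
    (e.map fun g => pat μ x g x).sum = e.length * μ := by
  induction e with
  | nil => simp
  | cons a t ih =>
    rw [List.map_cons, List.sum_cons, ih (fun g hg => he g (List.mem_cons_of_mem _ hg)),
      CloStep_peak (he a (by simp)), List.length_cons]
    ring

theorem CloStep_list_steep {m μ x l : ℕ} (hm : μ ≤ m) (hl : l < x) (e : List ℕ) :
    (e.map fun g => pat μ x g (l + 1)).sum + m * (e.map fun g => pat μ x g l).sum ≤
      m * (e.map fun g => pat μ x g (l + 1)).sum := by
  induction e with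
  | nil => simp
  | cons a t ih =>
    simp only [List.map_cons, List.sum_cons]
    have := pat_steep (n := a) hm hl
    rw [mul_add, mul_add]
    omega

theorem CloStep_list_total {μ x q0 : ℕ} (hx : x + 1 ≤ q0) (hμ : μ ≤ q0) (e : List ℕ)
    (he : ∀ g ∈ e, 1 ≤ g ∧ g + 1 ≤ min μ (x + 1)) :
    ∑ l ∈ Finset.range (q0 + 1), (e.map fun g => pat μ x g l).sum = e.length * tri μ := by
  induction e with
  | nil => simp
  | cons a t ih =>
    simp only [List.map_cons, List.sum_cons]
    rw [Finset.sum_add_distrib, ih (fun g hg => he g (List.mem_cons_of_mem _ hg)),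
      List.length_cons]
    have h1 := he a (by simp)
    have h2 : min μ (x + 1) ≤ μ := min_le_left _ _
    have h3 : min μ (x + 1) ≤ x + 1 := min_le_right _ _
    rw [sum_pat (L := q0 + 1) ⟨h1.1, by omega, by omega, by omega, by omega⟩ (by omega)]
    ring

/-- The second difference of one pattern. -/
theorem CloStep_diff {μ x n z y : ℕ} (hz : 1 ≤ z) (hzy : z < y) (hyx : y ≤ x) :
    -(if z + n = x + 1 then 1 else 0 : ℤ) ≤
      (((pat μ x n y : ℕ) : ℤ) - pat μ x n (y - 1)) - (((pat μ x n z : ℕ) : ℤ) - pat μ x n (z - 1)) := by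
  obtain ⟨z', rfl⟩ : ∃ z', z = z' + 1 := ⟨z - 1, by omega⟩
  obtain ⟨y', rfl⟩ : ∃ y', y = y' + 1 := ⟨y - 1, by omega⟩
  simp only [Nat.add_sub_cancel]
  have hy1 : pat μ x n y' ≤ pat μ x n (y' + 1) := pat_mono (by omega)
  have hz1 : pat μ x n z' ≤ pat μ x n (z' + 1) := pat_mono (by omega)
  have hskip := pat_skip (ν := μ) (p := x) (n := n) (l := z') (by omega)
  have hmono : pat μ x n (z' + 1) ≤ pat μ x n (y' + 1) := by
    have : ∀ k, z' + 1 + k ≤ x → pat μ x n (z' + 1) ≤ pat μ x n (z' + 1 + k) := by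
      intro k
      induction k with
      | zero => intro _; exact le_rfl
      | succ k ih =>
        intro hk
        exact (ih (by omega)).trans (pat_mono (by omega))
    have h := this (y' - z') (by omega)
    have h' : z' + 1 + (y' - z') = y' + 1 := by omega
    rwa [h'] at h
  rcases Nat.eq_zero_or_pos (pat μ x n (y' + 1)) with h0 | h0
  · have hz0 : pat μ x n (z' + 1) = 0 := by omega
    have hz0' : pat μ x n z' = 0 := by omega
    have hy0' : pat μ x n y' = 0 := by omega
    rw [h0, hz0, hz0', hy0']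
    split_ifs <;> simp
  · have hsucc := pat_succ (ν := μ) (p := x) (n := n) (l := y') (by omega) h0
    split_ifs at hskip ⊢ <;> omega

theorem CloStep_list_diff {μ x z y : ℕ} (hz : 1 ≤ z) (hzy : z < y) (hyx : y ≤ x) (e : List ℕ)
    (he : ∀ g ∈ e, 2 * g ≤ x + 1) :
    -((e.length : ℤ) * (if x + 1 ≤ 2 * z then 1 else 0)) ≤
      ((((e.map fun g => pat μ x g y).sum : ℕ) : ℤ) - ((e.map fun g => pat μ x g (y - 1)).sum : ℕ)) -
      ((((e.map fun g => pat μ x g z).sum : ℕ) : ℤ) -
        ((e.map fun g => pat μ x g (z - 1)).sum : ℕ)) := by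
  induction e with
  | nil => simp
  | cons a t ih =>
    have h1 := ih (fun g hg => he g (List.mem_cons_of_mem _ hg))
    have h2 := CloStep_diff (μ := μ) (n := a) hz hzy hyx
    have h3 := he a (by simp)
    simp only [List.map_cons, List.sum_cons, List.length_cons, Nat.cast_add, Nat.cast_one]
    have h4 : (if z + a = x + 1 then 1 else 0 : ℤ) ≤ (if x + 1 ≤ 2 * z then 1 else 0) := by
      split_ifs <;> omega
    set I : ℤ := (if x + 1 ≤ 2 * z then 1 else 0) with hI
    rw [add_mul, one_mul]
    linarith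

/-- The second difference for a point which is not exchanged. -/
theorem CloStep_diff_full {μ x z y : ℕ} (hz : 1 ≤ z) (hzy : z < y) (hyx : y ≤ x) :
    (if z + μ ≤ x ∧ x < y + μ then 1 else 0 : ℤ) ≤
      (((pat μ x (min μ (x + 1)) y : ℕ) : ℤ) - pat μ x (min μ (x + 1)) (y - 1)) -
        (((pat μ x (min μ (x + 1)) z : ℕ) : ℤ) - pat μ x (min μ (x + 1)) (z - 1)) := by
  have h1 := CloStep_diff (μ := μ) (n := min μ (x + 1)) hz hzy hyx
  by_cases hμ : μ ≤ x
  · rw [min_eq_left (by omega : μ ≤ x + 1)] at h1 ⊢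
    by_cases hc : z + μ ≤ x ∧ x < y + μ
    · rw [if_pos hc]
      have hz0 : pat μ x μ z = 0 := pat_zero le_rfl hc.1
      have hz0' : pat μ x μ (z - 1) = 0 := pat_zero le_rfl (by omega)
      have hy : 0 < pat μ x μ y := by
        unfold pat
        rw [if_pos hyx, if_pos (by omega)]
        omega
      obtain ⟨y', rfl⟩ : ∃ y', y = y' + 1 := ⟨y - 1, by omega⟩
      have hsucc := pat_succ (ν := μ) (p := x) (n := μ) (l := y') (by omega) hy
      rw [hz0, hz0']
      simp only [Nat.add_sub_cancel]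
      omega
    · rw [if_neg hc]
      by_cases he : z + μ = x + 1
      · obtain ⟨z', rfl⟩ : ∃ z', z = z' + 1 := ⟨z - 1, by omega⟩
        obtain ⟨y', rfl⟩ : ∃ y', y = y' + 1 := ⟨y - 1, by omega⟩
        have hns := pat_noskip (ν := μ) (p := x) (l := z') (by omega)
        have hy : 0 < pat μ x μ (y' + 1) := by
          unfold pat
          rw [if_pos hyx, if_pos (by omega)]
          omega
        have hsucc := pat_succ (ν := μ) (p := x) (n := μ) (l := y') (by omega) hy
        simp only [Nat.add_sub_cancel]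
        omega
      · rw [if_neg he] at h1
        simpa using h1
  · rw [min_eq_right (by omega : x + 1 ≤ μ)] at h1 ⊢
    rw [if_neg (by omega)] at h1 ⊢
    simpa using h1

/-- From the stage `x + 1` to the stage `x`. `w = min μ x`, `r = D x - F x - (μ - x) ρ`. `clo_div` gives `b`
and `e'`. The points with the peak `x`: those in `e` (defect `g`), and `b - |e|` points with the defect
`min μ (x + 1)` (which is the defect without exchange). `ρ' = ρ - b`.
* column `x + 1`: `pat μ x g (x+1) = μ - g` and `pat μ x (min μ (x+1)) (x+1) = μ - min μ (x+1) =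
  μ - (x+1)`; so `F' (x+1) + (μ-(x+1)) ρ' = F (x+1) + (μ - (x+1)) ρ + Σ_{g∈e} (min μ (x+1) - g)`.
* columns `l > x + 1`: `pat μ x _ l = μ - l`, so nothing changes.
* column `x`: `pat μ x _ x = μ`; `μ - (μ - x) = min μ x = w`.
* `steep`: `pat_steep`.
* `conc` (`y ≤ x`, `p = x`): for each new point `δ(l) = pat l - pat (l-1)` satisfies
  `δ(y) - δ(z) ≥ -1` if `z + n = x + 1` (`n` the defect, only for the points of `e`, and then
  `2 z = 2 (x+1) - 2 g ≥ x + 1`; there are at most two), `≥ 0` otherwise (`pat_mono`, `pat_succ`,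
  `pat_skip`; for `n = min μ (x+1)`: if `x + 1 ≤ μ` then `z + n = x + 1` is impossible as `z ≥ 1`, otherwise
  `n = μ` and `pat_noskip`), and `≥ 1` for the `b - |e|` points if `z + μ ≤ x < y + μ`
  (`pat z = 0`, `pat y ≥ 1`). In that case `μ + 1 ≤ x < 2 μ`, so `b ≥ 18` and `b - |e| ≥ 16`. Finally
  `(y+μ) - max x (z+μ)` is larger by one than `(y+μ) - max (x+1) (z+μ)` exactly if `z + μ ≤ x < y + μ`, and
  `2z - x = (2z - (x+1)) + 1` if `2z ≥ x + 1`, equal (both zero) otherwise.
* `total`: `sum_pat` with `L = q0 + 1`. -/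
theorem clo_step {m μ q0 x : ℕ} {D F : ℕ → ℕ} {ρ : ℤ} {e : List ℕ} (hμ : 1 ≤ μ) (hμm : μ ≤ m)
    (hmq : m ≤ q0) (h : Clo m μ q0 D F ρ (x + 1) e) (hx : 1 ≤ x)
    (hr : 3 * ((min μ x : ℕ) : ℤ) + 1 ≤ (D x : ℤ) - F x - ((μ - x : ℕ) : ℤ) * ρ)
    (hr' : μ + 1 ≤ x → x < 2 * μ → 20 * (μ : ℤ) ≤ (D x : ℤ) - F x - ((μ - x : ℕ) : ℤ) * ρ) :
    ∃ (b : ℕ) (e' : List ℕ), e.length ≤ b ∧
      Clo m μ q0 D (fun l => F l + (e.map fun g => pat μ x g l).sum +
        (b - e.length) * pat μ x (min μ (x + 1)) l) (ρ - b) x e' := by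
  have hxq := h.x_le
  obtain ⟨b, e', hb2, he'2, hb18, he'g, hsum⟩ := clo_div (min μ x) (by omega) _ hr
  have helen := h.e_len
  obtain ⟨c, hc⟩ : ∃ c, b = c + e.length := ⟨b - e.length, by omega⟩
  have hbc : b - e.length = c := by omega
  have hebd := h.e_bd
  have hmin1 : min μ (x + 1) ≤ μ := min_le_left _ _
  have hmin2 : min μ (x + 1) ≤ x + 1 := min_le_right _ _
  have hmin3 : 1 ≤ min μ (x + 1) := by omega
  have hbc' : (b : ℤ) = c + e.length := by rw [hc]; push_cast; ring
  refine ⟨b, e', by omega, ?_⟩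
  rw [hbc]
  refine ⟨hx, by omega, he'2, ?_, ?_, ?_, ?_, ?_, ?_⟩
  · intro g hg
    have := he'g g hg
    have h1 : min μ x ≤ x := min_le_right _ _
    omega
  · -- full
    intro l hl hlq
    by_cases hl1 : l = x + 1
    · subst hl1
      have hcol := h.col
      have hL := CloStep_list_next (μ := μ) (x := x) e (fun g hg => (hebd g hg).2.1)
      rw [Nat.cast_add, Nat.cast_add, hL, CloStep_next, Nat.cast_mul]
      have h2 : ((μ - min μ (x + 1) : ℕ) : ℤ) = ((μ - (x + 1) : ℕ) : ℤ) := by
        congr 1; omega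
      rw [h2, hbc', ← hcol]
      ring
    · have hf := h.full l (by omega) hlq
      rw [CloStep_list_far (by omega), CloStep_far (by omega), Nat.cast_add, Nat.cast_add,
        Nat.cast_mul, Nat.cast_mul, hbc', ← hf]
      ring
  · -- col
    rw [CloStep_list_peak e (fun g hg => (hebd g hg).1), CloStep_peak hmin3, Nat.cast_add,
      Nat.cast_add, Nat.cast_mul, Nat.cast_mul, hbc']
    have h2 : (μ : ℤ) = ((μ - x : ℕ) : ℤ) + ((min μ x : ℕ) : ℤ) := by
      have : μ = (μ - x) + min μ x := by omega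
      exact_mod_cast this
    have h3 : (((e.length : ℤ) * μ) + c * μ) = (b : ℤ) * ((μ - x : ℕ) : ℤ) + b * ((min μ x : ℕ) : ℤ) := by
      rw [hbc']
      conv_lhs => rw [h2]
      ring
    rw [hbc'] at hsum h3
    linear_combination hsum + h3
  · -- steep
    intro l hl
    have h1 := h.steep l (by omega)
    have h2 := CloStep_list_steep hμm hl e
    have h3 := pat_steep (n := min μ (x + 1)) hμm hl
    have h4 : c * pat μ x (min μ (x + 1)) (l + 1) + m * (c * pat μ x (min μ (x + 1)) l) ≤
        m * (c * pat μ x (min μ (x + 1)) (l + 1)) := by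
      calc c * pat μ x (min μ (x + 1)) (l + 1) + m * (c * pat μ x (min μ (x + 1)) l)
          = c * (pat μ x (min μ (x + 1)) (l + 1) + m * pat μ x (min μ (x + 1)) l) := by ring
        _ ≤ c * (m * pat μ x (min μ (x + 1)) (l + 1)) := Nat.mul_le_mul_left _ h3
        _ = _ := by ring
    rw [mul_add, mul_add, mul_add, mul_add]
    omega
  · -- conc
    intro z y hz hzy hyμ hyx
    have h1 := h.conc z y hz hzy hyμ (by omega)
    have h2 := CloStep_list_diff (μ := μ) hz hzy hyx e (fun g hg => (hebd g hg).2.2)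
    have h3 := CloStep_diff_full (μ := μ) hz hzy hyx
    push_cast
    push_cast at h2
    set P := fun l => (((e.map fun g => pat μ x g l).sum : ℕ) : ℤ) with hP
    have hc0 : (0 : ℤ) ≤ c := by positivity
    have h4 : (c : ℤ) * (if z + μ ≤ x ∧ x < y + μ then 1 else 0 : ℤ) ≤
      (c * ((pat μ x (min μ (x + 1)) y : ℕ) : ℤ) - c * pat μ x (min μ (x + 1)) (y - 1)) -
        (c * ((pat μ x (min μ (x + 1)) z : ℕ) : ℤ) - c * pat μ x (min μ (x + 1)) (z - 1)) := by
      refine le_trans (mul_le_mul_of_nonneg_left h3 hc0) (le_of_eq ?_)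
      ring
    have h5 : 16 * ((y + μ - max x (z + μ) : ℕ) : ℤ) ≤ 16 * ((y + μ - max (x + 1) (z + μ) : ℕ) : ℤ) +
        (c : ℤ) * (if z + μ ≤ x ∧ x < y + μ then 1 else 0 : ℤ) := by
      by_cases hcase : z + μ ≤ x ∧ x < y + μ
      · rw [if_pos hcase]
        have hb : 18 ≤ b := by
          apply hb18
          have := hr' (by omega) (by omega)
          rw [min_eq_left (by omega : μ ≤ x)]
          exact this
        have h6 : y + μ - max x (z + μ) = (y + μ - max (x + 1) (z + μ)) + 1 := by omega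
        rw [h6]
        push_cast
        have h7 : 16 ≤ c := by omega
        have h7' : (16 : ℤ) ≤ c := by exact_mod_cast h7
        linarith
      · rw [if_neg hcase]
        have h6 : y + μ - max x (z + μ) = (y + μ - max (x + 1) (z + μ)) := by omega
        rw [h6]
        simp
    have h8 : 2 * ((2 * z - (x + 1) : ℕ) : ℤ) + (e.length : ℤ) * (if x + 1 ≤ 2 * z then 1 else 0) ≤
        2 * ((2 * z - x : ℕ) : ℤ) := by
      have he2 : (e.length : ℤ) ≤ 2 := by exact_mod_cast helen
      by_cases hcase : x + 1 ≤ 2 * z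
      · rw [if_pos hcase]
        have h6 : 2 * z - x = (2 * z - (x + 1)) + 1 := by omega
        rw [h6]
        push_cast
        linarith
      · rw [if_neg hcase]
        have h6 : 2 * z - x = (2 * z - (x + 1)) := by omega
        rw [h6]
        simp
    linarith
  · -- total
    have h1 := h.total
    have h2 := CloStep_list_total (μ := μ) hxq (by omega) e
      (fun g hg => ⟨(hebd g hg).1, (hebd g hg).2.1⟩)
    have h3 : ∑ l ∈ Finset.range (q0 + 1), pat μ x (min μ (x + 1)) l = tri μ :=
      sum_pat (L := q0 + 1) ⟨hmin3, hmin1, hmin2, by omega, by omega⟩ (by omega)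
    have h4 : ∑ l ∈ Finset.range (q0 + 1), ((F l + (e.map fun g => pat μ x g l).sum +
        c * pat μ x (min μ (x + 1)) l : ℕ) : ℤ) =
        ∑ l ∈ Finset.range (q0 + 1), (F l : ℤ) + e.length * tri μ + c * tri μ := by
      have h5 : ∑ l ∈ Finset.range (q0 + 1), (F l + (e.map fun g => pat μ x g l).sum +
        c * pat μ x (min μ (x + 1)) l) =
        ∑ l ∈ Finset.range (q0 + 1), F l + e.length * tri μ + c * tri μ := by
        rw [Finset.sum_add_distrib, Finset.sum_add_distrib, h2, ← Finset.mul_sum, h3]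
      have h6 := congrArg (fun n : ℕ => (n : ℤ)) h5
      push_cast at h6
      push_cast
      exact h6
    rw [h4, ← h1, hbc']
    ring

end ShghQ
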