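import Pool.Agent.ShghQ.Phase
import Pool.Agent.ShghQ.Close

/-!
# The last group of points
-/

namespace ShghQ

theorem Fill3_zero {ν p n q l : ℕ} (h : Adm (q + 1) ν p n) (hq : ν ≤ q) (hl : q < l) :
    pat ν p n l = 0 := by
  have h1 := h.pL
  unfold pat
  rw [if_neg (by omega)]
  by_cases h2 : l = p + 1
  · rw [if_pos h2]
    have := h.last (by omega)
    omega
  · rw [if_neg h2]
    omega

theorem Fill3_adm {ν p n q L : ℕ} (h : Adm (q + 1) ν p n) (hq : q < L) : Adm L ν p n where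
  one := h.one
  le := h.le
  lp := h.lp
  pL := by
    have := h.pL
    omega
  last := fun h' => h.last (by
    have := h.pL
    omega)

/-- Second phase, group `T3` (multiplicity `μ0`). `close` with `q0 = q`, `N = |T3|`, `F = fillOf S μ p n`:
`D l ≥ D q ≥ 8 m²` for `l ≤ q`; `hsupp` from `Reg.supp` (`l + m ≤ 2 m ≤ q`); `htot` from `htot` here,
`sum_fillOf` and `Reg.full`. Distribute the pairs of the list `Z` over the elements of `T3`
(for example with `T3.equivFin` and `Z.get`). `Adm (q+1)` implies `Adm L` (`q + 1 ≤ L`; if `p + 1 = L` then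
`p + 1 = q + 1`). In the columns `l > q` the new points vanish: `l ≥ p + 2` and `l ≥ μ0`, or `l = p + 1 = q + 1` and
`n = μ0`. -/
theorem fill3 {s : ℕ} (μ : Fin s → ℕ) {m μ0 L : ℕ} {D : ℕ → ℕ} (S T3 : Finset (Fin s))
    (hd : Disjoint S T3) (hμ0 : 1 ≤ μ0) (hμ0m : μ0 ≤ m) (hT3 : ∀ i ∈ T3, μ i = μ0)
    (hS : ∀ i ∈ S, μ i ≤ m) (hmL : m ≤ L) (hD : ∀ l, l + 1 < L → D (l + 1) ≤ D l)
    (hslope : ∀ l, l < m → D l = D (l + 1) + 1) (h20 : ∀ l, l ≤ 2 * m → 20 * m ^ 2 ≤ D l)
    (p n : Fin s → ℕ) (q : ℕ) (hA : ∀ i ∈ S, Adm L (μ i) (p i) (n i)) (hq : 2 * m ≤ q)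
    (h8 : 8 * m ^ 2 ≤ D q) (hR : Reg m L D (fillOf S μ p n) m q)
    (htot : ∑ i ∈ S ∪ T3, tri (μ i) = ∑ l ∈ Finset.range L, D l) :
    ∃ p' n', (∀ i ∈ S ∪ T3, Adm L (μ i) (p' i) (n' i)) ∧
      ∀ l, l < L → fillOf (S ∪ T3) μ p' n' l = D l := by
  classical
  have hqL := hR.q_lt
  have hmono : ∀ k, k ≤ q → D q ≤ D (q - k) := by
    intro k
    induction k with
    | zero => intro _; exact le_rfl
    | succ k ih =>
      intro hk
      refine (ih (by omega)).trans ?_
      have h1 := hD (q - (k + 1)) (by omega)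
      have h2 : q - (k + 1) + 1 = q - k := by omega
      rw [h2] at h1
      exact h1
  have hmono' : ∀ l, l ≤ q → D q ≤ D l := by
    intro l hl
    have h1 := hmono (q - l) (by omega)
    have h2 : q - (q - l) = l := by omega
    rw [h2] at h1
    exact h1
  -- the total
  have hsumF := sum_fillOf hmL S μ p n hS hA
  have hT3sum : ∑ i ∈ T3, tri (μ i) = T3.card * tri μ0 := by
    rw [Finset.sum_congr rfl fun i hi => by rw [hT3 i hi], Finset.sum_const, smul_eq_mul]
  rw [Finset.sum_union hd, ← hsumF, hT3sum] at htot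
  have hsplit : ∀ f : ℕ → ℕ, ∑ l ∈ Finset.range L, f l =
      ∑ l ∈ Finset.range (q + 1), f l + ∑ l ∈ Finset.Ico (q + 1) L, f l := fun f =>
    (Finset.sum_range_add_sum_Ico f hqL).symm
  have hIco : ∑ l ∈ Finset.Ico (q + 1) L, fillOf S μ p n l = ∑ l ∈ Finset.Ico (q + 1) L, D l := by
    refine Finset.sum_congr rfl fun l hl => ?_
    rw [Finset.mem_Ico] at hl
    exact hR.full l (by omega) hl.2
  rw [hsplit, hsplit D, hIco] at htot
  obtain ⟨Z, hZl, hZA, hZ⟩ := close (N := T3.card) hμ0 hμ0m hq (fun l hl => hD l (by omega)) hslope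
    (fun l hl => h8.trans (hmono' l hl)) h20 hR.le hR.steep
    (fun l hl => hR.supp l (by omega)) (by omega)
  let e : T3 ≃ Fin Z.length := T3.equivFin.trans (finCongr hZl.symm)
  let p' : Fin s → ℕ := fun i => if h : i ∈ T3 then (Z[(e ⟨i, h⟩).1]).1 else p i
  let n' : Fin s → ℕ := fun i => if h : i ∈ T3 then (Z[(e ⟨i, h⟩).1]).2 else n i
  have hp' : ∀ i (h : i ∈ T3), p' i = (Z[(e ⟨i, h⟩).1]).1 := fun i h => dif_pos h
  have hn' : ∀ i (h : i ∈ T3), n' i = (Z[(e ⟨i, h⟩).1]).2 := fun i h => dif_pos h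
  have hp0 : ∀ i, i ∉ T3 → p' i = p i := fun i h => dif_neg h
  have hn0 : ∀ i, i ∉ T3 → n' i = n i := fun i h => dif_neg h
  have hSn : ∀ i ∈ S, i ∉ T3 := fun i hi h => Finset.disjoint_left.1 hd hi h
  refine ⟨p', n', ?_, ?_⟩
  · intro i hi
    rcases Finset.mem_union.1 hi with h | h
    · rw [hp0 i (hSn i h), hn0 i (hSn i h)]
      exact hA i h
    · rw [hp' i h, hn' i h, hT3 i h]
      exact Fill3_adm (hZA _ (List.getElem_mem _)) hqL
  · intro l hl
    have h1 : fillOf (S ∪ T3) μ p' n' l = fillOf S μ p n l +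
        (Z.map fun z => pat μ0 z.1 z.2 l).sum := by
      unfold fillOf
      rw [Finset.sum_union hd]
      congr 1
      · refine Finset.sum_congr rfl fun i hi => ?_
        rw [hp0 i (hSn i hi), hn0 i (hSn i hi)]
      · rw [← Finset.sum_coe_sort T3, ← Fin.sum_univ_fun_getElem Z fun z => pat μ0 z.1 z.2 l]
        refine Fintype.sum_equiv e _ _ fun i => ?_
        rw [hp' i i.2, hn' i i.2, hT3 i i.2]
    rw [h1]
    by_cases hlq : l ≤ q
    · exact hZ l hlq
    · rw [hR.full l (by omega) hl]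
      have h2 : (Z.map fun z => pat μ0 z.1 z.2 l).sum = 0 := by
        apply List.sum_eq_zero
        intro x hx
        obtain ⟨z, hz, rfl⟩ := List.mem_map.1 hx
        exact Fill3_zero (hZA z hz) (by omega) (by omega)
      rw [h2, add_zero]

end ShghQ
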