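import Pool.Agent.ShghQ.Pat

/-!
# Choice of the points
-/

namespace ShghQ

/-- Take `S ⊆ {i | 1 ≤ μ i}` minimal (for inclusion) with `tri X ≤ Σ_{i∈S} tri (μ i)`. `S` is not empty, and
removing `i ∈ S` shows `Σ_S tri < tri X + tri (μ i) ≤ tri X + tri m`. The sum over `S` is
`Σ_v #{i ∈ S | μ i = v} tri v` over the at most `κ` positive values `v`, so one of these terms is
`≥ (tri X) / κ`. -/
theorem exists_sub {s : ℕ} (μ : Fin s → ℕ) (m κ X : ℕ) (hX : 1 ≤ X) (hμ : ∀ i, μ i ≤ m)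
    (hκ : ((Finset.univ.image μ).erase 0).card ≤ κ) (hcov : tri X ≤ ∑ i, tri (μ i)) :
    ∃ (S : Finset (Fin s)) (μ0 : ℕ), (∀ i ∈ S, 1 ≤ μ i) ∧ tri X ≤ ∑ i ∈ S, tri (μ i) ∧
      ∑ i ∈ S, tri (μ i) < tri X + tri m ∧ 1 ≤ μ0 ∧ μ0 ≤ m ∧
      tri X ≤ κ * ((S.filter fun i => μ i = μ0).card * tri μ0) := by
  classical
  have hX1 : 1 ≤ tri X := (tri_mono hX : tri 1 ≤ tri X)
  set U : Finset (Fin s) := Finset.univ.filter fun i => 1 ≤ μ i with hU
  have hUs : ∑ i ∈ U, tri (μ i) = ∑ i, tri (μ i) := by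
    refine Finset.sum_subset (Finset.subset_univ _) fun i _ hi => ?_
    have h1 : ¬ 1 ≤ μ i := fun h => hi (Finset.mem_filter.2 ⟨Finset.mem_univ i, h⟩)
    have h2 : μ i = 0 := by omega
    rw [h2]
    rfl
  set F : Finset (Finset (Fin s)) := U.powerset.filter fun S => tri X ≤ ∑ i ∈ S, tri (μ i) with hF
  have hUF : U ∈ F := by
    rw [hF, Finset.mem_filter]
    exact ⟨Finset.mem_powerset_self _, by rw [hUs]; exact hcov⟩
  obtain ⟨S, hS, hmin⟩ := Finset.exists_min_image F Finset.card ⟨U, hUF⟩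
  have hS2 := Finset.mem_filter.1 hS
  have hSU : S ⊆ U := Finset.mem_powerset.1 hS2.1
  have hSne : S.Nonempty := by
    rw [Finset.nonempty_iff_ne_empty]
    rintro rfl
    have := hS2.2
    rw [Finset.sum_empty] at this
    omega
  obtain ⟨i, hi⟩ := hSne
  have hlt : ∑ i ∈ S, tri (μ i) < tri X + tri m := by
    have h1 : S.erase i ∉ F := fun h => by
      have h2 := hmin _ h
      rw [Finset.card_erase_of_mem hi] at h2
      have h3 : 0 < S.card := Finset.card_pos.2 ⟨i, hi⟩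
      omega
    have h2 : ¬ tri X ≤ ∑ i ∈ S.erase i, tri (μ i) := fun h => h1 (Finset.mem_filter.2
      ⟨Finset.mem_powerset.2 ((Finset.erase_subset _ _).trans hSU), h⟩)
    rw [← Finset.add_sum_erase S _ hi]
    have h3 := tri_mono (hμ i)
    omega
  set V : Finset ℕ := (Finset.univ.image μ).erase 0 with hV
  have hmap : ∀ i ∈ S, μ i ∈ V := by
    intro j hj
    have h1 := (Finset.mem_filter.1 (hSU hj)).2
    exact Finset.mem_erase.2 ⟨by omega, Finset.mem_image_of_mem _ (Finset.mem_univ j)⟩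
  obtain ⟨v, hv, hmax⟩ := Finset.exists_max_image V
    (fun v => (S.filter fun i => μ i = v).card * tri v) ⟨μ i, hmap i hi⟩
  have hv2 := Finset.mem_erase.1 hv
  obtain ⟨j, -, hj⟩ := Finset.mem_image.1 hv2.2
  refine ⟨S, v, fun i hi => (Finset.mem_filter.1 (hSU hi)).2, hS2.2, hlt, by omega,
    hj ▸ hμ j, ?_⟩
  calc tri X ≤ ∑ i ∈ S, tri (μ i) := hS2.2
    _ = ∑ v ∈ V, ∑ i ∈ S.filter (fun i => μ i = v), tri (μ i) :=
      (Finset.sum_fiberwise_of_maps_to hmap _).symm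
    _ = ∑ v ∈ V, (S.filter fun i => μ i = v).card * tri v := by
      refine Finset.sum_congr rfl fun w _ => ?_
      rw [Finset.sum_congr rfl fun i hi => by rw [(Finset.mem_filter.1 hi).2], Finset.sum_const,
        smul_eq_mul]
    _ ≤ ∑ _w ∈ V, (S.filter fun i => μ i = v).card * tri v := Finset.sum_le_sum hmax
    _ = V.card * ((S.filter fun i => μ i = v).card * tri v) := by
      rw [Finset.sum_const, smul_eq_mul]
    _ ≤ κ * ((S.filter fun i => μ i = v).card * tri v) := Nat.mul_le_mul_right _ hκ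

/-- The positive values are at most `m`, so there are at most `m` of them. -/
theorem card_values_le {s : ℕ} (μ : Fin s → ℕ) (m : ℕ) (hμ : ∀ i, μ i ≤ m) :
    ((Finset.univ.image μ).erase 0).card ≤ m := by
  have h1 : (Finset.univ.image μ).erase 0 ⊆ Finset.Icc 1 m := by
    intro v hv
    obtain ⟨h1, h2⟩ := Finset.mem_erase.1 hv
    obtain ⟨i, -, rfl⟩ := Finset.mem_image.1 h2
    exact Finset.mem_Icc.2 ⟨by omega, hμ i⟩
  have h2 := Finset.card_le_card h1
  rwa [Nat.card_Icc, Nat.add_sub_cancel] at h2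

/-- The arithmetic of the constants. `κ N ≥ tri X`, `X² ≥ 2500 κ m⁴`, `κ ≤ m` (so `X ≥ 50 κ m`):
`N ≥ X²/(2κ) ≥ 83 m⁴ + 10 m X`. -/
theorem const_arith (m κ X N : ℕ) (hm : 1 ≤ m) (hκ1 : 1 ≤ κ) (hκ : κ ≤ m)
    (hX : 2500 * κ * m ^ 4 ≤ X ^ 2) (hN : tri X ≤ κ * N) :
    83 * m ^ 4 + 10 * m * X ≤ N := by
  have h1 := two_mul_tri X
  have h2 : (50 * κ * m) ^ 2 ≤ X ^ 2 := by
    refine le_trans ?_ hX
    have h3 : m ^ 3 ≤ m ^ 4 := Nat.pow_le_pow_right hm (by norm_num)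
    calc (50 * κ * m) ^ 2 = 2500 * κ * (κ * m ^ 2) := by ring
      _ ≤ 2500 * κ * (m * m ^ 2) :=
        Nat.mul_le_mul_left _ (Nat.mul_le_mul_right _ hκ)
      _ = 2500 * κ * m ^ 3 := by ring
      _ ≤ 2500 * κ * m ^ 4 := Nat.mul_le_mul_left _ h3
  have h4 : 50 * κ * m ≤ X := (Nat.pow_le_pow_iff_left (by norm_num)).1 h2
  have h5 : 50 * κ * m * X ≤ X * X := Nat.mul_le_mul_right _ h4
  have h6 : κ * (2 * (83 * m ^ 4 + 10 * m * X)) ≤ κ * (2 * N) := by
    have e1 : κ * (2 * (83 * m ^ 4 + 10 * m * X)) = 166 * (κ * m ^ 4) + 20 * (κ * m * X) := by ring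
    have e2 : 2500 * κ * m ^ 4 = 2500 * (κ * m ^ 4) := by ring
    have e3 : 50 * κ * m * X = 50 * (κ * m * X) := by ring
    have e4 : X ^ 2 = X * X := by ring
    have e5 : X * (X + 1) = X * X + X := by ring
    have e6 : κ * (2 * N) = 2 * (κ * N) := by ring
    rw [e2, e4] at hX
    rw [e3] at h5
    rw [e5] at h1
    rw [e1, e6]
    omega
  have h7 := Nat.le_of_mul_le_mul_left h6 hκ1
  omega

end ShghQ
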