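import Pool.Agent.ShghQ.Fill12
import Pool.Agent.ShghQ.Fill3
import Pool.Agent.ShghQ.Sub
import Pool.Agent.ShghQ.Dem

/-!
# The combinatorial theorem
-/

namespace ShghQ

theorem Comb_tri_le {a m : ℕ} (ham : a ≤ m) : tri a ≤ m ^ 2 := by
  have h1 := two_mul_tri a
  have h2 : a * (a + 1) ≤ m * (m + 1) := Nat.mul_le_mul ham (by omega)
  nlinarith

theorem Comb_tri_pos {a : ℕ} (ha : 1 ≤ a) : 1 ≤ tri a := by
  have h1 := two_mul_tri a
  nlinarith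

/-- the partition of the points -/
theorem Comb_partition {s : ℕ} (S : Finset (Fin s)) (μ : Fin s → ℕ) (μ0 b t : ℕ)
    (h : b + t ≤ (S.filter fun i => μ i = μ0).card) :
    ∃ B T1 T2 T3 : Finset (Fin s), B.card = b ∧ T1.card = t ∧
      (∀ i ∈ B, μ i = μ0) ∧ (∀ i ∈ T1, μ i = μ0) ∧ (∀ i ∈ T3, μ i = μ0) ∧
      T3.card + (b + t) = (S.filter fun i => μ i = μ0).card ∧
      Disjoint T1 T2 ∧ Disjoint (T1 ∪ T2) T3 ∧ Disjoint B (T1 ∪ T2 ∪ T3) ∧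
      B ∪ (T1 ∪ T2 ∪ T3) = S := by
  classical
  set C := S.filter fun i => μ i = μ0 with hC
  obtain ⟨B, hBC, hB⟩ := Finset.exists_subset_card_eq (show b ≤ C.card by omega)
  have h1 : t ≤ (C \ B).card := by
    rw [Finset.card_sdiff_of_subset hBC, hB]
    omega
  obtain ⟨T1, hT1C, hT1⟩ := Finset.exists_subset_card_eq h1
  have hCS : C ⊆ S := Finset.filter_subset _ _
  have hT1C' : T1 ⊆ C := hT1C.trans Finset.sdiff_subset
  have hBT1 : Disjoint B T1 := by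
    rw [Finset.disjoint_left]
    intro i hi hi'
    exact (Finset.mem_sdiff.1 (hT1C hi')).2 hi
  refine ⟨B, T1, S \ C, C \ (B ∪ T1), hB, hT1, ?_, ?_, ?_, ?_, ?_, ?_, ?_, ?_⟩
  · intro i hi
    exact (Finset.mem_filter.1 (hBC hi)).2
  · intro i hi
    exact (Finset.mem_filter.1 (hT1C' hi)).2
  · intro i hi
    exact (Finset.mem_filter.1 (Finset.mem_sdiff.1 hi).1).2
  · rw [Finset.card_sdiff_of_subset (Finset.union_subset hBC hT1C'),
      Finset.card_union_of_disjoint hBT1, hB, hT1]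
    omega
  · rw [Finset.disjoint_left]
    intro i hi hi'
    exact (Finset.mem_sdiff.1 hi').2 (hT1C' hi)
  · rw [Finset.disjoint_left]
    intro i hi hi'
    rw [Finset.mem_sdiff, Finset.mem_union, not_or] at hi'
    rcases Finset.mem_union.1 hi with hi | hi
    · exact hi'.2.2 hi
    · exact (Finset.mem_sdiff.1 hi).2 hi'.1
  · rw [Finset.disjoint_left]
    intro i hi hi'
    rcases Finset.mem_union.1 hi' with hi' | hi'
    · rcases Finset.mem_union.1 hi' with hi' | hi'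
      · exact Finset.disjoint_left.1 hBT1 hi hi'
      · exact (Finset.mem_sdiff.1 hi').2 (hBC hi)
    · rw [Finset.mem_sdiff, Finset.mem_union, not_or] at hi'
      exact hi'.2.1 hi
  · ext i
    simp only [Finset.mem_union, Finset.mem_sdiff, not_or]
    constructor
    · rintro (h | (h | h) | h)
      · exact hCS (hBC h)
      · exact hCS (hT1C' h)
      · exact h.1
      · exact hCS h.1
    · intro hi
      by_cases h1 : i ∈ C
      · by_cases h2 : i ∈ B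
        · exact Or.inl h2
        · by_cases h3 : i ∈ T1
          · exact Or.inr (Or.inl (Or.inl h3))
          · exact Or.inr (Or.inr ⟨h1, h2, h3⟩)
      · exact Or.inr (Or.inl (Or.inr ⟨hi, h1⟩))

theorem Comb_sum_const {s : ℕ} (T : Finset (Fin s)) (μ : Fin s → ℕ) (μ0 : ℕ)
    (h : ∀ i ∈ T, μ i = μ0) : ∑ i ∈ T, tri (μ i) = T.card * tri μ0 := by
  rw [Finset.sum_congr rfl (fun i hi => by rw [h i hi]), Finset.sum_const, smul_eq_mul]

/-- The filling of the strip. `S`: all points used; `B`: the base points, `T = S \ B`. The whole proof: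
`κ0` = number of positive values, `κ0 ≤ κ`, `κ0 ≤ m` (`card_values_le`), `exists_sub` (with `κ0`) gives `S`,
`μ0`; `C` = the points of `S` with `μ i = μ0`, `N0 = |C|`, `const_arith`: `N0 tri μ0 ≥ 83 m⁴ + 10 m X` (`κ0 ≥ 1`,
otherwise `tri X ≤ 0`).
`X' = 2 μ0² + 2 μ0 ≤ 4 m²`, `tri X' = ((2μ0+1)²+1) tri μ0 ≤ 10 m⁴`, `X ≥ 50 m²`, `L = X - X'`,
`σ = Σ_S tri - tri X < tri m ≤ m²`, `D = dem m X σ`, `Dm = X + 1`.
`B ⊆ C` with `|B| = (2μ0+1)²+1`, `T1 ⊆ C \ B` with `|T1| = 72 m⁴ / tri μ0 + 1` (area in `[72 m⁴, 73 m⁴]`),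
`T2 = S \ C`, `T3 = C \ (B ∪ T1)`; the area of `T1 ∪ T2 ∪ T3` is `Σ_{l<L} D l` by `sum_dem`, and the area of `T3`
is at least `10 m X ≥ (2 m + 3)(X + 1)` (`m ≥ 1`, `X ≥ 50`). Then `fill12` and `fill3`
(`D l = D (l+1) + 1` for `l < m` since the block begins at `2 m`; `D l ≥ X - 2 m ≥ 20 m²` for `l ≤ 2 m`;
`D l ≥ X' + 1 ≥ μ0²` for `l < L`). Finally `X ≤ l + D l`. -/
theorem comb {s : ℕ} (μ : Fin s → ℕ) (m κ X : ℕ) (hm : 1 ≤ m) (hX1 : 1 ≤ X) (hμ : ∀ i, μ i ≤ m)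
    (hκ : ((Finset.univ.image μ).erase 0).card ≤ κ) (hX : 2500 * κ * m ^ 4 ≤ X ^ 2)
    (hcov : tri X ≤ ∑ i, tri (μ i)) :
    ∃ (μ0 : ℕ) (B T : Finset (Fin s)) (p n : Fin s → ℕ), 1 ≤ μ0 ∧ μ0 ≤ m ∧ Disjoint B T ∧
      B.card = (2 * μ0 + 1) ^ 2 + 1 ∧ (∀ i ∈ B, μ i = μ0) ∧ 2 * μ0 ^ 2 + 2 * μ0 < X ∧
      (∀ i ∈ T, Adm (X - (2 * μ0 ^ 2 + 2 * μ0)) (μ i) (p i) (n i)) ∧
      ∀ l, l < X - (2 * μ0 ^ 2 + 2 * μ0) → X ≤ l + ∑ i ∈ T, pat (μ i) (p i) (n i) l := by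
  classical
  set κ0 := ((Finset.univ.image μ).erase 0).card with hκ0
  have hκ0m : κ0 ≤ m := card_values_le μ m hμ
  obtain ⟨S, μ0, hS1, hS2, hS3, hμ0, hμ0m, hS4⟩ := exists_sub μ m κ0 X hX1 hμ le_rfl hcov
  have htX : 1 ≤ tri X := Comb_tri_pos hX1
  have hκ01 : 1 ≤ κ0 := by
    by_contra h
    have h0 : κ0 = 0 := by omega
    rw [h0, zero_mul] at hS4
    omega
  have hX' : 2500 * κ0 * m ^ 4 ≤ X ^ 2 :=
    (Nat.mul_le_mul_right _ (Nat.mul_le_mul_left _ hκ)).trans hX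
  set N0 := (S.filter fun i => μ i = μ0).card with hN0
  have harith := const_arith m κ0 X (N0 * tri μ0) hm hκ01 hκ0m hX' hS4
  set t0 := tri μ0 with ht0
  have ht0pos : 1 ≤ t0 := Comb_tri_pos hμ0
  have ht0le : t0 ≤ m ^ 2 := Comb_tri_le hμ0m
  have htm : tri m ≤ m ^ 2 := Comb_tri_le le_rfl
  have hmm : 1 ≤ m ^ 2 := Nat.one_le_pow _ _ hm
  have hm2 : m ≤ m ^ 2 := by nlinarith
  have hX50 : 50 * m ^ 2 ≤ X := by
    by_contra h
    push Not at h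
    have h1 : 2500 * m ^ 4 ≤ X ^ 2 := by
      calc 2500 * m ^ 4 = 2500 * 1 * m ^ 4 := by ring
        _ ≤ 2500 * κ0 * m ^ 4 := Nat.mul_le_mul_right _ (Nat.mul_le_mul_left _ hκ01)
        _ ≤ X ^ 2 := hX'
    have h2 : X ^ 2 < (50 * m ^ 2) ^ 2 := Nat.pow_lt_pow_left h (by norm_num)
    have h3 : (50 * m ^ 2) ^ 2 = 2500 * m ^ 4 := by ring
    omega
  have hX'le : 2 * μ0 ^ 2 + 2 * μ0 ≤ 4 * m ^ 2 := by
    have h1 : μ0 ^ 2 ≤ m ^ 2 := Nat.pow_le_pow_left hμ0m 2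
    have h2 : μ0 ≤ m ^ 2 := hμ0m.trans hm2
    omega
  have hb0 : (2 * μ0 + 1) ^ 2 + 1 ≤ 10 * m ^ 2 := by
    have h1 : 2 * μ0 + 1 ≤ 3 * m := by omega
    have h2 : (2 * μ0 + 1) ^ 2 ≤ (3 * m) ^ 2 := Nat.pow_le_pow_left h1 2
    have h3 : (3 * m) ^ 2 = 9 * m ^ 2 := by ring
    omega
  set b0 := (2 * μ0 + 1) ^ 2 + 1 with hb0def
  have hm4 : m ^ 2 * m ^ 2 = m ^ 4 := by ring
  have hb0t : b0 * t0 ≤ 10 * m ^ 4 := by
    calc b0 * t0 ≤ 10 * m ^ 2 * m ^ 2 := Nat.mul_le_mul hb0 ht0le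
      _ = 10 * m ^ 4 := by ring
  have htrib : tri (2 * μ0 ^ 2 + 2 * μ0) = b0 * t0 := tri_base μ0
  set a1 := 72 * m ^ 4 / t0 + 1 with ha1
  have ha1lo : 72 * m ^ 4 ≤ a1 * t0 := by
    rw [ha1, add_mul, one_mul]
    have := Nat.div_add_mod (72 * m ^ 4) t0
    have h2 := Nat.mod_lt (72 * m ^ 4) (show 0 < t0 from ht0pos)
    nlinarith
  have ha1hi : a1 * t0 ≤ 73 * m ^ 4 := by
    rw [ha1, add_mul, one_mul]
    have h1 := Nat.div_mul_le_self (72 * m ^ 4) t0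
    have h2 : m ^ 2 ≤ m ^ 4 := Nat.pow_le_pow_right hm (by norm_num)
    omega
  have hcard : b0 + a1 ≤ N0 := by
    by_contra h
    push Not at h
    have h1 : N0 * t0 ≤ (b0 + a1) * t0 := Nat.mul_le_mul_right _ h.le
    have h2 : N0 * t0 < (b0 + a1) * t0 := Nat.mul_lt_mul_of_pos_right h ht0pos
    rw [add_mul] at h2
    have h3 : 0 ≤ 10 * m * X := Nat.zero_le _
    omega
  obtain ⟨B, T1, T2, T3, hBc, hT1c, hBμ, hT1μ, hT3μ, hT3c, h12, h123, hBT, hunion⟩ :=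
    Comb_partition S μ μ0 b0 a1 hcard
  -- areas
  have hareaB : ∑ i ∈ B, tri (μ i) = b0 * t0 := by rw [Comb_sum_const B μ μ0 hBμ, hBc]
  have harea1 : ∑ i ∈ T1, tri (μ i) = a1 * t0 := by rw [Comb_sum_const T1 μ μ0 hT1μ, hT1c]
  have harea3 : ∑ i ∈ T3, tri (μ i) = T3.card * t0 := Comb_sum_const T3 μ μ0 hT3μ
  have hareaS : ∑ i ∈ B, tri (μ i) + ∑ i ∈ T1 ∪ T2 ∪ T3, tri (μ i) = ∑ i ∈ S, tri (μ i) := by
    rw [← Finset.sum_union hBT, hunion]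
  have harea123 : ∑ i ∈ T1 ∪ T2 ∪ T3, tri (μ i) =
      ∑ i ∈ T1 ∪ T2, tri (μ i) + ∑ i ∈ T3, tri (μ i) := Finset.sum_union h123
  have hT3big : 10 * m * X ≤ T3.card * t0 := by
    have h1 : T3.card * t0 + (b0 + a1) * t0 = N0 * t0 := by rw [← add_mul, hT3c]
    rw [add_mul] at h1
    omega
  obtain ⟨σ, hσ⟩ := Nat.exists_eq_add_of_le hS2
  have hσlt : σ < m ^ 2 := by omega
  have hXL : (2 * μ0 ^ 2 + 2 * μ0) ≤ X := by omega
  have hsum := sum_dem m X (2 * μ0 ^ 2 + 2 * μ0) σ hXL (by omega)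
  set L := X - (2 * μ0 ^ 2 + 2 * μ0) with hL
  have htot : ∑ i ∈ T1 ∪ T2 ∪ T3, tri (μ i) = ∑ l ∈ Finset.range L, dem m X σ l := by
    rw [htrib] at hsum
    omega
  have hDle : ∀ l, dem m X σ l ≤ X + 1 := by
    intro l
    unfold dem
    split_ifs <;> omega
  have hDge : ∀ l, X ≤ dem m X σ l + l := by
    intro l
    unfold dem
    omega
  have hDanti : ∀ l, l + 1 < L → dem m X σ (l + 1) ≤ dem m X σ l := fun l hl =>
    dem_anti m X σ l (by omega)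
  have hmL : m ≤ L := by omega
  have hslack : (2 * m + 3) * (X + 1) ≤ 10 * m * X := by
    have h1 : 2 * m + 3 ≤ 5 * m := by omega
    have h2 : X + 1 ≤ 2 * X := by omega
    calc (2 * m + 3) * (X + 1) ≤ (5 * m) * (2 * X) := Nat.mul_le_mul h1 h2
      _ = 10 * m * X := by ring
  have hSsub : ∀ i ∈ T1 ∪ T2 ∪ T3, i ∈ S := fun i hi => by
    rw [← hunion]
    exact Finset.mem_union_right _ hi
  obtain ⟨p, n, q, hA, hq, h8, hR⟩ := fill12 (X := X) (Dm := X + 1) (L := L) μ T1 T2 h12 hμ0 hμ0m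
    hT1μ (fun i hi => ⟨hS1 i (hSsub i (Finset.mem_union_left _ (Finset.mem_union_right _ hi))),
      hμ i⟩) (by omega) hmL (fun l _ => hDle l) hDanti (fun l _ => hDge l) (Nat.sub_le _ _)
    (by
      intro l hl
      have h1 := hDge l
      have h2 : μ0 * μ0 = μ0 ^ 2 := by ring
      rw [h2]
      omega) (by rw [harea1]; exact ha1lo) (by rw [← htot, harea123, harea3]; omega)
  obtain ⟨p', n', hA', hfill⟩ := fill3 μ (T1 ∪ T2) T3 h123 hμ0 hμ0m hT3μ (fun i _ => hμ i) hmL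
    hDanti (by
      intro l hl
      unfold dem
      rw [if_neg (by omega), if_neg (by omega)]
      omega) (by
      intro l hl
      have h1 := hDge l
      omega) p n q hA hq h8 hR htot
  refine ⟨μ0, B, T1 ∪ T2 ∪ T3, p', n', hμ0, hμ0m, hBT, hBc, hBμ, by omega, hA', ?_⟩
  intro l hl
  have h1 := hfill l hl
  rw [fillOf] at h1
  rw [h1]
  have h2 := hDge l
  omega

end ShghQ
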