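import Pool.Agent.ShghQ.BaseDvd

/-!
# The exact homogeneous class `(2μ²+2μ-1; μ^((2μ+1)²+1))`
-/

namespace ShghQ

open MvPolynomial

variable {K : Type*} [Field K]

theorem Base_xx_ne {μ : ℕ} (α : Fin (2 * μ + 1) → K)
    (t : Fin (2 * μ + 1) → Fin (2 * μ + 1) → K) (j r : Fin (2 * μ + 1)) (c : K)
    (h : μ ≤ r.val → t j r ≠ c) : xx α t j r ≠ Polynomial.C c := by
  intro hc
  unfold xx at hc
  split_ifs at hc with hr
  · have h1 := congrArg (fun p => Polynomial.coeff p 1) hc
    simp only [Polynomial.coeff_add, Polynomial.coeff_X_one] at h1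
    rw [Polynomial.coeff_C_of_ne_zero one_ne_zero, Polynomial.coeff_C_of_ne_zero one_ne_zero] at h1
    simp at h1
  · exact h (by omega) (Polynomial.C_injective hc)

theorem Base_lam_ne_zero {A : Type*} [CommRing A] [Nontrivial A] (α : A) : lam α ≠ 0 := by
  intro h
  exact lam_not_mem α 0 0 (by rw [h]; exact Ideal.zero_mem _)

theorem Base_degree_prod {A ι : Type*} [CommRing A] [IsDomain A] (S : Finset ι) (α : ι → A) :
    (∏ i ∈ S, lam (α i)).totalDegree = S.card := by
  classical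
  induction S using Finset.induction_on with
  | empty => simp
  | insert a S ha ih =>
    rw [Finset.prod_insert ha, totalDegree_mul_of_isDomain (Base_lam_ne_zero _)
      (Finset.prod_ne_zero_iff.2 fun i _ => Base_lam_ne_zero _), ih, totalDegree_lam,
      Finset.card_insert_of_notMem ha, add_comm]

theorem Base_eval_lam {A : Type*} [CommRing A] (β a b : A) :
    eval ![a, b] (lam β) = b - β * a + β ^ 2 := by
  unfold lam
  simp

theorem Base_eval_ne {A ι : Type*} [CommRing A] [IsDomain A] [Fintype ι] [DecidableEq ι]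
    (α : ι → A) (hα : Function.Injective α) (x : A) (j : ι) (hx : ∀ i, x ≠ α j + α i) :
    eval ![x, α j * x - α j ^ 2] (∏ i ∈ Finset.univ.erase j, lam (α i)) ≠ 0 := by
  rw [map_prod, Finset.prod_ne_zero_iff]
  intro i hi
  rw [eval_lam]
  refine mul_ne_zero ?_ ?_
  · rw [sub_ne_zero]
    intro h
    exact (Finset.ne_of_mem_erase hi) (hα h).symm
  · rw [sub_ne_zero]
    exact hx i

theorem Base_prod_not_mem {A ι : Type*} [CommRing A] [IsDomain A] [Fintype ι] [DecidableEq ι]
    (α : ι → A) (hα : Function.Injective α) (x : A) (j : ι) (hx : ∀ i, x ≠ α j + α i) :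
    (∏ i, lam (α i)) ∉ pt x (α j * x - α j ^ 2) ^ 2 := by
  intro hmem
  have h : (∏ i, lam (α i)) = (∏ i ∈ Finset.univ.erase j, lam (α i)) * lam (α j) := by
    rw [mul_comm]
    exact (Finset.mul_prod_erase Finset.univ (fun i => lam (α i)) (Finset.mem_univ j)).symm
  rw [h] at hmem
  have h3 := colon_zero x (α j * x - α j ^ 2) (∏ i ∈ Finset.univ.erase j, lam (α i)) (lam (α j)) 2
    (Base_eval_ne α hα x j hx) hmem
  exact lam_not_mem (α j) x (α j * x - α j ^ 2) h3

/-- The product of all the lines has the multiplicity one at the points. -/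
theorem Base_not_mem {μ : ℕ} (α : Fin (2 * μ + 1) → K) (hα : Function.Injective α)
    (t : Fin (2 * μ + 1) → Fin (2 * μ + 1) → K)
    (ht' : ∀ j r i, μ ≤ r.val → t j r ≠ α j + α i) (j r : Fin (2 * μ + 1)) :
    ∏ i, lam (Polynomial.C (α i)) ∉ pt (xx α t j r)
      (Polynomial.C (α j) * xx α t j r - Polynomial.C (α j) ^ 2) ^ 2 := by
  classical
  refine Base_prod_not_mem (fun i => Polynomial.C (α i))
    (fun a b h => hα (Polynomial.C_injective h)) (xx α t j r) j fun i => ?_
  rw [← Polynomial.C_add]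
  exact Base_xx_ne α t j r _ (ht' j r i)

/-- Induction on `b`. `b = 0`: degree `≤ μ - 1` and multiplicity `μ` at `(a0, b0)`
(`eq_zero_of_degree_lt`). Step: `f = Λ g` by `base_dvd`, `Λ = ∏ lam`. `g` has degree
`≤ (2μ+1)(b+1) + μ - 1 - (2μ+1)` (`totalDegree_mul_of_isDomain`, `totalDegree_lam`). `g ∈ pt (xx j r) ^ b` by
`colon` with `r = 1`: `Λ ∉ pt ^ 2`, because `Λ = lam_j Λ'`, `Λ'` does not vanish at the point (`eval_lam`,
`xx j r ≠ C (α j + α i)`), so `lam_j ∈ pt ^ 2` by `colon_zero`, contradiction to `lam_not_mem`.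
`g ∈ pt (a0, b0) ^ μ` by `colon_zero` (`h0`). -/
theorem base_aux (μ : ℕ) (hμ : 1 ≤ μ) (α : Fin (2 * μ + 1) → K) (hα : Function.Injective α)
    (t : Fin (2 * μ + 1) → Fin (2 * μ + 1) → K)
    (ht : ∀ j r r', μ ≤ r.val → μ ≤ r'.val → t j r = t j r' → r = r')
    (ht' : ∀ j r i, μ ≤ r.val → t j r ≠ α j + α i) (a0 b0 : K)
    (h0 : ∀ j, b0 - α j * a0 + α j ^ 2 ≠ 0) (b : ℕ) (f : MvPolynomial (Fin 2) (Polynomial K))
    (hdeg : f.totalDegree ≤ (2 * μ + 1) * b + μ - 1)
    (hf : ∀ j r, f ∈ pt (xx α t j r)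
      (Polynomial.C (α j) * xx α t j r - Polynomial.C (α j) ^ 2) ^ b)
    (hf0 : f ∈ pt (Polynomial.C a0) (Polynomial.C b0) ^ μ) : f = 0 := by
  induction b generalizing f with
  | zero => exact eq_zero_of_degree_lt _ _ hf0 (by omega)
  | succ b ih =>
    obtain ⟨g, rfl⟩ := base_dvd μ hμ α hα t ht ht' (b + 1) (by omega) f hdeg hf
    have hΛ : (∏ j, lam (Polynomial.C (α j))) ≠ 0 :=
      Finset.prod_ne_zero_iff.2 fun i _ => Base_lam_ne_zero _
    have hg : g = 0 := by
      by_contra hg0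
      apply hg0
      refine ih g ?_ (fun j r => ?_) ?_
      · rw [totalDegree_mul_of_isDomain hΛ hg0, Base_degree_prod Finset.univ
          (fun j => Polynomial.C (α j)), Finset.card_univ, Fintype.card_fin, Nat.mul_succ] at hdeg
        omega
      · exact colon _ _ _ g 1 b (Base_not_mem α hα t ht' j r) (hf j r)
      · refine colon_zero _ _ _ g μ ?_ hf0
        rw [map_prod, Finset.prod_ne_zero_iff]
        intro i _
        rw [Base_eval_lam, ← Polynomial.C_mul, ← Polynomial.C_sub, ← Polynomial.C_pow,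
          ← Polynomial.C_add]
        exact Polynomial.C_ne_zero.2 (h0 i)
    rw [hg, mul_zero]

/-- Choose `α`, `t`, `a0 ≠ 0`, `b0` (all the conditions exclude finitely many elements, also `t j r ≠ 0`);
`xx j r ≠ 0`. `base_aux` with `b = μ`: `(2μ+1) μ + μ - 1 = 2μ² + 2μ - 1`. -/
theorem base [Infinite K] (μ : ℕ) (hμ : 1 ≤ μ) :
    ∃ P : Option (Fin (2 * μ + 1) × Fin (2 * μ + 1)) → Fin 2 → Polynomial K, (∀ i, P i 0 ≠ 0) ∧
      ∀ f : MvPolynomial (Fin 2) (Polynomial K), f.totalDegree ≤ 2 * μ ^ 2 + 2 * μ - 1 →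
        (∀ i, f ∈ pt (P i 0) (P i 1) ^ μ) → f = 0 := by
  classical
  obtain ⟨α, hα⟩ : ∃ α : Fin (2 * μ + 1) → K, Function.Injective α :=
    ⟨fun i => Infinite.natEmbedding K i.val,
      fun i j h => Fin.ext ((Infinite.natEmbedding K).injective h)⟩
  set S : Finset K := insert 0 (Finset.univ.image fun q : Fin (2 * μ + 1) × Fin (2 * μ + 1) =>
    α q.1 + α q.2) with hS
  have hinf : ((S : Set K)ᶜ).Infinite := S.finite_toSet.infinite_compl
  obtain ⟨s, hs, hsS⟩ : ∃ s : ℕ → K, Function.Injective s ∧ ∀ n, s n ∉ S := by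
    refine ⟨fun n => (hinf.natEmbedding _ n : K), fun i j h => ?_, fun n => ?_⟩
    · exact (hinf.natEmbedding _).injective (Subtype.ext h)
    · exact fun hmem => (hinf.natEmbedding _ n).2 (Finset.mem_coe.2 hmem)
  have hs0 : ∀ n, s n ≠ 0 := fun n h => hsS n (by rw [hS, h]; exact Finset.mem_insert_self _ _)
  have hsα : ∀ n i j, s n ≠ α i + α j := fun n i j h => hsS n (by
    rw [hS, h]
    exact Finset.mem_insert_of_mem (Finset.mem_image.2 ⟨(i, j), Finset.mem_univ _, rfl⟩))
  obtain ⟨b0, hb0⟩ := Infinite.exists_notMem_finset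
    (Finset.univ.image fun j : Fin (2 * μ + 1) => α j * 1 - α j ^ 2)
  have h0 : ∀ j, b0 - α j * 1 + α j ^ 2 ≠ 0 := by
    intro j h
    apply hb0
    rw [Finset.mem_image]
    refine ⟨j, Finset.mem_univ _, ?_⟩
    linear_combination -h
  set t : Fin (2 * μ + 1) → Fin (2 * μ + 1) → K := fun _ r => s r.val with ht
  refine ⟨fun o => match o with
    | none => ![Polynomial.C 1, Polynomial.C b0]
    | some q => ![xx α t q.1 q.2, Polynomial.C (α q.1) * xx α t q.1 q.2 - Polynomial.C (α q.1) ^ 2],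
    ?_, ?_⟩
  · rintro (_ | ⟨j, r⟩)
    · change (Polynomial.C (1 : K)) ≠ 0
      exact Polynomial.C_ne_zero.2 one_ne_zero
    · change xx α t j r ≠ 0
      rw [← Polynomial.C_0]
      exact Base_xx_ne α t j r 0 fun _ => hs0 _
  · intro f hdeg hf
    refine base_aux μ hμ α hα t ?_ ?_ 1 b0 h0 μ f ?_ ?_ (hf none)
    · intro j r r' _ _ h
      exact Fin.ext (hs h)
    · intro j r i _
      exact hsα _ _ _
    · refine hdeg.trans (le_of_eq ?_)
      have : (2 * μ + 1) * μ + μ = 2 * μ ^ 2 + 2 * μ := by ring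
      omega
    · intro j r
      exact hf (some (j, r))

end ShghQ
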