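import Pool.Agent.ShghQ.Pat

/-!
# Upper level sets of the values are short intervals
-/

namespace ShghQ

theorem Fit_left {L p n c : ℕ} {u : ℕ → ℤ} (hS : Sees L u c p n) {l l' : ℕ} (h : l ≤ l')
    (h' : l' ≤ p) : val u c l ≤ val u c l' := by
  induction l', h using Nat.le_induction with
  | base => exact le_rfl
  | succ k _ ih => exact (ih (by omega)).trans (hS.left k (by omega)).le

theorem Fit_right {L p n c : ℕ} {u : ℕ → ℤ} (hS : Sees L u c p n) {l l' : ℕ} (h : l ≤ l')
    (h' : p ≤ l) : val u c l' ≤ val u c l := by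
  induction l', h using Nat.le_induction with
  | base => exact le_rfl
  | succ k hk ih => exact (hS.right k (by omega)).le.trans ih

/-- strictly increasing to the left of the peak -/
theorem Fit_ge {L p n c : ℕ} {u : ℕ → ℤ} (hS : Sees L u c p n) {l l₀ : ℕ} (h : l₀ ≤ p)
    (hv : val u c l₀ ≤ val u c l) : l₀ ≤ l := by
  by_contra hlt
  push Not at hlt
  have h1 := Fit_left hS (show l + 1 ≤ l₀ by omega) h
  have h2 := hS.left l (by omega)
  omega

/-- strictly decreasing to the right of the peak -/
theorem Fit_le {L p n c : ℕ} {u : ℕ → ℤ} (hS : Sees L u c p n) {l l₀ : ℕ} (h : p ≤ l₀)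
    (hv : val u c l₀ ≤ val u c l) : l ≤ l₀ := by
  by_contra hlt
  push Not at hlt
  have h1 := Fit_right hS (show l₀ + 1 ≤ l by omega) (by omega)
  have h2 := hS.right l₀ h
  omega

/-- The upper level set `{l | val l₀ ≤ val l}` is: for `l₀ = p - i`, `i < n`: `[p - i, p]` (use `lo`; if
`p + 1 = L` use `last`), the pattern has the value `ν - i`; for `l₀ = p + 1 < L`: `[p + 1 - n, p + 1]` (use `lo`
and `hi`), value `ν - n`; for `l₀ = p - i`, `i ≥ n`, `p + 1 < L`: `[p - i, p + 1]` (use `hi`, `far`), value
`ν - i - 1`; if `p + 1 = L` then `n = ν` and the value is `0` for `i ≥ n`; for `p + 2 ≤ l₀ < L`: `[0, l₀]`, value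
`ν - l₀`. In each case the interval `[s, t]` satisfies `t + pat l₀ ≤ s + ν`. Monotonicity on both sides of
`p` follows from `left` and `right` by induction. -/
theorem fit {L ν p n c : ℕ} {u : ℕ → ℤ} (h : Adm L ν p n) (hS : Sees L u c p n) {l₀ : ℕ}
    (hl : l₀ < L) (h0 : 0 < pat ν p n l₀) :
    ∃ s, ∀ l, val u c l₀ ≤ val u c l → s ≤ l ∧ l + pat ν p n l₀ ≤ s + ν := by
  have hn1 := h.one
  have hn2 := h.le
  have hn3 := h.lp
  have hpL := h.pL
  unfold pat at h0 ⊢
  by_cases h1 : l₀ ≤ p
  · rw [if_pos h1] at h0 ⊢
    by_cases h2 : p - l₀ < n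
    · rw [if_pos h2] at h0 ⊢
      refine ⟨l₀, fun l hv => ?_⟩
      have h3 := Fit_ge hS h1 hv
      have h4 : l ≤ p := by
        by_contra hlt
        push Not at hlt
        have h5 := Fit_right hS (show p + 1 ≤ l by omega) (by omega)
        by_cases h6 : p + 1 = L
        · have h7 := hS.last h6
          rw [← h6] at h7
          have h8 := Fit_left hS (Nat.zero_le l₀) h1
          omega
        · have h7 := hS.lo (by omega)
          have h8 := Fit_left hS (show p + 1 - n ≤ l₀ by omega) h1
          omega
      omega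
    · rw [if_neg h2] at h0 ⊢
      have h9 : p + 1 < L := by
        rcases Nat.lt_or_ge (p + 1) L with h6 | h6
        · exact h6
        · have h7 := h.last (by omega)
          omega
      refine ⟨l₀, fun l hv => ?_⟩
      have h3 := Fit_ge hS h1 hv
      have h4 : l ≤ p + 1 := by
        by_contra hlt
        push Not at hlt
        have h5 := Fit_right hS (show p + 2 ≤ l by omega) (by omega)
        have h7 := hS.far h9
        have h8 := Fit_left hS (Nat.zero_le l₀) h1
        omega
      omega
  · rw [if_neg h1] at h0 ⊢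
    by_cases h2 : l₀ = p + 1
    · subst h2
      rw [if_pos rfl] at h0 ⊢
      refine ⟨p + 1 - n, fun l hv => ?_⟩
      have h3 := Fit_le hS (by omega) hv
      have h4 : p + 1 - n ≤ l := by
        by_contra hlt
        push Not at hlt
        have h5 := Fit_left hS (show l ≤ p - n by omega) (by omega)
        have h6 := hS.hi hl (by omega)
        omega
      omega
    · rw [if_neg h2] at h0 ⊢
      refine ⟨0, fun l hv => ?_⟩
      have h3 := Fit_le hS (by omega) hv
      omega

end ShghQ
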