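import Pool.Agent.ShghQ.Defs

/-!
# The potential
-/

namespace ShghQ

/-- `G + G² + ⋯ + G^l` -/
def Ord_T (G : ℤ) (l : ℕ) : ℤ := ∑ i ∈ Finset.range l, G ^ (i + 1)

theorem Ord_T_succ (G : ℤ) (l : ℕ) : Ord_T G (l + 1) = Ord_T G l + G ^ (l + 1) :=
  Finset.sum_range_succ _ _

theorem Ord_T_mono {G : ℤ} (hG : 0 ≤ G) {l l' : ℕ} (h : l ≤ l') : Ord_T G l ≤ Ord_T G l' := by
  induction l', h using Nat.le_induction with
  | base => exact le_rfl
  | succ k _ ih =>
    rw [Ord_T_succ]
    have := pow_nonneg hG (k + 1)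
    linarith

theorem Ord_T_zero (G : ℤ) : Ord_T G 0 = 0 := rfl

theorem Ord_T_nonneg {G : ℤ} (hG : 0 ≤ G) (l : ℕ) : 0 ≤ Ord_T G l :=
  (Ord_T_zero G).symm.le.trans (Ord_T_mono hG (Nat.zero_le l))

theorem Ord_T_le {G : ℤ} (hG : 2 ≤ G) (l : ℕ) : Ord_T G l ≤ 2 * G ^ l := by
  induction l with
  | zero => simp [Ord_T]
  | succ l ih =>
    rw [Ord_T_succ]
    have h1 : 0 ≤ G ^ l := pow_nonneg (by linarith) l
    have h2 : G ^ (l + 1) = G * G ^ l := by rw [pow_succ, mul_comm]
    rw [h2]
    nlinarith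

/-- the potential -/
def Ord_u (L : ℕ) (G C : ℤ) (l : ℕ) : ℤ :=
  if l < L then C * l - Ord_T G l else C * ((L - 1 : ℕ) : ℤ) - Ord_T G (L - 1) + 1

theorem Ord_u_lt {L : ℕ} {G C : ℤ} {l : ℕ} (h : l < L) : Ord_u L G C l = C * l - Ord_T G l :=
  if_pos h

theorem Ord_u_ge {L : ℕ} {G C : ℤ} {l : ℕ} (h : L ≤ l) :
    Ord_u L G C l = C * ((L - 1 : ℕ) : ℤ) - Ord_T G (L - 1) + 1 := if_neg (by omega)

/-- Existence of the potential. `u l = C l - (G + ⋯ + G^l)` for `l < L`, and `u l = u (L-1) + 1` for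
`l ≥ L`, with `G = (m+L+4)²` and `C = G^(L+1)`. The exponent of the point with the peak `p` and the
defect `n` is `C - w` with `w = ⌊(G^(p+1) - 1)/n⌋`. -/
theorem exists_ord (L m : ℕ) (hL : 1 ≤ L) :
    ∃ (u : ℕ → ℤ) (c : ℕ → ℕ → ℕ), (∀ l, l < L → u l < u L) ∧ (∀ l, L ≤ l → u l = u L) ∧
      ∀ p n, p < L → 1 ≤ n → n ≤ m → n ≤ p + 1 → Sees L u (c p n) p n := by
  set G₀ : ℕ := (m + L + 4) ^ 2 with hG₀
  set G : ℤ := (G₀ : ℤ) with hG
  have hG16 : 16 ≤ G := by
    rw [hG, hG₀]
    push_cast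
    nlinarith [Int.natCast_nonneg m, Int.natCast_nonneg L]
  have hG0 : 0 ≤ G := by linarith
  have hGL : (L : ℤ) + 3 ≤ G := by
    rw [hG, hG₀]
    push_cast
    nlinarith [Int.natCast_nonneg m, Int.natCast_nonneg L,
      mul_nonneg (Int.natCast_nonneg m) (Int.natCast_nonneg L)]
  have hGn : ∀ n : ℕ, n ≤ m → (n : ℤ) * (n + 4) ≤ G := by
    intro n hn
    have h1 : (n : ℤ) ≤ m := by exact_mod_cast hn
    rw [hG, hG₀]
    push_cast
    nlinarith [Int.natCast_nonneg m, Int.natCast_nonneg L, Int.natCast_nonneg n,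
      mul_nonneg (Int.natCast_nonneg m) (Int.natCast_nonneg L)]
  have hpos : ∀ l : ℕ, 1 ≤ G ^ l := fun l => one_le_pow₀ (by linarith)
  have hmono : ∀ {l l' : ℕ}, l ≤ l' → G ^ l ≤ G ^ l' := fun h =>
    pow_le_pow_right₀ (by linarith) h
  have hsucc : ∀ l : ℕ, G ^ (l + 1) = G * G ^ l := fun l => by rw [pow_succ, mul_comm]
  set C : ℤ := G ^ (L + 1) with hC
  have hCL : (L + 3 : ℤ) * G ^ L ≤ C := by
    rw [hC, hsucc]
    exact mul_le_mul_of_nonneg_right hGL (by linarith [hpos L])
  let w : ℕ → ℕ → ℕ := fun p n => (G₀ ^ (p + 1) - 1) / n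
  refine ⟨Ord_u L G C, fun p n => G₀ ^ (L + 1) - w p n, ?_, ?_, ?_⟩
  · -- `u l < u L`
    intro l hl
    rw [Ord_u_lt hl, Ord_u_ge le_rfl]
    have h1 : ∀ k : ℕ, l + k < L → C * (l : ℤ) - Ord_T G l ≤
        C * ((l + k : ℕ) : ℤ) - Ord_T G (l + k) := by
      intro k
      induction k with
      | zero => intro _; simp
      | succ k ih =>
        intro hk
        refine (ih (by omega)).trans ?_
        rw [← add_assoc, Ord_T_succ]
        have h2 : G ^ (l + k + 1) ≤ C := hmono (by omega)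
        push_cast
        linarith
    have h2 := h1 (L - 1 - l) (by omega)
    have h3 : l + (L - 1 - l) = L - 1 := by omega
    rw [h3] at h2
    linarith
  · intro l hl
    rw [Ord_u_ge hl, Ord_u_ge le_rfl]
  · intro p n hp hn hnm hnp
    have hn0 : (1 : ℤ) ≤ n := by exact_mod_cast hn
    -- the number `w`
    have hw1 : (w p n : ℤ) * n ≤ G ^ (p + 1) - 1 := by
      have h1 : w p n * n ≤ G₀ ^ (p + 1) - 1 := Nat.div_mul_le_self _ _
      have h2 : 1 ≤ G₀ ^ (p + 1) := by
        have := hpos (p + 1)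
        rw [hG] at this
        exact_mod_cast this
      have h3 : w p n * n + 1 ≤ G₀ ^ (p + 1) := by omega
      have h4 : (w p n : ℤ) * n + 1 ≤ G ^ (p + 1) := by
        rw [hG]
        exact_mod_cast h3
      linarith
    have hw2 : G ^ (p + 1) - n ≤ (w p n : ℤ) * n := by
      have h1 : G₀ ^ (p + 1) - 1 < (w p n + 1) * n := by
        have := Nat.lt_div_mul_add (a := G₀ ^ (p + 1) - 1) (b := n) (by omega)
        rw [add_mul, one_mul]
        exact this
      have h3 : G₀ ^ (p + 1) ≤ (w p n + 1) * n := by omega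
      have h4 : G ^ (p + 1) ≤ ((w p n : ℤ) + 1) * n := by
        rw [hG]
        exact_mod_cast h3
      linarith
    have hwnn : (0 : ℤ) ≤ w p n := Int.natCast_nonneg _
    have hwlt : (w p n : ℤ) + 1 ≤ G ^ (p + 1) := by nlinarith
    have hwC : w p n ≤ G₀ ^ (L + 1) := by
      have h1 : (w p n : ℤ) ≤ G ^ (L + 1) := by
        have := hmono (show p + 1 ≤ L + 1 by omega)
        linarith
      rw [hG] at h1
      exact_mod_cast h1
    have hwgt : G ^ p < w p n := by
      have h1 := hGn n hnm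
      have h2 := hpos p
      have h3 : (n : ℤ) * ((n + 4) * G ^ p) ≤ G ^ (p + 1) := by
        rw [hsucc, ← mul_assoc]
        exact mul_le_mul_of_nonneg_right h1 (by linarith)
      have h4 : (n : ℤ) * ((n + 4) * G ^ p - 1) ≤ n * (w p n : ℤ) := by nlinarith
      have h5 : ((n : ℤ) + 4) * G ^ p - 1 ≤ w p n := le_of_mul_le_mul_left h4 (by linarith)
      nlinarith
    have hc : (((G₀ ^ (L + 1) - w p n : ℕ)) : ℤ) = C - w p n := by
      rw [Nat.cast_sub hwC, hC, hG]
      push_cast
      rfl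
    have hval : ∀ l : ℕ, l < L →
        val (Ord_u L G C) (G₀ ^ (L + 1) - w p n) l = (w p n : ℤ) * l - Ord_T G l := by
      intro l hl
      rw [val, Ord_u_lt hl, hc]
      ring
    have hL1 : ((L - 1 : ℕ) : ℤ) = (L : ℤ) - 1 := by
      rw [Nat.cast_sub hL, Nat.cast_one]
    have hvalL : val (Ord_u L G C) (G₀ ^ (L + 1) - w p n) L < 0 := by
      rw [val, Ord_u_ge le_rfl, hc, hL1]
      have h1 := Ord_T_nonneg hG0 (L - 1)
      have h2 := hmono (show p + 1 ≤ L by omega)
      have h3 : (w p n : ℤ) * L ≤ G ^ L * L :=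
        mul_le_mul_of_nonneg_right (by linarith) (Int.natCast_nonneg L)
      have h4 := hpos L
      nlinarith
    have hval0 : val (Ord_u L G C) (G₀ ^ (L + 1) - w p n) 0 = 0 := by
      rw [hval 0 (by omega), Ord_T_zero]
      simp
    refine ⟨?_, ?_, ?_, ?_, ?_, ?_⟩
    · -- left
      intro l hl
      rw [hval l (by omega), hval (l + 1) (by omega), Ord_T_succ]
      have h1 := hmono (show l + 1 ≤ p by omega)
      push_cast
      linarith
    · -- right
      intro l hl
      rcases lt_or_ge (l + 1) L with h | h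
      · rw [hval l (by omega), hval (l + 1) h, Ord_T_succ]
        have h1 := hmono (show p + 1 ≤ l + 1 by omega)
        push_cast
        linarith
      · have hcpos : 1 < C - w p n := by
          have h1 := hmono (show p + 1 ≤ L by omega)
          have h2 := hpos L
          nlinarith [Int.natCast_nonneg L]
        rcases h.eq_or_lt with h | h
        · have hl' : l = L - 1 := by omega
          rw [← h, hl', val, val, Ord_u_ge le_rfl, Ord_u_lt (by omega), hc, hL1]
          linarith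
        · rw [val, val, Ord_u_ge (by omega), Ord_u_ge (by omega), hc]
          push_cast
          linarith
    · -- lo
      intro hp1
      rw [hval (p + 1) hp1, hval (p + 1 - n) (by omega), Ord_T_succ, Nat.cast_sub hnp]
      have h1 := Ord_T_mono hG0 (show p + 1 - n ≤ p by omega)
      push_cast
      nlinarith
    · -- hi
      intro hp1 hnp'
      rw [hval (p + 1) hp1, hval (p - n) (by omega), Ord_T_succ, Nat.cast_sub hnp']
      have h1 := Ord_T_nonneg hG0 (p - n)
      have h2 := Ord_T_le (show 2 ≤ G by linarith) p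
      have h3 := hGn n hnm
      have h4 := hpos p
      have h5 : (n : ℤ) * (n + 4) * G ^ p ≤ G ^ (p + 1) := by
        rw [hsucc]
        exact mul_le_mul_of_nonneg_right h3 (by linarith)
      -- `G^(p+1) + 2 G^p < w (n+1)`
      have h6 : (n : ℤ) * (G ^ (p + 1) + 2 * G ^ p) < n * ((w p n : ℤ) * (n + 1)) := by
        have h7 : (n : ℤ) * (n + 2) ≤ n * (n + 2) * G ^ p := by
          have : (0 : ℤ) ≤ n * (n + 2) := by positivity
          nlinarith
        have h8 : ((n : ℤ) + 1) * (G ^ (p + 1) - n) ≤ (n + 1) * ((w p n : ℤ) * n) :=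
          mul_le_mul_of_nonneg_left hw2 (by linarith)
        nlinarith
      have h9 : G ^ (p + 1) + 2 * G ^ p < (w p n : ℤ) * (n + 1) :=
        lt_of_mul_lt_mul_left h6 (by linarith)
      push_cast
      nlinarith
    · -- far
      intro hp1
      rw [hval0]
      rcases lt_or_ge (p + 2) L with h | h
      · rw [hval (p + 2) h, Ord_T_succ]
        have h1 := Ord_T_nonneg hG0 (p + 1)
        have h2 : ((L : ℤ) + 3) * G ^ (p + 1) ≤ G ^ (p + 1 + 1) := by
          rw [hsucc (p + 1)]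
          exact mul_le_mul_of_nonneg_right hGL (by linarith [hpos (p + 1)])
        have h3 : ((p + 2 : ℕ) : ℤ) ≤ L := by exact_mod_cast h.le
        have h4 : (w p n : ℤ) * ((p + 2 : ℕ) : ℤ) ≤ G ^ (p + 1) * L :=
          mul_le_mul (by linarith) h3 (by positivity) (by linarith [hpos (p + 1)])
        have h5 := hpos (p + 1)
        nlinarith
      · have h1 : p + 2 = L := by omega
        rw [h1]
        exact hvalL
    · -- last
      intro _
      rw [hval0]
      exact hvalL

end ShghQ
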