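import Pool.Agent.ShghQ.Cov
import Pool.Agent.ShghQ.Ord
import Pool.Agent.ShghQ.Fit
import Pool.Agent.ShghQ.Clear
import Pool.Agent.ShghQ.Base

/-!
# The algebraic theorem
-/

namespace ShghQ

open MvPolynomial

/-- `X' = 2μ0² + 2μ0`, `L = δ + 1 - X' ≤ δ`, `δ - L = X' - 1`. `K1 = FractionRing k[ξ]` is infinite. `base` and
`clear` give the base points `Q : B → K1²` (a bijection of `B` with the index type of `base`), `Q b 0 ≠ 0`
(the inclusion of `k[ξ]` in `K1` is injective). `exists_ord L m` gives `u` and `c`; for `i ∈ T` the exponent is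
`c (p i) (n i)`, `y` an injection of `T` into `K1`, `fit` gives `hfit` with `a i = pat (μ i) (p i) (n i)`. Let
`P i` be `(ξ ^ c, C (y i))` for `i ∈ T`, `(C (Q i 0), C (Q i 1))` for `i ∈ B`, arbitrary otherwise, mapped to
`FractionRing K1[ξ]`. `cov` (with the index types `T` and `B`) and `clear` give the claim. -/
theorem alg {k : Type*} [Field k] [Infinite k] {s : ℕ} (μ : Fin s → ℕ) (m δ μ0 : ℕ)
    (hμ : ∀ i, μ i ≤ m) (B T : Finset (Fin s)) (p n : Fin s → ℕ) (hμ0 : 1 ≤ μ0)
    (hBT : Disjoint B T) (hB : B.card = (2 * μ0 + 1) ^ 2 + 1) (hBμ : ∀ i ∈ B, μ i = μ0)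
    (hX : 2 * μ0 ^ 2 + 2 * μ0 < δ + 1)
    (hA : ∀ i ∈ T, Adm (δ + 1 - (2 * μ0 ^ 2 + 2 * μ0)) (μ i) (p i) (n i))
    (hcov : ∀ l, l < δ + 1 - (2 * μ0 ^ 2 + 2 * μ0) →
      δ + 1 ≤ l + ∑ i ∈ T, pat (μ i) (p i) (n i) l) :
    ∃ P : Fin s → Fin 2 → FractionRing (Polynomial (FractionRing (Polynomial k))),
      ∀ f : MvPolynomial (Fin 2) (FractionRing (Polynomial (FractionRing (Polynomial k)))),
        f.totalDegree ≤ δ → (∀ i, f ∈ pt (P i 0) (P i 1) ^ μ i) → f = 0 := by
  classical
  have hX' : 1 ≤ 2 * μ0 ^ 2 + 2 * μ0 := by omega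
  set L := δ + 1 - (2 * μ0 ^ 2 + 2 * μ0) with hLdef
  have hL1 : 1 ≤ L := by omega
  have hLδ : L ≤ δ := by omega
  have hδL : δ - L = 2 * μ0 ^ 2 + 2 * μ0 - 1 := by omega
  -- the base points
  obtain ⟨P₀, hP₀, hbase⟩ := base (K := k) μ0 hμ0
  have hclear := clear P₀ (fun _ => μ0) (2 * μ0 ^ 2 + 2 * μ0 - 1) hbase
  have hcard : Fintype.card B =
      Fintype.card (Option (Fin (2 * μ0 + 1) × Fin (2 * μ0 + 1))) := by
    rw [Fintype.card_coe, hB, Fintype.card_option, Fintype.card_prod, Fintype.card_fin, sq]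
  obtain ⟨e⟩ : Nonempty (B ≃ Option (Fin (2 * μ0 + 1) × Fin (2 * μ0 + 1))) :=
    ⟨Fintype.equivOfCardEq hcard⟩
  let Q : B → Fin 2 → FractionRing (Polynomial k) := fun b j =>
    algebraMap (Polynomial k) (FractionRing (Polynomial k)) (P₀ (e b) j)
  have hinjA : Function.Injective (algebraMap (Polynomial k) (FractionRing (Polynomial k))) :=
    IsFractionRing.injective _ _
  have hQ : ∀ b, Q b 0 ≠ 0 := fun b h0 =>
    hP₀ (e b) ((map_eq_zero_iff _ hinjA).1 h0)
  -- the other points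
  have hinf : Infinite (FractionRing (Polynomial k)) := by
    have hi : Function.Injective
        (fun a : k => algebraMap (Polynomial k) (FractionRing (Polynomial k)) (Polynomial.C a)) :=
      hinjA.comp Polynomial.C_injective
    exact Infinite.of_injective _ hi
  let y : T → FractionRing (Polynomial k) := fun i =>
    Infinite.natEmbedding (FractionRing (Polynomial k)) (i : Fin s).val
  have hy : Function.Injective y := fun i j hij =>
    Subtype.ext (Fin.ext ((Infinite.natEmbedding (FractionRing (Polynomial k))).injective hij))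
  obtain ⟨u, c, hu, huL, hS⟩ := exists_ord L m hL1
  have hcov' := cov (ι := T) (β := B) δ L hLδ (fun i => μ i) (fun i => c (p i) (n i)) y hy u hu huL
    (fun i l => pat (μ i) (p i) (n i) l)
    (fun i l₀ hl h0 => fit (hA i i.2) (hS (p i) (n i) (hA i i.2).pL (hA i i.2).one
      ((hA i i.2).le.trans (hμ i)) (hA i i.2).lp) hl h0)
    (fun l hl => by
      have h1 : ∑ i : T, pat (μ i) (p i) (n i) l = ∑ i ∈ T, pat (μ i) (p i) (n i) l :=
        Finset.sum_coe_sort T fun i => pat (μ i) (p i) (n i) l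
      rw [h1]
      exact hcov l hl)
    Q (fun _ => μ0) hQ
    (fun g hg hgQ => hclear g (by rw [← hδL]; exact hg) (fun i => by
      have h1 := hgQ (e.symm i)
      dsimp only [Q] at h1
      rw [Equiv.apply_symm_apply] at h1
      exact h1))
  -- all points
  let P : Fin s → Fin 2 → Polynomial (FractionRing (Polynomial k)) := fun i j =>
    if h : i ∈ T then (if j = 0 then Polynomial.X ^ c (p i) (n i) else Polynomial.C (y ⟨i, h⟩))
    else if h : i ∈ B then Polynomial.C (Q ⟨i, h⟩ j) else 0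
  have hPT0 : ∀ i : T, P i 0 = Polynomial.X ^ c (p i) (n i) := by
    intro i
    dsimp only [P]
    rw [dif_pos i.2, if_pos rfl]
  have hPT1 : ∀ i : T, P i 1 = Polynomial.C (y i) := by
    intro i
    dsimp only [P]
    rw [dif_pos i.2, if_neg (by decide)]
  have hPB : ∀ (b : B) (j : Fin 2), P b j = Polynomial.C (Q b j) := by
    intro b j
    have h1 : (b : Fin s) ∉ T := fun h => (Finset.disjoint_left.1 hBT) b.2 h
    dsimp only [P]
    rw [dif_neg h1, dif_pos b.2]
  refine ⟨fun i j => algebraMap _ _ (P i j), ?_⟩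
  refine clear P μ δ fun f hf hfP => hcov' f hf (fun i => ?_) (fun b => ?_)
  · have h1 := hfP i
    rw [hPT0, hPT1] at h1
    exact h1
  · have h1 := hfP b
    rw [hPB, hPB, hBμ b b.2] at h1
    exact h1

end ShghQ
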