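import Mathlib

/-!
# Effective Alexander-Hirschowitz theorem for the plane: definitions

See `README.md` for the whole proof.
-/

namespace ShghQ

open MvPolynomial

/-- Triangular numbers `n (n + 1) / 2`. -/
def tri (n : ℕ) : ℕ := (n + 1).choose 2

/-- The pattern with multiplicity `ν`, peak `p` and defect `n`: the order of the columns is
`p, p - 1, ..., p - n + 1, p + 1, p - n, ..., 0, p + 2, p + 3, ...` and the columns get
`ν, ν - 1, ν - 2, ...` (truncated at zero). -/
def pat (ν p n l : ℕ) : ℕ :=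
  if l ≤ p then (if p - l < n then ν - (p - l) else ν - (p - l) - 1)
  else if l = p + 1 then ν - n else ν - l

/-- Admissible parameters in a strip of `L` columns. -/
structure Adm (L ν p n : ℕ) : Prop where
  one : 1 ≤ n
  le : n ≤ ν
  lp : n ≤ p + 1
  pL : p < L
  last : p + 1 = L → n = ν

/-- State of the filling (first phase): `D` demands, `F` filled part, the columns `> q` are full, the
multiplicities are at most `M ≤ m`. -/
structure Reg (m L : ℕ) (D F : ℕ → ℕ) (M q : ℕ) : Prop where
  q_lt : q < L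
  full : ∀ l, q < l → l < L → F l = D l
  le : ∀ l, l ≤ q → F l ≤ D l
  steep : ∀ l, l < q → F (l + 1) + M * F l ≤ M * F (l + 1)
  supp : ∀ l, l + m ≤ q → F l = 0

/-- State of the closing phase. The columns `≥ x` are decided. `ρ` points of multiplicity `μ` remain
(they have peaks `< x`); `e` is the list of the defects of those which have the peak `x - 1` and are
exchanged at the column `x`. -/
structure Clo (m μ q0 : ℕ) (D F : ℕ → ℕ) (ρ : ℤ) (x : ℕ) (e : List ℕ) : Prop where
  x_pos : 1 ≤ x
  x_le : x ≤ q0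
  e_len : e.length ≤ 2
  e_bd : ∀ g ∈ e, 1 ≤ g ∧ g + 1 ≤ min μ x ∧ 2 * g ≤ x
  full : ∀ l, x < l → l ≤ q0 → (F l : ℤ) + ((μ - l : ℕ) : ℤ) * ρ = D l
  col : (F x : ℤ) + ((μ - x : ℕ) : ℤ) * ρ + (e.map fun g => ((min μ x - g : ℕ) : ℤ)).sum = D x
  steep : ∀ l, l < x → F (l + 1) + m * F l ≤ m * F (l + 1)
  conc : ∀ z y, 1 ≤ z → z < y → y ≤ μ → y ≤ x →
    16 * ((y + μ - max x (z + μ) : ℕ) : ℤ) - 2 * ((2 * z - x : ℕ) : ℤ) ≤
      ((F y : ℤ) - F (y - 1)) - ((F z : ℤ) - F (z - 1))
  total : ∑ l ∈ Finset.range (q0 + 1), (F l : ℤ) + ρ * tri μ =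
    ∑ l ∈ Finset.range (q0 + 1), (D l : ℤ)

/-- The filled part belonging to a set of points. -/
def fillOf {s : ℕ} (S : Finset (Fin s)) (μ p n : Fin s → ℕ) (l : ℕ) : ℕ :=
  ∑ i ∈ S, pat (μ i) (p i) (n i) l

/-- The maximal ideal of the point `(a, b)`. -/
noncomputable def pt {A : Type*} [CommRing A] (a b : A) : Ideal (MvPolynomial (Fin 2) A) :=
  Ideal.span {X 0 - C a, X 1 - C b}

/-- The exponent of `x ^ l y ^ j`. -/
noncomputable def ex (l j : ℕ) : Fin 2 →₀ ℕ := Finsupp.single 0 l + Finsupp.single 1 j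

/-- The coefficient of `ξ ^ n x ^ l`, a polynomial in `y`. -/
noncomputable def colp {K : Type*} [Field K] (f : MvPolynomial (Fin 2) (Polynomial K)) (n l : ℕ) :
    Polynomial K :=
  ∑ j ∈ Finset.range (f.totalDegree + 1), Polynomial.monomial j ((f.coeff (ex l j)).coeff n)

/-- The value of the column `l` for the potential `u` and the exponent `c`. -/
def val (u : ℕ → ℤ) (c l : ℕ) : ℤ := u l - (c : ℤ) * (l : ℤ)

/-- The point with the exponent `c` sees the columns of a strip of `L` columns in the order of the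
pattern with the peak `p` and the defect `n`. -/
structure Sees (L : ℕ) (u : ℕ → ℤ) (c p n : ℕ) : Prop where
  left : ∀ l, l < p → val u c l < val u c (l + 1)
  right : ∀ l, p ≤ l → val u c (l + 1) < val u c l
  lo : p + 1 < L → val u c (p + 1) < val u c (p + 1 - n)
  hi : p + 1 < L → n ≤ p → val u c (p - n) < val u c (p + 1)
  far : p + 1 < L → val u c (p + 2) < val u c 0
  last : p + 1 = L → val u c L < val u c 0

/-- The line `y = α x - α²` (tangent of a parabola). -/
noncomputable def lam {A : Type*} [CommRing A] (α : A) : MvPolynomial (Fin 2) A :=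
  X 1 - C α * X 0 + C (α ^ 2)

/-- Restriction to the line `y = α x - α²`. -/
noncomputable def rho {A : Type*} [CommRing A] (α : A) :
    MvPolynomial (Fin 2) A →ₐ[A] Polynomial A :=
  aeval ![Polynomial.X, Polynomial.C α * Polynomial.X - Polynomial.C (α ^ 2)]

end ShghQ
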