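import Pool.Agent.ShghQ.Defs
import Pool.Agent.ShghE.Transfer

/-!
# Multiplicities over a domain
-/

namespace ShghQ

open MvPolynomial

variable {A : Type*} [CommRing A]

/-- After the translation by `(a, b)` the `m`-th power of the ideal consists of the polynomials whose
coefficients of degree `< m` vanish (this is `ShghE.tf_mem_iff`, `ShghE/Transfer.lean`). -/
theorem mem_pt_iff (a b : A) (m : ℕ) (f : MvPolynomial (Fin 2) A) :
    f ∈ pt a b ^ m ↔ ∀ x : Fin 2 →₀ ℕ, x.degree < m →
      (aeval (![X 0 + C a, X 1 + C b] : Fin 2 → MvPolynomial (Fin 2) A) f).coeff x = 0 :=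
  ShghE.tf_mem_iff a b m f

/-- `f` lies in the ideal of the point iff it vanishes there. -/
theorem mem_pt_one_iff (a b : A) (f : MvPolynomial (Fin 2) A) :
    f ∈ pt a b ^ 1 ↔ eval ![a, b] f = 0 := by
  have key : (aeval (![X 0 + C a, X 1 + C b] : Fin 2 → MvPolynomial (Fin 2) A) f).coeff 0 =
      eval ![a, b] f := by
    have h : (constantCoeff (σ := Fin 2) (R := A)).comp
        (aeval (![X 0 + C a, X 1 + C b] : Fin 2 → MvPolynomial (Fin 2) A)).toRingHom =
        eval ![a, b] := by
      apply MvPolynomial.ringHom_ext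
      · intro r
        simp
      · intro i
        fin_cases i <;> simp
    have h1 := RingHom.congr_fun h f
    rw [← h1]
    rfl
  rw [mem_pt_iff]
  constructor
  · intro h
    rw [← key]
    exact h 0 (by simp)
  · intro h x hx
    have hx0 : x = 0 := by
      rw [← Finsupp.degree_eq_zero_iff]
      omega
    rw [hx0, key, h]

theorem pt_mono (a b : A) {r n : ℕ} (h : r ≤ n) {f : MvPolynomial (Fin 2) A}
    (hf : f ∈ pt a b ^ n) : f ∈ pt a b ^ r :=
  Ideal.pow_le_pow_right h hf

theorem Colon_shift_degree (a b : A) (f : MvPolynomial (Fin 2) A) :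
    (ShghE.tfShift a b f).totalDegree ≤ f.totalDegree := by
  have hX : ∀ i : Fin 2, ((![X 0 + C a, X 1 + C b] : Fin 2 → MvPolynomial (Fin 2) A) i).totalDegree
      ≤ 1 := by
    intro i
    have h : ∀ (j : Fin 2) (c : A), (X j + C c : MvPolynomial (Fin 2) A).totalDegree ≤ 1 := by
      intro j c
      refine (totalDegree_add _ _).trans (max_le ?_ ?_)
      · rw [X]
        refine (totalDegree_monomial_le _ _).trans ?_
        simp
      · rw [totalDegree_C]
        exact Nat.zero_le _
    fin_cases i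
    · exact h 0 a
    · exact h 1 b
  unfold ShghE.tfShift
  rw [aeval_def, eval₂_eq']
  refine totalDegree_finsetSum_le fun e he => ?_
  refine (totalDegree_mul _ _).trans ?_
  have h1 : ((algebraMap A (MvPolynomial (Fin 2) A)) (coeff e f)).totalDegree = 0 := totalDegree_C _
  rw [h1, zero_add]
  refine (totalDegree_finsetProd _ _).trans ?_
  refine le_trans (Finset.sum_le_sum fun i _ => (totalDegree_pow _ _).trans
    (Nat.mul_le_mul_left _ (hX i))) ?_
  simp only [mul_one]
  have h2 := le_totalDegree he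
  rwa [Finsupp.sum_fintype _ _ (fun _ => rfl)] at h2

/-- A polynomial of degree `< m` in the `m`-th power vanishes. -/
theorem eq_zero_of_degree_lt (a b : A) {m : ℕ} {f : MvPolynomial (Fin 2) A}
    (hf : f ∈ pt a b ^ m) (hdeg : f.totalDegree < m) : f = 0 := by
  have h := (mem_pt_iff a b m f).1 hf
  have h0 : ShghE.tfShift a b f = 0 := by
    ext x
    rw [coeff_zero]
    rcases Nat.lt_or_ge x.degree m with hx | hx
    · exact h x hx
    · refine coeff_eq_zero_of_totalDegree_lt (lt_of_lt_of_le
        (lt_of_le_of_lt (Colon_shift_degree a b f) hdeg) ?_)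
      exact hx
  rw [← ShghE.tfShift_neg a b f, h0, map_zero]

/-- Base change. -/
theorem map_mem_pt {B : Type*} [CommRing B] (φ : A →+* B) (a b : A) (m : ℕ)
    {f : MvPolynomial (Fin 2) A} (hf : f ∈ pt a b ^ m) :
    MvPolynomial.map φ f ∈ pt (φ a) (φ b) ^ m := by
  have h1 := Ideal.mem_map_of_mem (MvPolynomial.map φ) hf
  rw [Ideal.map_pow] at h1
  refine Ideal.pow_right_mono ?_ m h1
  unfold pt
  rw [Ideal.map_span, Ideal.span_le]
  rintro _ ⟨g, hg, rfl⟩
  rcases hg with rfl | rfl
  · rw [map_sub, map_X, map_C]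
    exact Ideal.subset_span (Or.inl rfl)
  · rw [map_sub, map_X, map_C]
    exact Ideal.subset_span (Or.inr rfl)

theorem Colon_shift_map {B : Type*} [CommRing B] (φ : A →+* B) (a b : A)
    (f : MvPolynomial (Fin 2) A) :
    ShghE.tfShift (φ a) (φ b) (MvPolynomial.map φ f) =
      MvPolynomial.map φ (ShghE.tfShift a b f) := by
  have h : (ShghE.tfShift (φ a) (φ b)).toRingHom.comp (MvPolynomial.map φ) =
      (MvPolynomial.map φ).comp (ShghE.tfShift a b).toRingHom := by
    apply MvPolynomial.ringHom_ext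
    · intro r
      simp [ShghE.tfShift]
    · intro i
      fin_cases i <;> simp [ShghE.tfShift]
  exact RingHom.congr_fun h f

theorem mem_pt_of_map {B : Type*} [CommRing B] (φ : A →+* B) (hφ : Function.Injective φ) (a b : A)
    (m : ℕ) {f : MvPolynomial (Fin 2) A} (hf : MvPolynomial.map φ f ∈ pt (φ a) (φ b) ^ m) :
    f ∈ pt a b ^ m := by
  rw [mem_pt_iff] at hf ⊢
  intro x hx
  have h : (ShghE.tfShift (φ a) (φ b) (MvPolynomial.map φ f)).coeff x = 0 := hf x hx
  rw [Colon_shift_map, coeff_map] at h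
  have h1 : (ShghE.tfShift a b f).coeff x = 0 := hφ (by rw [h, map_zero])
  exact h1

theorem Colon_mem_iff_order (a b : A) (m : ℕ) (f : MvPolynomial (Fin 2) A) :
    f ∈ pt a b ^ m ↔
      (m : ℕ∞) ≤ (ShghE.tfShift a b f : MvPowerSeries (Fin 2) A).order := by
  rw [mem_pt_iff]
  constructor
  · intro h
    refine MvPowerSeries.nat_le_order fun d hd => ?_
    rw [MvPolynomial.coeff_coe]
    exact h d hd
  · intro h x hx
    have h1 : MvPowerSeries.coeff x (ShghE.tfShift a b f : MvPowerSeries (Fin 2) A) = 0 :=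
      MvPowerSeries.coeff_of_lt_order (lt_of_lt_of_le (by exact_mod_cast hx) h)
    rw [MvPolynomial.coeff_coe] at h1
    exact h1

variable [IsDomain A]

/-- Multiplicities are additive over a domain. After the translation: the order (least degree of a
nonzero coefficient) is additive; for example pass to `MvPowerSeries` and use `MvPowerSeries.order_mul`
(or compare the lowest homogeneous components). -/
theorem colon (a b : A) (g h : MvPolynomial (Fin 2) A) (r n : ℕ) (hg : g ∉ pt a b ^ (r + 1))
    (hgh : g * h ∈ pt a b ^ (n + r)) : h ∈ pt a b ^ n := by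
  rw [Colon_mem_iff_order] at hg hgh ⊢
  rw [map_mul, MvPolynomial.coe_mul, MvPowerSeries.order_mul] at hgh
  push Not at hg
  have h1 : (ShghE.tfShift a b g : MvPowerSeries (Fin 2) A).order ≤ (r : ℕ∞) := by
    refine ENat.lt_add_one_iff (ENat.natCast_ne_top r) |>.1 ?_
    simpa using hg
  have h2 : ((n + r : ℕ) : ℕ∞) ≤ (r : ℕ∞) + (ShghE.tfShift a b h : MvPowerSeries (Fin 2) A).order :=
    hgh.trans (by gcongr)
  rw [Nat.cast_add, add_comm (r : ℕ∞)] at h2
  exact (ENat.add_le_add_iff_right (ENat.natCast_ne_top r)).1 h2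

/-- The case `r = 0`. -/
theorem colon_zero (a b : A) (g h : MvPolynomial (Fin 2) A) (n : ℕ) (hg : eval ![a, b] g ≠ 0)
    (hgh : g * h ∈ pt a b ^ n) : h ∈ pt a b ^ n :=
  colon a b g h 0 n (fun hh => hg ((mem_pt_one_iff a b g).1 hh)) hgh

end ShghQ
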