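import Pool.Agent.ShghQ.Alg
import Pool.Agent.ShghQ.Comb
import Pool.Agent.ShghT.SemiB

/-!
# Existence of a good configuration
-/

namespace ShghQ

open MvPolynomial

/-- `comb` with `X = δ + 1`, and `alg`. -/
theorem exists_config {k : Type*} [Field k] [Infinite k] {s : ℕ} (μ : Fin s → ℕ) (m κ δ : ℕ)
    (hm : 1 ≤ m) (hμ : ∀ i, μ i ≤ m) (hκ : ((Finset.univ.image μ).erase 0).card ≤ κ)
    (hδ : 2500 * κ * m ^ 4 ≤ (δ + 1) ^ 2) (hcov : tri (δ + 1) ≤ ∑ i, tri (μ i)) :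
    ∃ P : Fin s → Fin 2 → FractionRing (Polynomial (FractionRing (Polynomial k))),
      ∀ f ∈ ShghT.LS δ μ P, f = 0 := by
  obtain ⟨μ0, B, T, p, n, hμ0, -, hBT, hB, hBμ, hX, hA, hc⟩ :=
    comb μ m κ (δ + 1) hm (Nat.succ_pos δ) hμ hκ hδ hcov
  obtain ⟨P, hP⟩ := alg (k := k) μ m δ μ0 hμ B T p n hμ0 hBT hB hBμ hX hA hc
  exact ⟨P, fun f hf => hP f hf.1 hf.2⟩

end ShghQ
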