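import Pool.Agent.ShghQ.Defs

/-!
# Elementary properties of the patterns

All of them follow by unfolding `pat`, `split_ifs` and `omega` (or `nlinarith` for `pat_steep`), except
`sum_pat`.
-/

namespace ShghQ

theorem two_mul_tri (n : ℕ) : 2 * tri n = n * (n + 1) := by
  rw [tri, Nat.choose_two_right, Nat.mul_div_cancel' (Nat.even_mul_pred_self (n + 1)).two_dvd,
    Nat.add_sub_cancel, mul_comm]

theorem tri_succ (n : ℕ) : tri (n + 1) = tri n + (n + 1) := by
  have h1 := two_mul_tri n
  have h2 := two_mul_tri (n + 1)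
  nlinarith

theorem tri_mono {a b : ℕ} (h : a ≤ b) : tri a ≤ tri b :=
  Nat.choose_le_choose 2 (Nat.succ_le_succ h)

theorem pat_le (ν p n l : ℕ) : pat ν p n l ≤ ν := by
  unfold pat
  split_ifs <;> omega

theorem pat_zero {ν p n l : ℕ} (hn : n ≤ ν) (h : l + ν ≤ p) : pat ν p n l = 0 := by
  unfold pat
  split_ifs <;> omega

theorem pat_mono {ν p n l : ℕ} (h : l < p) : pat ν p n l ≤ pat ν p n (l + 1) := by
  unfold pat
  split_ifs <;> omega

theorem pat_succ {ν p n l : ℕ} (h : l < p) (h0 : 0 < pat ν p n (l + 1)) :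
    pat ν p n l + 1 ≤ pat ν p n (l + 1) := by
  unfold pat at h0 ⊢
  split_ifs at h0 ⊢ <;> omega

theorem pat_skip {ν p n l : ℕ} (h : l < p) :
    pat ν p n (l + 1) ≤ pat ν p n l + 1 + (if l + 1 + n = p + 1 then 1 else 0) := by
  unfold pat
  split_ifs <;> omega

theorem pat_noskip {ν p l : ℕ} (h : l < p) : pat ν p ν (l + 1) ≤ pat ν p ν l + 1 := by
  unfold pat
  split_ifs <;> omega

theorem pat_steep {ν p n l M : ℕ} (hM : ν ≤ M) (h : l < p) :
    pat ν p n (l + 1) + M * pat ν p n l ≤ M * pat ν p n (l + 1) := by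
  rcases Nat.eq_zero_or_pos (pat ν p n (l + 1)) with h0 | h0
  · have h1 := pat_mono (ν := ν) (n := n) h
    rw [h0] at h1 ⊢
    have h2 : pat ν p n l = 0 := by omega
    rw [h2]
    simp
  · have h1 := pat_succ h h0
    have h2 := pat_le ν p n (l + 1)
    calc pat ν p n (l + 1) + M * pat ν p n l ≤ M + M * pat ν p n l :=
          Nat.add_le_add_right (h2.trans hM) _
      _ = M * (pat ν p n l + 1) := by ring
      _ ≤ M * pat ν p n (l + 1) := Nat.mul_le_mul_left _ h1

theorem Pat_sum (ν L : ℕ) (h : ν ≤ L) : ∑ k ∈ Finset.range L, (ν - k) = tri ν := by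
  induction ν generalizing L with
  | zero =>
    rw [Finset.sum_eq_zero fun k _ => Nat.zero_sub k]
    rfl
  | succ ν ih =>
    obtain ⟨L, rfl⟩ : ∃ L', L = L' + 1 := ⟨L - 1, by omega⟩
    rw [Finset.sum_range_succ', tri_succ, ← ih L (by omega), Nat.sub_zero]
    congr 1
    exact Finset.sum_congr rfl fun k _ => by omega

theorem Pat_skip_sum (f : ℕ → ℕ) (n m : ℕ) (h : n ≤ m) :
    ∑ k ∈ Finset.range m, (if k < n then f k else f (k + 1)) + f n =
      ∑ k ∈ Finset.range (m + 1), f k := by
  induction m, h using Nat.le_induction with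
  | base =>
    rw [Finset.sum_range_succ]
    congr 1
    exact Finset.sum_congr rfl fun k hk => if_pos (Finset.mem_range.1 hk)
  | succ m hm ih =>
    rw [Finset.sum_range_succ, Finset.sum_range_succ _ (m + 1), ← ih, if_neg (by omega)]
    ring

/-- The values `ν, ν - 1, ..., 1` are taken once each. For `ν ≤ p`: the columns `p, p - 1, ..., 0` give
`ν, ..., ν - n + 1, ν - n - 1, ..., 1`, the column `p + 1` gives `ν - n`, the others nothing. For
`p < ν`: the columns `p, ..., 0` give `ν, ..., ν - n + 1, ν - n - 1, ..., ν - p - 1`, the column `p + 1`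
gives `ν - n` and the columns `p + 2, ..., ν - 1` give `ν - p - 2, ..., 1`. If `p + 1 = L` then `n = ν` and
there is no column `p + 1`. (For example by induction on `ν` or by splitting `range L`.) -/
theorem sum_pat {L ν p n : ℕ} (h : Adm L ν p n) (hL : ν ≤ L) :
    ∑ l ∈ Finset.range L, pat ν p n l = tri ν := by
  have hrefl : ∑ l ∈ Finset.range (p + 1), pat ν p n l =
      ∑ k ∈ Finset.range (p + 1), (if k < n then ν - k else ν - (k + 1)) := by
    rw [← Finset.sum_range_reflect]
    refine Finset.sum_congr rfl fun k hk => ?_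
    have hk' := Finset.mem_range.1 hk
    unfold pat
    have e : p + 1 - 1 - k = p - k := by omega
    rw [e, if_pos (by omega)]
    have e2 : p - (p - k) = k := by omega
    rw [e2]
    split_ifs <;> omega
  have hp := h.pL
  rcases Nat.eq_or_lt_of_le (Nat.succ_le_of_lt hp) with h1 | h1
  · have hn := h.last h1
    rw [← h1, Nat.succ_eq_add_one, hrefl, ← Pat_sum ν (p + 1) (by omega)]
    refine Finset.sum_congr rfl fun k _ => ?_
    split_ifs <;> omega
  · obtain ⟨c, hc⟩ : ∃ c, L = (p + 2) + c := ⟨L - (p + 2), by omega⟩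
    rw [← Pat_sum ν L hL, hc, Finset.sum_range_add _ (p + 2) c, Finset.sum_range_add _ (p + 2) c]
    congr 1
    · rw [Finset.sum_range_succ, hrefl, ← Pat_skip_sum _ n (p + 1) h.lp]
      congr 1
      unfold pat
      rw [if_neg (by omega), if_pos rfl]
    · refine Finset.sum_congr rfl fun k _ => ?_
      unfold pat
      rw [if_neg (by omega), if_neg (by omega)]

end ShghQ
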