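import Pool.Agent.ShghQ.Defs

/-!
# The exact homogeneous class `(2μ²+2μ-1; μ^((2μ+1)²+1))`

`k = 2μ + 1` lines `y = α_j x - α_j²`; on the line `j` there are `k` points with the abscissas `xx j r`: for
`r < μ` it is `α_j + α_i + ξ`, close to the node of the lines `j` and `i = j + r + 1` (`j → i` in a regular
tournament), for `r ≥ μ` it is a constant `t j r`.
-/

namespace ShghQ

open MvPolynomial

variable {K : Type*} [Field K]

/-- The abscissas. -/
noncomputable def xx {μ : ℕ} (α : Fin (2 * μ + 1) → K)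
    (t : Fin (2 * μ + 1) → Fin (2 * μ + 1) → K) (j r : Fin (2 * μ + 1)) : Polynomial K :=
  if r.val < μ then Polynomial.C (α j + α (j + r + 1)) + Polynomial.X else Polynomial.C (t j r)

theorem Arcs_val_one {μ : ℕ} (hμ : 0 < μ) : (1 : Fin (2 * μ + 1)).val = 1 := by
  rw [Fin.val_one']
  exact Nat.mod_eq_of_lt (by omega)

theorem Arcs_val_add {μ : ℕ} (r : Fin (2 * μ + 1)) (hr : r.val < μ) :
    (r + 1).val = r.val + 1 := by
  have h1 : (1 : Fin (2 * μ + 1)).val = 1 := Arcs_val_one (by omega)
  rw [Fin.val_add_eq_of_add_lt (by rw [h1]; omega), h1]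

/-- The arcs of the regular tournament: each vertex has `μ` predecessors, and there are no arcs in both
directions. -/
theorem arcs_card (μ : ℕ) (i : Fin (2 * μ + 1)) :
    ∃ S : Finset (Fin (2 * μ + 1)), S.card = μ ∧
      ∀ j ∈ S, j ≠ i ∧ ∃ r : Fin (2 * μ + 1), r.val < μ ∧ i = j + r + 1 := by
  refine ⟨(Finset.univ.filter fun r : Fin (2 * μ + 1) => r.val < μ).image fun r => i - (r + 1),
    ?_, ?_⟩
  · rw [Finset.card_image_of_injective]
    · have h1 : (Finset.univ.filter fun r : Fin (2 * μ + 1) => r.val < μ) =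
          (Finset.range μ).attachFin (fun r hr => by
            rw [Finset.mem_range] at hr
            omega) := by
        ext r
        simp
      rw [h1, Finset.card_attachFin, Finset.card_range]
    · intro r r' h
      have h1 : i - (r + 1) = i - (r' + 1) := h
      exact add_right_cancel (sub_right_injective h1)
  · intro j hj
    obtain ⟨r, hr, rfl⟩ := Finset.mem_image.1 hj
    rw [Finset.mem_filter] at hr
    refine ⟨?_, r, hr.2, ?_⟩
    · intro h
      have h1 : r + 1 = 0 := by
        rw [sub_eq_self] at h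
        exact h
      have h2 := Arcs_val_add r hr.2
      rw [h1] at h2
      simp at h2
    · rw [add_assoc, sub_add_cancel]

theorem arcs_asymm (μ : ℕ) (i j : Fin (2 * μ + 1))
    (h : ∃ r : Fin (2 * μ + 1), r.val < μ ∧ i = j + r + 1) :
    ¬ ∃ r : Fin (2 * μ + 1), r.val < μ ∧ j = i + r + 1 := by
  obtain ⟨r, hr, hi⟩ := h
  rintro ⟨r', hr', hj⟩
  have h1 : (r + 1) + (r' + 1) = 0 := by
    have h2 : j + ((r + 1) + (r' + 1)) = j := by
      calc j + ((r + 1) + (r' + 1)) = (j + r + 1) + r' + 1 := by
            simp only [add_assoc]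
        _ = j := by rw [← hi, ← hj]
    exact left_eq_add.1 h2.symm
  have h3 := Arcs_val_add r hr
  have h4 := Arcs_val_add r' hr'
  have h5 : ((r + 1) + (r' + 1)).val = r.val + 1 + (r'.val + 1) := by
    rw [Fin.val_add_eq_of_add_lt (by rw [h3, h4]; omega), h3, h4]
  rw [h1] at h5
  simp at h5

end ShghQ
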