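import Pool.Agent.ShghQ.Colon

/-!
# Restriction to the lines `y = α x - α²`
-/

namespace ShghQ

open MvPolynomial

variable {A : Type*} [CommRing A]

theorem Line_rho_X0 (α : A) : rho α (X 0) = Polynomial.X := by
  simp [rho]

theorem Line_rho_X1 (α : A) :
    rho α (X 1) = Polynomial.C α * Polynomial.X - Polynomial.C (α ^ 2) := by
  simp [rho]

theorem Line_rho_C (α c : A) : rho α (C c) = Polynomial.C c := by
  simp [rho]

theorem rho_mem (α x : A) (b : ℕ) (f : MvPolynomial (Fin 2) A)
    (hf : f ∈ pt x (α * x - α ^ 2) ^ b) :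
    (Polynomial.X - Polynomial.C x) ^ b ∣ rho α f := by
  have h1 := Ideal.mem_map_of_mem (rho α) hf
  rw [Ideal.map_pow] at h1
  rw [← Ideal.mem_span_singleton, ← Ideal.span_singleton_pow]
  refine Ideal.pow_right_mono ?_ b h1
  unfold pt
  rw [Ideal.map_span, Ideal.span_le]
  rintro _ ⟨g, hg, rfl⟩
  rcases hg with rfl | rfl
  · rw [map_sub, Line_rho_X0, Line_rho_C]
    exact Ideal.mem_span_singleton_self _
  · rw [map_sub, Line_rho_X1, Line_rho_C, SetLike.mem_coe, Ideal.mem_span_singleton]
    refine ⟨Polynomial.C α, ?_⟩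
    simp only [map_sub, map_mul, map_pow]
    ring

theorem natDegree_rho (α : A) (f : MvPolynomial (Fin 2) A) :
    (rho α f).natDegree ≤ f.totalDegree := by
  unfold rho
  rw [aeval_def, eval₂_eq']
  refine Polynomial.natDegree_sum_le_of_forall_le _ _ fun e he => ?_
  refine Polynomial.natDegree_mul_le.trans ?_
  have h1 : ((algebraMap A (Polynomial A)) (coeff e f)).natDegree = 0 := Polynomial.natDegree_C _
  rw [h1, zero_add, Fin.prod_univ_two]
  refine Polynomial.natDegree_mul_le.trans ?_
  have h2 := le_totalDegree he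
  rw [Finsupp.sum_fintype _ _ (fun _ => rfl), Fin.sum_univ_two] at h2
  refine le_trans (add_le_add ?_ ?_) h2
  · refine Polynomial.natDegree_pow_le.trans ?_
    have : ((![Polynomial.X, Polynomial.C α * Polynomial.X - Polynomial.C (α ^ 2)] :
        Fin 2 → Polynomial A) 0).natDegree ≤ 1 := Polynomial.natDegree_X_le
    calc _ ≤ e 0 * 1 := Nat.mul_le_mul_left _ this
      _ = e 0 := mul_one _
  · refine Polynomial.natDegree_pow_le.trans ?_
    have : ((![Polynomial.X, Polynomial.C α * Polynomial.X - Polynomial.C (α ^ 2)] :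
        Fin 2 → Polynomial A) 1).natDegree ≤ 1 := by
      change (Polynomial.C α * Polynomial.X - Polynomial.C (α ^ 2)).natDegree ≤ 1
      refine (Polynomial.natDegree_sub_le _ _).trans (max_le ?_ ?_)
      · exact (Polynomial.natDegree_C_mul_le _ _).trans Polynomial.natDegree_X_le
      · rw [Polynomial.natDegree_C]
        exact Nat.zero_le _
    calc _ ≤ e 1 * 1 := Nat.mul_le_mul_left _ this
      _ = e 1 := mul_one _

/-- The lines `α` and `β` meet in the point `(α + β, α β)`. -/
theorem eval_rho (α β : A) (f : MvPolynomial (Fin 2) A) :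
    (rho α f).eval (α + β) = eval ![α + β, α * β] f := by
  have h : (Polynomial.evalRingHom (α + β)).comp (rho α).toRingHom = eval ![α + β, α * β] := by
    apply MvPolynomial.ringHom_ext
    · intro r
      simp [rho]
    · intro i
      fin_cases i
      · simp [rho]
      · simp [rho]
        ring
  exact RingHom.congr_fun h f

/-- `f` is congruent to `f(x, α x - α²)` modulo `lam α`. -/
theorem lam_dvd (α : A) (f : MvPolynomial (Fin 2) A) (hf : rho α f = 0) : lam α ∣ f := by
  let I : Ideal (MvPolynomial (Fin 2) A) := Ideal.span {lam α}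
  let t : Polynomial A →ₐ[A] MvPolynomial (Fin 2) A := Polynomial.aeval (X 0)
  have h : ((Ideal.Quotient.mkₐ A I).comp t).comp (rho α) = Ideal.Quotient.mkₐ A I := by
    apply MvPolynomial.algHom_ext
    intro i
    fin_cases i
    · change Ideal.Quotient.mkₐ A I (t (rho α (X 0))) = Ideal.Quotient.mkₐ A I (X 0)
      rw [Line_rho_X0]
      simp [t]
    · change Ideal.Quotient.mkₐ A I (t (rho α (X 1))) = Ideal.Quotient.mkₐ A I (X 1)
      rw [Line_rho_X1, Ideal.Quotient.mkₐ_eq_mk, Ideal.Quotient.eq, Ideal.mem_span_singleton]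
      refine ⟨-1, ?_⟩
      simp only [t, map_sub, map_mul, Polynomial.aeval_X, Polynomial.aeval_C, lam,
        MvPolynomial.algebraMap_eq]
      ring
  have h2 := AlgHom.congr_fun h f
  change Ideal.Quotient.mkₐ A I (t (rho α f)) = Ideal.Quotient.mkₐ A I f at h2
  rw [hf, map_zero, map_zero] at h2
  rw [← Ideal.mem_span_singleton]
  exact Ideal.Quotient.eq_zero_iff_mem.1 h2.symm

theorem rho_lam (α β : A) :
    rho α (lam β) = Polynomial.C (α - β) * (Polynomial.X - Polynomial.C (α + β)) := by
  rw [lam, map_add, map_sub, map_mul, Line_rho_X0, Line_rho_X1, Line_rho_C, Line_rho_C]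
  simp only [map_sub, map_add, map_pow]
  ring

theorem eval_lam (α β x : A) : eval ![x, α * x - α ^ 2] (lam β) = (α - β) * (x - (α + β)) := by
  simp [lam]
  ring

theorem Line_coeff_lam (α : A) : (lam α).coeff (Finsupp.single 1 1) = 1 := by
  classical
  have h1 : (X 1 : MvPolynomial (Fin 2) A).coeff (Finsupp.single 1 1) = 1 := by
    rw [coeff_X, if_pos rfl]
  have h2 : (C α * X 0 : MvPolynomial (Fin 2) A).coeff (Finsupp.single 1 1) = 0 := by
    rw [coeff_C_mul, coeff_X, if_neg, mul_zero]
    intro h
    have := DFunLike.congr_fun h 0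
    simp at this
  have h3 : (C (α ^ 2) : MvPolynomial (Fin 2) A).coeff (Finsupp.single 1 1) = 0 := by
    rw [coeff_C, if_neg]
    intro h
    have := DFunLike.congr_fun h 1
    simp at this
  rw [lam, coeff_add, coeff_sub, h1, h2, h3]
  ring

theorem totalDegree_lam [Nontrivial A] (α : A) : (lam α).totalDegree = 1 := by
  apply le_antisymm
  · have hC : ∀ c : A, (C c : MvPolynomial (Fin 2) A).totalDegree ≤ 1 := by
      intro c
      rw [totalDegree_C]
      exact Nat.zero_le _
    unfold lam
    refine (totalDegree_add _ _).trans (max_le ?_ (hC _))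
    refine (totalDegree_sub _ _).trans (max_le ?_ ?_)
    · exact (totalDegree_X _).le
    · refine (totalDegree_mul _ _).trans ?_
      rw [totalDegree_C, totalDegree_X]
  · have h : (Finsupp.single 1 1 : Fin 2 →₀ ℕ) ∈ (lam α).support := by
      rw [mem_support_iff, Line_coeff_lam]
      exact one_ne_zero
    have h1 := le_totalDegree h
    simpa using h1

/-- The coefficient of `y` is one. -/
theorem lam_not_mem [Nontrivial A] (α a b : A) : lam α ∉ pt a b ^ 2 := by
  classical
  intro h
  have h1 := (mem_pt_iff a b 2 _).1 h (Finsupp.single 1 1) (by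
    rw [Finsupp.degree_single]
    norm_num)
  have h2 : aeval (![X 0 + C a, X 1 + C b] : Fin 2 → MvPolynomial (Fin 2) A) (lam α) =
      lam α + C (b - α * a) := by
    simp [lam]
    ring
  rw [h2, coeff_add, Line_coeff_lam, coeff_C, if_neg, add_zero] at h1
  · exact one_ne_zero h1
  · intro h3
    have := DFunLike.congr_fun h3 1
    simp at this

variable [IsDomain A]

/-- Induction on `S`: `f = lam α * f'`, `rho β f = rho β (lam α) * rho β f'` and `rho β (lam α) ≠ 0`. -/
theorem prod_lam_dvd {ι : Type*} (S : Finset ι) (α : ι → A) (hα : Set.InjOn α S)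
    (f : MvPolynomial (Fin 2) A) (hf : ∀ i ∈ S, rho (α i) f = 0) :
    ∏ i ∈ S, lam (α i) ∣ f := by
  classical
  induction S using Finset.induction_on generalizing f with
  | empty => simp
  | insert a S ha ih =>
    obtain ⟨g, rfl⟩ := lam_dvd (α a) f (hf a (Finset.mem_insert_self _ _))
    rw [Finset.prod_insert ha]
    refine mul_dvd_mul_left _ (ih ?_ g ?_)
    · exact hα.mono (by simp)
    · intro i hi
      have h1 := hf i (Finset.mem_insert_of_mem hi)
      rw [map_mul, rho_lam] at h1
      rcases mul_eq_zero.1 h1 with h2 | h2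
      · exfalso
        rcases mul_eq_zero.1 h2 with h3 | h3
        · rw [Polynomial.C_eq_zero, sub_eq_zero] at h3
          have h4 := hα (by simp [hi]) (by simp) h3
          exact ha (h4 ▸ hi)
        · exact Polynomial.X_sub_C_ne_zero _ h3
      · exact h2

end ShghQ
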