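import Mathlib

/-!
# The tournament lemma
-/

namespace ShghQ

open Polynomial

/-- All the `q i` are divisible by all powers of `ξ`. -/
theorem Tour_key {K : Type*} [Field K] {ι : Type*} [Fintype ι] [DecidableEq ι] (μ b : ℕ) (hb : 1 ≤ b)
    (α : ι → K) (hα : Function.Injective α) (out : ι → ι → Prop)
    (hin : ∀ i, ∃ S : Finset ι, S.card = μ ∧ ∀ j ∈ S, j ≠ i ∧ out j i)
    (W q : ι → Polynomial (Polynomial K)) (hq : ∀ i, (q i).natDegree < μ)
    (hW : ∀ i j, j ≠ i → out j i → (X : Polynomial K) ∣ (W j).eval (C (α i + α j)) ∧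
      ¬ (X : Polynomial K) ∣ (W i).eval (C (α i + α j)))
    (hrel : ∀ i j, j ≠ i → out j i → ((W i) ^ b * q i).eval (C (α i + α j)) =
      ((W j) ^ b * q j).eval (C (α i + α j))) (v : ℕ) :
    ∀ i, ∃ q' : Polynomial (Polynomial K), q i = C ((X : Polynomial K) ^ v) * q' := by
  classical
  induction v with
  | zero => intro i; exact ⟨q i, by simp⟩
  | succ v ih =>
    choose q' hq' using ih
    have hXv : (X ^ v : Polynomial K) ≠ 0 := pow_ne_zero _ X_ne_zero
    have hdeg : ∀ i, (q' i).natDegree < μ := by
      intro i
      have h1 := hq i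
      rw [hq' i, natDegree_C_mul hXv] at h1
      exact h1
    have hX : ∀ i, C (X : Polynomial K) ∣ q' i := by
      intro i
      rw [C_dvd_iff_dvd_coeff]
      obtain ⟨S, hS, hSi⟩ := hin i
      have hmap : (q' i).map (evalRingHom (0 : K)) = 0 := by
        apply eq_zero_of_natDegree_lt_card_of_eval_eq_zero' _ (S.image fun j => α i + α j)
        · intro n hn
          obtain ⟨j, hj, rfl⟩ := Finset.mem_image.1 hn
          obtain ⟨hji, hout⟩ := hSi j hj
          have hr := hrel i j hji hout
          rw [hq' i, hq' j] at hr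
          simp only [eval_mul, eval_pow, eval_C] at hr
          have hr' : X ^ v * ((W i).eval (C (α i + α j)) ^ b * (q' i).eval (C (α i + α j))) =
              X ^ v * ((W j).eval (C (α i + α j)) ^ b * (q' j).eval (C (α i + α j))) := by
            linear_combination hr
          have hr2 := mul_left_cancel₀ hXv hr'
          have hdvd : (X : Polynomial K) ∣
              (W i).eval (C (α i + α j)) ^ b * (q' i).eval (C (α i + α j)) := by
            rw [hr2]
            exact Dvd.dvd.mul_right (dvd_pow (hW i j hji hout).1 (by omega)) _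
          have h3 : (X : Polynomial K) ∣ (q' i).eval (C (α i + α j)) := by
            rcases prime_X.dvd_or_dvd hdvd with h | h
            · exact absurd (prime_X.dvd_of_dvd_pow h) (hW i j hji hout).2
            · exact h
          rw [X_dvd_iff, coeff_zero_eq_eval_zero] at h3
          have h4 : eval (α i + α j) ((q' i).map (evalRingHom (0 : K))) =
              evalRingHom (0 : K) ((q' i).eval (C (α i + α j))) := by
            rw [eval_map, ← eval₂_hom]
            congr 1
            simp
          rw [h4]
          exact h3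
        · rw [Finset.card_image_of_injective _ (fun a b h => hα (add_left_cancel h)), hS]
          exact lt_of_le_of_lt natDegree_map_le (hdeg i)
      intro n
      rw [X_dvd_iff, coeff_zero_eq_eval_zero]
      have := congrArg (fun r => coeff r n) hmap
      simpa [coeff_map] using this
    intro i
    obtain ⟨r, hr⟩ := hX i
    exact ⟨r, by rw [hq' i, hr, pow_succ, C_mul, mul_assoc]⟩

/-- Suppose not all `q i` vanish. Let `v` be maximal such that `ξ ^ v` divides all the coefficients of all
`q i`, `q i = C (ξ ^ v) * q' i`; the relations hold for `q'` (cancel `ξ ^ v`). Reduce modulo `ξ` (map by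
evaluation at `0`): for `out j i` the relation gives `W_i(n)^b q'_i(n) = 0` modulo `ξ` with `n = α i + α j` and
`W_i(n)` not divisible by `ξ`, so the reduction of `q' i` vanishes at `n`. For each `i` there are `μ`
different such `n`, and the degree is `< μ`: all `q' i` vanish modulo `ξ`, a contradiction. -/
theorem tour {K : Type*} [Field K] {ι : Type*} [Fintype ι] [DecidableEq ι] (μ b : ℕ) (hb : 1 ≤ b)
    (α : ι → K) (hα : Function.Injective α) (out : ι → ι → Prop)
    (hin : ∀ i, ∃ S : Finset ι, S.card = μ ∧ ∀ j ∈ S, j ≠ i ∧ out j i)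
    (W q : ι → Polynomial (Polynomial K)) (hq : ∀ i, (q i).natDegree < μ)
    (hW : ∀ i j, j ≠ i → out j i → (X : Polynomial K) ∣ (W j).eval (C (α i + α j)) ∧
      ¬ (X : Polynomial K) ∣ (W i).eval (C (α i + α j)))
    (hrel : ∀ i j, j ≠ i → out j i → ((W i) ^ b * q i).eval (C (α i + α j)) =
      ((W j) ^ b * q j).eval (C (α i + α j))) (i : ι) : q i = 0 := by
  ext1 n
  rw [coeff_zero]
  obtain ⟨r, hr⟩ := Tour_key μ b hb α hα out hin W q hq hW hrel (((q i).coeff n).natDegree + 1) i
  apply eq_zero_of_dvd_of_natDegree_lt (p := (X : Polynomial K) ^ (((q i).coeff n).natDegree + 1))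
  · refine ⟨r.coeff n, ?_⟩
    conv_lhs => rw [hr]
    rw [coeff_C_mul]
  · rw [natDegree_X_pow]
    exact Nat.lt_succ_self _

end ShghQ
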