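import Pool.Agent.ShghQ.Arcs
import Pool.Agent.ShghQ.Line
import Pool.Agent.ShghQ.Tour

/-!
# All the lines split off
-/

namespace ShghQ

open MvPolynomial

variable {K : Type*} [Field K]

theorem BaseDvd_xx_lt {μ : ℕ} (α : Fin (2 * μ + 1) → K)
    (t : Fin (2 * μ + 1) → Fin (2 * μ + 1) → K) (j : Fin (2 * μ + 1)) {r : Fin (2 * μ + 1)}
    (hr : r.val < μ) : xx α t j r = Polynomial.C (α j + α (j + r + 1)) + Polynomial.X := if_pos hr

theorem BaseDvd_xx_ge {μ : ℕ} (α : Fin (2 * μ + 1) → K)
    (t : Fin (2 * μ + 1) → Fin (2 * μ + 1) → K) (j : Fin (2 * μ + 1)) {r : Fin (2 * μ + 1)}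
    (hr : μ ≤ r.val) : xx α t j r = Polynomial.C (t j r) := if_neg (not_lt.2 hr)

theorem BaseDvd_xx_inj {μ : ℕ} {α : Fin (2 * μ + 1) → K} (hα : Function.Injective α)
    {t : Fin (2 * μ + 1) → Fin (2 * μ + 1) → K}
    (ht : ∀ j r r', μ ≤ r.val → μ ≤ r'.val → t j r = t j r' → r = r') (j : Fin (2 * μ + 1)) :
    Function.Injective (xx α t j) := by
  have hc1 : ∀ a : K, (Polynomial.C a + Polynomial.X : Polynomial K).coeff 1 = 1 := by
    intro a
    rw [Polynomial.coeff_add, Polynomial.coeff_X_one, Polynomial.coeff_C_of_ne_zero one_ne_zero,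
      zero_add]
  have hc2 : ∀ a : K, (Polynomial.C a : Polynomial K).coeff 1 = 0 := fun a =>
    Polynomial.coeff_C_of_ne_zero one_ne_zero
  intro r r' h
  rcases lt_or_ge r.val μ with hr | hr <;> rcases lt_or_ge r'.val μ with hr' | hr'
  · rw [BaseDvd_xx_lt α t j hr, BaseDvd_xx_lt α t j hr'] at h
    have h1 := add_right_cancel h
    have h2 := add_left_cancel (Polynomial.C_injective h1)
    have h3 := hα h2
    exact add_left_cancel (add_right_cancel h3)
  · rw [BaseDvd_xx_lt α t j hr, BaseDvd_xx_ge α t j hr'] at h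
    have h1 := congrArg (fun P => Polynomial.coeff P 1) h
    simp only [hc1, hc2] at h1
    exact absurd h1 one_ne_zero
  · rw [BaseDvd_xx_ge α t j hr, BaseDvd_xx_lt α t j hr'] at h
    have h1 := congrArg (fun P => Polynomial.coeff P 1) h
    simp only [hc1, hc2] at h1
    exact absurd h1.symm one_ne_zero
  · rw [BaseDvd_xx_ge α t j hr, BaseDvd_xx_ge α t j hr'] at h
    exact ht j r r' hr hr' (Polynomial.C_injective h)

theorem BaseDvd_isRelPrime {A : Type*} [CommRing A] [IsDomain A] [UniqueFactorizationMonoid A]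
    {a c : A} (h : a ≠ c) (b : ℕ) :
    IsRelPrime ((Polynomial.X - Polynomial.C a) ^ b) ((Polynomial.X - Polynomial.C c) ^ b) := by
  apply IsRelPrime.pow
  rw [(Polynomial.prime_X_sub_C a).irreducible.isRelPrime_iff_not_dvd, Polynomial.dvd_iff_isRoot]
  intro h1
  rw [Polynomial.IsRoot.def, Polynomial.eval_sub, Polynomial.eval_X, Polynomial.eval_C] at h1
  exact h (sub_eq_zero.1 h1)

/-- The step: all the lines split off. With `A = K[ξ]`, `f_j = rho (C (α j)) f`, `x_r = xx α t j r` (different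
for different `r`): `(X - C x_r)^b ∣ f_j` (`rho_mem`), so `W_j^b ∣ f_j`, `W_j = ∏_r (X - C x_r)`, because the
`X - C x_r` are pairwise non-associated primes of the factorial ring `A[X]`
(`Finset.prod_dvd_of_isRelPrime`); `f_j = W_j^b q_j`, `deg q_j ≤ (2μ+1) b + μ - 1 - (2μ+1) b < μ`
(`natDegree_rho`). `eval_rho` at the node: `tour` applies with `out j i` the arcs: `W_j` at `α_j + α_i` has the
factor `-ξ` if `i = j + r + 1`, `r < μ`; `W_i` at `α_i + α_j` is not divisible by `ξ`: its factors have the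
constant terms `α_i + α_j - α_i - α_{i'}` with `i' = i + r' + 1 ≠ j` (`arcs_asymm`) and
`α_i + α_j - t i r' ≠ 0`. So `q_j = 0` for all `j` and `prod_lam_dvd` applies (`α` composed with `C`). -/
theorem base_dvd (μ : ℕ) (hμ : 1 ≤ μ) (α : Fin (2 * μ + 1) → K) (hα : Function.Injective α)
    (t : Fin (2 * μ + 1) → Fin (2 * μ + 1) → K)
    (ht : ∀ j r r', μ ≤ r.val → μ ≤ r'.val → t j r = t j r' → r = r')
    (ht' : ∀ j r i, μ ≤ r.val → t j r ≠ α j + α i) (b : ℕ) (hb : 1 ≤ b)
    (f : MvPolynomial (Fin 2) (Polynomial K)) (hdeg : f.totalDegree ≤ (2 * μ + 1) * b + μ - 1)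
    (hf : ∀ j r, f ∈ pt (xx α t j r)
      (Polynomial.C (α j) * xx α t j r - Polynomial.C (α j) ^ 2) ^ b) :
    ∏ j, lam (Polynomial.C (α j)) ∣ f := by
  classical
  have hW : ∀ j, ∃ q : Polynomial (Polynomial K), rho (Polynomial.C (α j)) f =
      (∏ r, (Polynomial.X - Polynomial.C (xx α t j r))) ^ b * q := by
    intro j
    have h1 : (∏ r, (Polynomial.X - Polynomial.C (xx α t j r))) ^ b ∣
        rho (Polynomial.C (α j)) f := by
      rw [← Finset.prod_pow]
      apply Finset.prod_dvd_of_isRelPrime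
      · intro r _ r' _ hne
        exact BaseDvd_isRelPrime (fun h => hne (BaseDvd_xx_inj hα ht j h)) b
      · intro r _
        exact rho_mem _ _ b f (hf j r)
    exact h1
  choose q hq using hW
  have hWm : ∀ j, (∏ r, (Polynomial.X - Polynomial.C (xx α t j r))).Monic := fun j =>
    Polynomial.monic_prod_of_monic _ _ fun r _ => Polynomial.monic_X_sub_C _
  have hqdeg : ∀ j, (q j).natDegree < μ := by
    intro j
    by_cases hq0 : q j = 0
    · rw [hq0, Polynomial.natDegree_zero]
      exact hμ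
    · have h1 := natDegree_rho (Polynomial.C (α j)) f
      rw [hq j, ((hWm j).pow b).natDegree_mul' hq0, (hWm j).natDegree_pow,
        Polynomial.natDegree_prod_of_monic _ _ fun r _ => Polynomial.monic_X_sub_C _] at h1
      simp only [Polynomial.natDegree_X_sub_C, Finset.sum_const, Finset.card_univ,
        Fintype.card_fin, smul_eq_mul, mul_one] at h1
      have h2 : b * (2 * μ + 1) = (2 * μ + 1) * b := mul_comm _ _
      omega
  have hq0 : ∀ i, q i = 0 := by
    refine tour μ b hb α hα (fun j i => ∃ r : Fin (2 * μ + 1), r.val < μ ∧ i = j + r + 1)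
      (arcs_card μ) (fun j => ∏ r, (Polynomial.X - Polynomial.C (xx α t j r))) q hqdeg ?_ ?_
    · intro i j _ hji
      refine ⟨?_, ?_⟩
      · obtain ⟨r, hr, rfl⟩ := hji
        rw [Polynomial.eval_prod]
        refine Dvd.dvd.trans ?_ (Finset.dvd_prod_of_mem _ (Finset.mem_univ r))
        rw [Polynomial.eval_sub, Polynomial.eval_X, Polynomial.eval_C, BaseDvd_xx_lt α t j hr,
          add_comm (α (j + r + 1)) (α j)]
        exact ⟨-1, by ring⟩
      · rw [Polynomial.eval_prod, Polynomial.prime_X.dvd_finsetProd_iff]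
        rintro ⟨r, _, hr⟩
        rw [Polynomial.eval_sub, Polynomial.eval_X, Polynomial.eval_C, Polynomial.X_dvd_iff] at hr
        rcases lt_or_ge r.val μ with hrμ | hrμ
        · rw [BaseDvd_xx_lt α t i hrμ, Polynomial.coeff_sub, Polynomial.coeff_add,
            Polynomial.coeff_C_zero, Polynomial.coeff_C_zero, Polynomial.coeff_X_zero,
            add_zero, add_sub_add_left_eq_sub, sub_eq_zero] at hr
          exact arcs_asymm μ i j hji ⟨r, hrμ, hα hr⟩
        · rw [BaseDvd_xx_ge α t i hrμ, Polynomial.coeff_sub, Polynomial.coeff_C_zero,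
            Polynomial.coeff_C_zero, sub_eq_zero] at hr
          exact ht' i r j hrμ hr.symm
    · intro i j _ _
      rw [← hq i, ← hq j, Polynomial.C_add, eval_rho, add_comm (Polynomial.C (α i)), eval_rho,
        mul_comm (Polynomial.C (α j)), add_comm (Polynomial.C (α j))]
  apply prod_lam_dvd Finset.univ (fun j => Polynomial.C (α j))
  · intro i _ j _ hij
    exact hα (Polynomial.C_injective hij)
  · intro i _
    rw [hq i, hq0 i, mul_zero]

end ShghQ
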