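import Pool.Agent.ShghQ.Zone

/-!
# Closing phase: lower bounds for the remaining demand of the next column

`r = D x - F x - (μ - x) ρ` (the columns `≥ x + 1` are decided).
-/

namespace ShghQ

theorem CloR_sum_sub : ∀ (μ L : ℕ), μ ≤ L → ∑ l ∈ Finset.range L, (μ - l) = tri μ
  | 0, L, _ => by simp [tri]
  | μ + 1, L, h => by
    obtain ⟨L', rfl⟩ : ∃ L', L = L' + 1 := ⟨L - 1, by omega⟩
    rw [Finset.sum_range_succ', tri_succ]
    have h1 : ∑ l ∈ Finset.range L', (μ + 1 - (l + 1)) = ∑ l ∈ Finset.range L', (μ - l) :=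
      Finset.sum_congr rfl (fun l _ => by omega)
    rw [h1, CloR_sum_sub μ L' (by omega)]
    simp

theorem CloR_list_nonneg (w : ℕ) (e : List ℕ) :
    0 ≤ (e.map fun g => ((w - g : ℕ) : ℤ)).sum := by
  induction e with
  | nil => simp
  | cons a t ih =>
    rw [List.map_cons, List.sum_cons]
    have := Int.natCast_nonneg (w - a)
    omega

/-- Sum over all columns: everything is decided in the columns above `x`. -/
theorem CloR_total {m μ q0 x : ℕ} {D F : ℕ → ℕ} {ρ : ℤ} {e : List ℕ} (hμq : μ ≤ q0)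
    (h : Clo m μ q0 D F ρ x e) :
    ∑ l ∈ Finset.range x, ((D l : ℤ) - F l) = ρ * ∑ l ∈ Finset.range x, ((μ - l : ℕ) : ℤ) -
      (e.map fun g => ((min μ x - g : ℕ) : ℤ)).sum := by
  set E := (e.map fun g => ((min μ x - g : ℕ) : ℤ)).sum with hE
  have htri : (∑ l ∈ Finset.range (q0 + 1), ((μ - l : ℕ) : ℤ)) = tri μ := by
    rw [← CloR_sum_sub μ (q0 + 1) (by omega)]
    push_cast
    rfl
  have h1 : ∑ l ∈ Finset.range (q0 + 1), ((D l : ℤ) - F l - ρ * ((μ - l : ℕ) : ℤ)) = 0 := by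
    rw [Finset.sum_sub_distrib, Finset.sum_sub_distrib, ← Finset.mul_sum, htri, ← h.total]
    ring
  have hx := h.x_le
  rw [Finset.range_eq_Ico, ← Finset.sum_Ico_consecutive _ (Nat.zero_le x) (by omega : x ≤ q0 + 1)]
    at h1
  have h2 : ∑ l ∈ Finset.Ico x (q0 + 1), ((D l : ℤ) - F l - ρ * ((μ - l : ℕ) : ℤ)) = E := by
    rw [Finset.sum_eq_single x]
    · have := h.col
      rw [← this]; ring
    · intro l hl hne
      rw [Finset.mem_Ico] at hl
      have := h.full l (by omega) (by omega)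
      rw [← this]; ring
    · intro hl
      exact absurd (Finset.mem_Ico.2 ⟨le_refl x, by omega⟩) hl
  rw [h2, ← Finset.range_eq_Ico, Finset.sum_sub_distrib, ← Finset.mul_sum] at h1
  linarith

/-- `F (x+1) + E = D (x+1)` with `E ≥ 0` (`Clo.col`, `μ - (x+1) = 0`), `r = D x - F x ≥ D (x+1) - F x`, and
`m (F (x+1) - F x) ≥ F (x+1)`. So `m r ≥ F (x+1) + m E ≥ D (x+1)`. -/
theorem clo_r_big {m μ q0 x : ℕ} {D F : ℕ → ℕ} {ρ : ℤ} {e : List ℕ} (hm : 1 ≤ m)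
    (h : Clo m μ q0 D F ρ (x + 1) e) (hx : μ ≤ x) (hD : D (x + 1) ≤ D x) :
    (D (x + 1) : ℤ) ≤ m * ((D x : ℤ) - F x - ((μ - x : ℕ) : ℤ) * ρ) := by
  have h0 : μ - x = 0 := by omega
  have h0' : μ - (x + 1) = 0 := by omega
  have hcol := h.col
  have hE := CloR_list_nonneg (min μ (x + 1)) e
  set E := (e.map fun g => ((min μ (x + 1) - g : ℕ) : ℤ)).sum with hEdef
  rw [h0'] at hcol
  rw [h0]
  have hst : ((F (x + 1) + m * F x : ℕ) : ℤ) ≤ ((m * F (x + 1) : ℕ) : ℤ) := by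
    exact_mod_cast h.steep x (by omega)
  push_cast at hst hcol ⊢
  have hm' : (1 : ℤ) ≤ m := by exact_mod_cast hm
  have hD' : (D (x + 1) : ℤ) ≤ D x := by exact_mod_cast hD
  nlinarith [mul_nonneg (by linarith : (0 : ℤ) ≤ m - 1) hE,
    mul_nonneg (by linarith : (0 : ℤ) ≤ m) (sub_nonneg.2 hD')]

theorem CloR_sum1 (x : ℕ) : 2 * ∑ t ∈ Finset.range x, ((t : ℤ) + 1) * (16 * ((x : ℤ) - t) - 2 * t) =
    4 * (x : ℤ) * (x + 1) * (x + 2) + 4 * (x : ℤ) * (x + 1) := by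
  have h1 : ∀ n : ℕ, 2 * ∑ t ∈ Finset.range n, ((t : ℤ) + 1) = n * (n + 1) := by
    intro n
    induction n with
    | zero => simp
    | succ n ih => rw [Finset.sum_range_succ, mul_add, ih]; push_cast; ring
  have h2 : ∀ n : ℕ, 3 * ∑ t ∈ Finset.range n, ((t : ℤ) + 1) * t = ((n : ℤ) - 1) * n * (n + 1) := by
    intro n
    induction n with
    | zero => simp
    | succ n ih => rw [Finset.sum_range_succ, mul_add, ih]; push_cast; ring
  have h3 : ∑ t ∈ Finset.range x, ((t : ℤ) + 1) * (16 * ((x : ℤ) - t) - 2 * t) =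
      16 * x * ∑ t ∈ Finset.range x, ((t : ℤ) + 1) - 18 * ∑ t ∈ Finset.range x, ((t : ℤ) + 1) * t := by
    rw [Finset.mul_sum, Finset.mul_sum, ← Finset.sum_sub_distrib]
    exact Finset.sum_congr rfl (fun t _ => by ring)
  rw [h3]
  have h4 := h1 x
  have h5 := h2 x
  have h6 : 2 * (16 * (x : ℤ) * ∑ t ∈ Finset.range x, ((t : ℤ) + 1) -
      18 * ∑ t ∈ Finset.range x, ((t : ℤ) + 1) * t) =
      16 * x * (2 * ∑ t ∈ Finset.range x, ((t : ℤ) + 1)) -
        12 * (3 * ∑ t ∈ Finset.range x, ((t : ℤ) + 1) * t) := by ring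
  rw [h6, h4, h5]
  ring

/-- Use `zone_identity` with `x + 1` for `x`, `R l = D l - F l`, `E = Σ (min μ (x+1) - g) ≥ 0`. The hypothesis
`hs`: by `Clo.full`, `R l = (μ - l) ρ` for `x + 1 < l ≤ q0` (natural subtraction), `Clo.col` gives `R (x+1)`,
`Clo.total` gives `Σ_{l≤q0} R l = ρ tri μ`, and `Σ_{l≤q0} (μ - l : ℕ) = tri μ` (`μ ≤ q0`). In
`Λ_z = (D (z-1) - D z) + (F z - F (z-1))` the first part is `1` for `z ≤ μ`. `Clo.conc` with `y = x + 1`,
`z = t + 1` gives (`x + 1 ≤ μ`, so the maximum is `z + μ`)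
`Λ_{x+1} - Λ_z ≥ 16 (x + 1 - z) - 2 (2z - x - 1) ≥ 16 (x + 1 - z) - 2 (z - 1)` for `1 ≤ z ≤ x` (natural
subtraction; `2z - x - 1 ≤ z - 1` as `z ≤ x`). Now `Σ_{z=1}^{x} z (x+1-z) = x(x+1)(x+2)/6` and
`Σ_{z=1}^{x} z (z-1) = (x-1)x(x+1)/3`, so `(x+1)(x+2) r ≥ (16/3) x(x+1)(x+2) - (4/3)(x-1)x(x+1) +
E (x-1)(x+2) ≥ 4 x (x+1)(x+2)` for `x ≥ 1`. -/
theorem clo_r_zone {m μ q0 x : ℕ} {D F : ℕ → ℕ} {ρ : ℤ} {e : List ℕ} (hμm : μ ≤ m) (hmq : m ≤ q0)
    (h : Clo m μ q0 D F ρ (x + 1) e) (hx1 : 1 ≤ x) (hx : x + 1 ≤ μ)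
    (hslope : ∀ l, l < m → D l = D (l + 1) + 1) :
    4 * (x : ℤ) ≤ (D x : ℤ) - F x - ((μ - x : ℕ) : ℤ) * ρ := by
  have hE := CloR_list_nonneg (min μ (x + 1)) e
  have htot := CloR_total (hμm.trans hmq) h
  have hcol := h.col
  set E := (e.map fun g => ((min μ (x + 1) - g : ℕ) : ℤ)).sum with hEdef
  have hR : ∀ l, l < m → ((D l : ℤ) - F l) - ((D (l + 1) : ℤ) - F (l + 1)) =
      1 + ((F (l + 1) : ℤ) - F l) := by
    intro l hl
    rw [hslope l hl]; push_cast; ring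
  have hcast : ((μ - (x + 1) : ℕ) : ℤ) = (μ : ℤ) - (x + 1 : ℕ) := by
    rw [Nat.cast_sub hx]
  have hcast' : ((μ - x : ℕ) : ℤ) = (μ : ℤ) - x := by
    rw [Nat.cast_sub (by omega)]
  have hz := zone_identity (x + 1) (by omega) μ ρ E (fun l => (D l : ℤ) - F l)
    (by
      rw [hcast] at hcol
      linarith)
    (by
      rw [htot]
      congr 2
      apply Finset.sum_congr rfl
      intro l hl
      rw [Finset.mem_range] at hl
      rw [Nat.cast_sub (by omega)])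
  simp only [Nat.add_sub_cancel] at hz
  have hsum : ∑ t ∈ Finset.range x, ((t : ℤ) + 1) * (16 * ((x : ℤ) - t) - 2 * t) ≤
      ∑ t ∈ Finset.range x, ((t : ℤ) + 1) * (((D x : ℤ) - F x) - ((D (x + 1) : ℤ) - F (x + 1)) -
        (((D t : ℤ) - F t) - ((D (t + 1) : ℤ) - F (t + 1)))) := by
    apply Finset.sum_le_sum
    intro t ht
    rw [Finset.mem_range] at ht
    apply mul_le_mul_of_nonneg_left _ (by positivity)
    rw [hR x (by omega), hR t (by omega)]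
    have hc := h.conc (t + 1) (x + 1) (by omega) (by omega) hx le_rfl
    have h1 : x + 1 + μ - max (x + 1) (t + 1 + μ) = x - t := by omega
    rw [h1] at hc
    simp only [Nat.add_sub_cancel] at hc
    have h2 : ((2 * (t + 1) - (x + 1) : ℕ) : ℤ) ≤ t := by
      have : 2 * (t + 1) - (x + 1) ≤ t := by omega
      exact_mod_cast this
    have h3 : ((x - t : ℕ) : ℤ) = (x : ℤ) - t := by rw [Nat.cast_sub ht.le]
    rw [h3] at hc
    linarith
  have hs1 := CloR_sum1 x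
  rw [hcast']
  have hx' : (1 : ℤ) ≤ x := by exact_mod_cast hx1
  push_cast at hz
  have hEx : 0 ≤ E * ((x : ℤ) + 1 - 2) * ((x : ℤ) + 1 + 1) := by
    apply mul_nonneg (mul_nonneg hE (by linarith)) (by linarith)
  have hr : ((x : ℤ) + 1) * (x + 1 + 1) * ((D x : ℤ) - F x - ((μ : ℤ) - x) * ρ) ≥
      4 * (x : ℤ) * (x + 1) * (x + 2) := by
    have h5 : ((x : ℤ) + 1) * (x + 1 + 1) * ((D x : ℤ) - F x - ((μ : ℤ) - x) * ρ) =
        ((x : ℤ) + 1) * (x + 1 + 1) * ((D x : ℤ) - F x - ((μ : ℤ) - (x + 1) + 1) * ρ) := by ring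
    rw [h5, hz]
    nlinarith [mul_nonneg (by linarith : (0 : ℤ) ≤ (x : ℤ)) (by linarith : (0 : ℤ) ≤ (x : ℤ) + 1)]
  have hpos : 0 < ((x : ℤ) + 1) * (x + 1 + 1) := by positivity
  have h6 : ((x : ℤ) + 1) * (x + 1 + 1) * (4 * (x : ℤ)) ≤
      ((x : ℤ) + 1) * (x + 1 + 1) * ((D x : ℤ) - F x - ((μ : ℤ) - x) * ρ) := by
    refine le_trans (le_of_eq ?_) hr
    ring
  exact le_of_mul_le_mul_left h6 hpos

/-- At the stage `1` there are no exchanged points (`g + 1 ≤ min μ 1 ≤ 1`), the column `0` is exactly right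
(`Clo.total` minus the columns `≥ 1`), and `ρ = (D 0 - D 1) + (F 1 - F 0) ≥ 0` by `Clo.steep`. -/
theorem clo_end {m μ q0 : ℕ} {D F : ℕ → ℕ} {ρ : ℤ} {e : List ℕ} (hμ : 1 ≤ μ) (hm : 1 ≤ m)
    (hμq : μ ≤ q0) (h : Clo m μ q0 D F ρ 1 e) (hD : D 1 ≤ D 0) :
    e = [] ∧ 0 ≤ ρ ∧ (F 0 : ℤ) + μ * ρ = D 0 := by
  have he : e = [] := by
    rcases e with _ | ⟨g, t⟩
    · rfl
    · exfalso
      have h1 := h.e_bd g (by simp)
      have h2 : min μ 1 ≤ 1 := min_le_right _ _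
      omega
  subst he
  have htot := CloR_total hμq h
  simp only [Finset.range_one, Finset.sum_singleton, List.map_nil, List.sum_nil, sub_zero,
    Nat.sub_zero] at htot
  have hcol := h.col
  simp only [List.map_nil, List.sum_nil, add_zero] at hcol
  rw [Nat.cast_sub hμ] at hcol
  have hst : ((F (0 + 1) + m * F 0 : ℕ) : ℤ) ≤ ((m * F (0 + 1) : ℕ) : ℤ) := by
    exact_mod_cast h.steep 0 (by omega)
  have hF : F 0 ≤ F 1 := by
    have h1 := h.steep 0 (by omega)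
    by_contra hcon
    push Not at hcon
    have h2 : m * F 1 ≤ m * F 0 := Nat.mul_le_mul_left _ hcon.le
    have h3 : F (0 + 1) = F 1 := rfl
    rw [h3] at h1
    have h4 : F 1 = 0 := by omega
    rw [h4] at h1 hcon
    have h5 : m * F 0 = 0 := by omega
    rcases Nat.mul_eq_zero.1 h5 with h6 | h6 <;> omega
  have hF' : (F 0 : ℤ) ≤ F 1 := by exact_mod_cast hF
  have hD' : (D 1 : ℤ) ≤ D 0 := by exact_mod_cast hD
  push_cast at hcol
  refine ⟨rfl, ?_, ?_⟩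
  · nlinarith
  · linarith

end ShghQ
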