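import Pool.Agent.ShghQ.Defs

/-!
# Coefficients
-/

namespace ShghQ

open MvPolynomial

theorem ex_zero (l j : ℕ) : ex l j 0 = l := by
  simp [ex]

theorem ex_one (l j : ℕ) : ex l j 1 = j := by
  simp [ex]

theorem eq_ex (e : Fin 2 →₀ ℕ) : e = ex (e 0) (e 1) := by
  ext i
  fin_cases i
  · simp [ex]
  · simp [ex]

variable {K : Type*} [Field K]

lemma Col_deg (l j : ℕ) : ((ex l j).sum fun _ e => e) = l + j := by
  rw [Finsupp.sum_fintype _ _ (fun _ => rfl), Fin.sum_univ_two, ex_zero, ex_one]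

lemma Col_coeff_zero {R : Type*} [CommRing R] (f : MvPolynomial (Fin 2) R) {δ : ℕ}
    (hδ : f.totalDegree ≤ δ) (l j : ℕ) (h : δ + 1 ≤ l + j) : f.coeff (ex l j) = 0 := by
  apply MvPolynomial.coeff_eq_zero_of_totalDegree_lt
  have h1 := Col_deg l j
  rw [Finsupp.sum] at h1
  omega

theorem coeff_colp (f : MvPolynomial (Fin 2) (Polynomial K)) (n l j : ℕ) :
    (colp f n l).coeff j = (f.coeff (ex l j)).coeff n := by
  unfold colp
  rw [Polynomial.finset_sum_coeff]
  simp only [Polynomial.coeff_monomial]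
  rw [Finset.sum_ite_eq' (Finset.range (f.totalDegree + 1)) j]
  split_ifs with h
  · rfl
  · rw [Finset.mem_range, not_lt] at h
    rw [Col_coeff_zero f le_rfl l j (by omega), Polynomial.coeff_zero]

/-- The coefficients of `colp f n l` vanish from the index `δ + 1 - l` on. -/
theorem colp_coeff_zero (f : MvPolynomial (Fin 2) (Polynomial K)) {δ : ℕ} (hδ : f.totalDegree ≤ δ)
    (n l j : ℕ) (h : δ + 1 ≤ l + j) : (colp f n l).coeff j = 0 := by
  rw [coeff_colp, Col_coeff_zero f hδ l j h, Polynomial.coeff_zero]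

theorem eq_zero_of_colp (f : MvPolynomial (Fin 2) (Polynomial K)) (h : ∀ n l, colp f n l = 0) :
    f = 0 := by
  ext e n
  have h1 := coeff_colp f n (e 0) (e 1)
  rw [h, ← eq_ex] at h1
  simpa using h1.symm

end ShghQ
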