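import Pool.Agent.ShghQ.Col
import Pool.Agent.ShghQ.Colon

/-!
# The high columns
-/

namespace ShghQ

open MvPolynomial

variable {K : Type*} [Field K]

/-- The coefficient of `ξ ^ n` of `f`. -/
noncomputable def lay (f : MvPolynomial (Fin 2) (Polynomial K)) (n : ℕ) : MvPolynomial (Fin 2) K :=
  ∑ e ∈ f.support, monomial e ((f.coeff e).coeff n)

theorem coeff_lay (f : MvPolynomial (Fin 2) (Polynomial K)) (n : ℕ) (e : Fin 2 →₀ ℕ) :
    (lay f n).coeff e = (f.coeff e).coeff n := by
  classical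
  unfold lay
  rw [coeff_sum]
  simp only [coeff_monomial]
  rw [Finset.sum_ite_eq']
  split_ifs with h
  · rfl
  · rw [notMem_support_iff.1 h, Polynomial.coeff_zero]

theorem High_lay_add (f g : MvPolynomial (Fin 2) (Polynomial K)) (n : ℕ) :
    lay (f + g) n = lay f n + lay g n := by
  ext e
  rw [coeff_add, coeff_lay, coeff_lay, coeff_lay, coeff_add, Polynomial.coeff_add]

theorem High_lay_mul (g f : MvPolynomial (Fin 2) (Polynomial K)) (n : ℕ) :
    lay (g * f) n = ∑ p ∈ Finset.HasAntidiagonal.antidiagonal n, lay g p.1 * lay f p.2 := by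
  classical
  ext e
  rw [coeff_lay, coeff_mul, Polynomial.finsetSum_coeff, coeff_sum]
  simp only [coeff_mul, Polynomial.coeff_mul, coeff_lay]
  exact Finset.sum_comm

/-- Multiplication by a polynomial with constant coefficients. -/
theorem High_lay_map (g : MvPolynomial (Fin 2) K) (n : ℕ) :
    lay (MvPolynomial.map Polynomial.C g) n = if n = 0 then g else 0 := by
  ext e
  rw [coeff_lay, coeff_map, Polynomial.coeff_C]
  split_ifs <;> simp

/-- The translation by constants commutes with taking the coefficient of `ξ ^ n` (`mem_pt_iff`). -/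
theorem lay_mem (f : MvPolynomial (Fin 2) (Polynomial K)) (a b : K) (m : ℕ)
    (hf : f ∈ pt (Polynomial.C a) (Polynomial.C b) ^ m) (n : ℕ) : lay f n ∈ pt a b ^ m := by
  have hI : pt (Polynomial.C a) (Polynomial.C b) =
      Ideal.map (MvPolynomial.map (Polynomial.C : K →+* Polynomial K)) (pt a b) := by
    unfold pt
    rw [Ideal.map_span]
    congr 1
    rw [Set.image_pair]
    simp
  rw [hI, ← Ideal.map_pow, Ideal.map] at hf
  revert n
  refine Submodule.span_induction (p := fun f _ => ∀ n, lay f n ∈ pt a b ^ m) ?_ ?_ ?_ ?_ hf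
  · rintro _ ⟨g, hg, rfl⟩ n
    rw [High_lay_map]
    split_ifs
    · exact hg
    · exact Ideal.zero_mem _
  · intro n
    have h : lay (0 : MvPolynomial (Fin 2) (Polynomial K)) n = 0 := by
      ext e
      rw [coeff_lay, coeff_zero, Polynomial.coeff_zero, coeff_zero]
    rw [h]
    exact Ideal.zero_mem _
  · intro x y _ _ hx hy n
    rw [High_lay_add]
    exact Ideal.add_mem _ (hx n) (hy n)
  · intro g x _ hx n
    rw [smul_eq_mul, High_lay_mul]
    exact Ideal.sum_mem _ fun p _ => Ideal.mul_mem_left _ _ (hx p.2)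

/-- Let `n + u l = v`, `L ≤ l`, so `n + u L = v`. For `l' < L` one has `n + u l' < v`, so `colp f n l' = 0`:
`lay f n = X 0 ^ L * g` with `g` of degree `≤ δ - L`. `lay_mem` and `colon_zero` (`Q b 0 ≠ 0`) show
`g ∈ pt (Q b) ^ μ b`, so `g = 0` by `hinj`, `lay f n = 0` and `colp f n l = 0`. -/
theorem high (f : MvPolynomial (Fin 2) (Polynomial K)) (δ L : ℕ) (hδ : f.totalDegree ≤ δ)
    (hL : L ≤ δ) (u : ℕ → ℤ) (v : ℤ) (hv : ∀ n l, colp f n l ≠ 0 → v ≤ n + u l)
    (hu : ∀ l, l < L → u l < u L) (huL : ∀ l, L ≤ l → u l = u L) {β : Type*}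
    (Q : β → Fin 2 → K) (μ : β → ℕ) (hQ : ∀ b, Q b 0 ≠ 0)
    (hf : ∀ b, f ∈ pt (Polynomial.C (Q b 0)) (Polynomial.C (Q b 1)) ^ μ b)
    (hinj : ∀ g : MvPolynomial (Fin 2) K, g.totalDegree ≤ δ - L →
      (∀ b, g ∈ pt (Q b 0) (Q b 1) ^ μ b) → g = 0) (n l : ℕ) (hn : (n : ℤ) + u l = v) (hl : L ≤ l) :
    colp f n l = 0 := by
  classical
  have hlow : ∀ l', l' < L → colp f n l' = 0 := by
    intro l' hl'
    by_contra hne
    have h1 := hv n l' hne
    have h2 := hu l' hl'
    have h3 := huL l hl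
    omega
  have hcoef : ∀ e : Fin 2 →₀ ℕ, (lay f n).coeff e = (colp f n (e 0)).coeff (e 1) := by
    intro e
    rw [coeff_lay, coeff_colp, ← eq_ex]
  have hdvd : (X 0 : MvPolynomial (Fin 2) K) ^ L ∣ lay f n := by
    have hX : (X 0 : MvPolynomial (Fin 2) K) ^ L = monomial (Finsupp.single 0 L) 1 := by
      rw [X_pow_eq_monomial]
    rw [hX, monomial_one_dvd_iff_modMonomial_eq_zero]
    ext e
    rw [coeff_zero]
    by_cases he : Finsupp.single 0 L ≤ e
    · exact coeff_modMonomial_of_le _ he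
    · rw [coeff_modMonomial_of_not_le _ he, hcoef]
      rw [Finsupp.single_le_iff] at he
      rw [hlow (e 0) (by omega), Polynomial.coeff_zero]
  obtain ⟨g, hg⟩ := hdvd
  have hX0 : (X 0 : MvPolynomial (Fin 2) K) ^ L ≠ 0 := pow_ne_zero _ (X_ne_zero 0)
  have hdegl : (lay f n).totalDegree ≤ δ := by
    refine le_trans ?_ hδ
    refine totalDegree_finsetSum_le fun e he => ?_
    refine (totalDegree_monomial_le _ _).trans ?_
    exact le_totalDegree he
  have hdeg : g.totalDegree ≤ δ - L := by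
    by_cases hg0 : g = 0
    · rw [hg0, totalDegree_zero]
      exact Nat.zero_le _
    · have h1 := totalDegree_mul_of_isDomain hX0 hg0
      rw [← hg, totalDegree_X_pow] at h1
      omega
  have hg0 : g = 0 := by
    refine hinj g hdeg fun b => ?_
    refine colon_zero _ _ (X 0 ^ L) g (μ b) ?_ ?_
    · rw [map_pow, eval_X]
      exact pow_ne_zero _ (hQ b)
    · rw [← hg]
      exact lay_mem f _ _ _ (hf b) n
  ext j
  rw [coeff_colp, Polynomial.coeff_zero, ← coeff_lay, hg, hg0, mul_zero, coeff_zero]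

end ShghQ
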