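import Pool.Agent.ShghQ.Van
import Pool.Agent.ShghQ.High
import Pool.Agent.ShghT.Lin

/-!
# The covering theorem
-/

namespace ShghQ

open MvPolynomial

variable {K : Type*} [Field K]

/-- The minimum of `n + u l` over the pairs with nonzero `colp` is attained. -/
theorem Cov_min (f : MvPolynomial (Fin 2) (Polynomial K)) (hf : f ≠ 0) (L : ℕ) (u : ℕ → ℤ)
    (huL : ∀ l, L ≤ l → u l = u L) :
    ∃ v : ℤ, (∀ n l, colp f n l ≠ 0 → v ≤ n + u l) ∧
      ∃ n l : ℕ, colp f n l ≠ 0 ∧ (n : ℤ) + u l = v := by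
  classical
  obtain ⟨n₁, l₁, h₁⟩ : ∃ n l, colp f n l ≠ 0 := by
    by_contra hcon
    push Not at hcon
    exact hf (eq_zero_of_colp f hcon)
  have hB : ∀ l, -(∑ j ∈ Finset.range (L + 1), |u j|) ≤ u l := by
    have key : ∀ l, l ≤ L → -(∑ j ∈ Finset.range (L + 1), |u j|) ≤ u l := by
      intro l hl
      have h1 : |u l| ≤ ∑ j ∈ Finset.range (L + 1), |u j| :=
        Finset.single_le_sum (f := fun j => |u j|) (fun j _ => abs_nonneg _)
          (Finset.mem_range.2 (by omega))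
      have h2 := neg_abs_le (u l)
      linarith
    intro l
    rcases le_total l L with hl | hl
    · exact key l hl
    · rw [huL l hl]
      exact key L le_rfl
  set B : ℤ := ∑ j ∈ Finset.range (L + 1), |u j| with hBdef
  have hex : ∃ k : ℕ, ∃ n l : ℕ, colp f n l ≠ 0 ∧ (n : ℤ) + u l + B = k := by
    refine ⟨((n₁ : ℤ) + u l₁ + B).toNat, n₁, l₁, h₁, ?_⟩
    have := hB l₁
    rw [Int.toNat_of_nonneg (by omega)]
  obtain ⟨n₀, l₀, h₀, hk⟩ := Nat.find_spec hex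
  refine ⟨(n₀ : ℤ) + u l₀, fun n l hnl => ?_, n₀, l₀, h₀, rfl⟩
  have hmin : Nat.find hex ≤ ((n : ℤ) + u l + B).toNat := by
    refine Nat.find_min' hex ⟨n, l, hnl, ?_⟩
    have := hB l
    rw [Int.toNat_of_nonneg (by omega)]
  have := hB l
  omega

/-- Suppose `f ≠ 0`. Let `v` be the minimum of `n + u l` over the pairs with `colp f n l ≠ 0`
(`eq_zero_of_colp`; `l ≤ δ`, so `n + u l` is bounded below and the minimum is attained, at `(n, l)` say). If
`l ≥ L` this contradicts `high`. If `l < L` then for each `i` and `b < a i l` the `b`-th Hasse derivative of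
`colp f n l` vanishes at `y i` (`van`, `hfit`), and `colp f n l` has no coefficients from the index
`δ + 1 - l ≤ Σ_i a i l` on, so it vanishes by `ShghT.hermite`. -/
theorem cov {ι β : Type*} [Fintype ι] (δ L : ℕ) (hL : L ≤ δ) (m : ι → ℕ) (c : ι → ℕ) (y : ι → K)
    (hy : Function.Injective y) (u : ℕ → ℤ) (hu : ∀ l, l < L → u l < u L)
    (huL : ∀ l, L ≤ l → u l = u L) (a : ι → ℕ → ℕ)
    (hfit : ∀ i l₀, l₀ < L → 0 < a i l₀ →
      ∃ s, ∀ l, val u (c i) l₀ ≤ val u (c i) l → s ≤ l ∧ l + a i l₀ ≤ s + m i)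
    (hcov : ∀ l, l < L → δ + 1 ≤ l + ∑ i, a i l)
    (Q : β → Fin 2 → K) (μ : β → ℕ) (hQ : ∀ b, Q b 0 ≠ 0)
    (hinj : ∀ g : MvPolynomial (Fin 2) K, g.totalDegree ≤ δ - L →
      (∀ b, g ∈ pt (Q b 0) (Q b 1) ^ μ b) → g = 0)
    (f : MvPolynomial (Fin 2) (Polynomial K)) (hδ : f.totalDegree ≤ δ)
    (hf : ∀ i, f ∈ pt (Polynomial.X ^ c i) (Polynomial.C (y i)) ^ m i)
    (hfQ : ∀ b, f ∈ pt (Polynomial.C (Q b 0)) (Polynomial.C (Q b 1)) ^ μ b) : f = 0 := by
  by_contra hf0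
  obtain ⟨v, hv, n₀, l₀, h₀, hn⟩ := Cov_min f hf0 L u huL
  rcases le_or_gt L l₀ with hl | hl
  · exact h₀ (high f δ L hδ hL u v hv hu huL Q μ hQ hfQ hinj n₀ l₀ hn hl)
  · apply h₀
    refine ShghT.hermite Finset.univ y hy.injOn (fun i => a i l₀) _ ?_ ?_
    · intro i _ b hb
      obtain ⟨s, hs⟩ := hfit i l₀ hl (lt_of_le_of_lt (Nat.zero_le _) hb)
      exact van f δ hδ u v hv (c i) (y i) (m i) (hf i) n₀ l₀ (a i l₀) s hn hs b hb
    · intro j hj
      refine colp_coeff_zero f hδ n₀ l₀ j ?_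
      have := hcov l₀ hl
      omega

end ShghQ
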