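import Pool.Agent.ShghQ.Phase

/-!
# The first two groups of points
-/

namespace ShghQ

theorem Fill12_anti {D : ℕ → ℕ} {L : ℕ} (hD : ∀ l, l + 1 < L → D (l + 1) ≤ D l) {a b : ℕ}
    (hab : a ≤ b) (hb : b < L) : D b ≤ D a := by
  induction b, hab using Nat.le_induction with
  | base => exact le_rfl
  | succ b _ ih => exact (hD b hb).trans (ih (by omega))

theorem Fill12_reg {m L M M' q : ℕ} {D F : ℕ → ℕ} (h : Reg m L D F M q) (h1 : 1 ≤ M)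
    (hM : M ≤ M') : Reg m L D F M' q := by
  refine ⟨h.q_lt, h.full, h.le, fun l hl => ?_, h.supp⟩
  have h2 := h.steep l hl
  have h3 : M * F l ≤ M * F (l + 1) := by omega
  have h4 : F l ≤ F (l + 1) := Nat.le_of_mul_le_mul_left h3 (by omega)
  obtain ⟨c, rfl⟩ : ∃ c, M' = M + c := ⟨M' - M, by omega⟩
  have h5 : c * F l ≤ c * F (l + 1) := Nat.mul_le_mul_left _ h4
  rw [Nat.add_mul, Nat.add_mul]
  omega

/-- First phase, groups `T1` (multiplicity `μ0`) and `T2` (multiplicities `≤ m`).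
1. The zero function (with `S = ∅`) satisfies `Reg m L D 0 μ0 (L - 1)`. `phase` with `S = ∅`, `T = T1`, `M = μ0`.
2. `deep` (`sum_fillOf`): `8 m² ≤ D q1`.
3. `Reg` with `M = μ0` implies `Reg` with `M = m` (`F l ≤ F (l+1)`). `phase` with `S = T1`, `T = T2`, `M = m`
   (`m m ≤ 8 m² ≤ D q1`).
4. `q ≤ q1`, so `D q ≥ D q1` by `hD`; `room` with `k = 2 m`. -/
theorem fill12 {s : ℕ} (μ : Fin s → ℕ) {m μ0 L X Dm : ℕ} {D : ℕ → ℕ} (T1 T2 : Finset (Fin s))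
    (h12 : Disjoint T1 T2) (hμ0 : 1 ≤ μ0) (hμ0m : μ0 ≤ m) (hT1 : ∀ i ∈ T1, μ i = μ0)
    (hT2 : ∀ i ∈ T2, 1 ≤ μ i ∧ μ i ≤ m) (hL1 : 1 ≤ L) (hmL : m ≤ L)
    (hDm : ∀ l, l < L → D l ≤ Dm) (hD : ∀ l, l + 1 < L → D (l + 1) ≤ D l)
    (hX : ∀ l, l < L → X ≤ D l + l) (hLX : L ≤ X) (hμD : ∀ l, l < L → μ0 * μ0 ≤ D l)
    (ha1 : 72 * m ^ 4 ≤ ∑ i ∈ T1, tri (μ i))
    (ha2 : ∑ i ∈ T1 ∪ T2, tri (μ i) + (2 * m + 3) * Dm ≤ ∑ l ∈ Finset.range L, D l) :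
    ∃ p n q, (∀ i ∈ T1 ∪ T2, Adm L (μ i) (p i) (n i)) ∧ 2 * m ≤ q ∧ 8 * m ^ 2 ≤ D q ∧
      Reg m L D (fillOf (T1 ∪ T2) μ p n) m q := by
  have hDm1 : 1 ≤ Dm := by
    have h1 := hDm (L - 1) (by omega)
    have h2 := hμD (L - 1) (by omega)
    have h3 : 1 ≤ μ0 * μ0 := Nat.mul_pos hμ0 hμ0
    omega
  have hs1 : ∑ i ∈ T1, tri (μ i) ≤ ∑ i ∈ T1 ∪ T2, tri (μ i) :=
    Finset.sum_le_sum_of_subset Finset.subset_union_left
  have hR0 : Reg m L D (fillOf (∅ : Finset (Fin s)) μ (fun _ => 0) (fun _ => 0)) μ0 (L - 1) := by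
    refine ⟨by omega, fun l h1 h2 => absurd h1 (by omega), fun l _ => ?_, fun l _ => ?_,
      fun l _ => ?_⟩
    · rw [fillOf, Finset.sum_empty]
      exact Nat.zero_le _
    · rw [fillOf, fillOf, Finset.sum_empty, Finset.sum_empty]
      exact le_rfl
    · rw [fillOf, Finset.sum_empty]
  have hm2 : (m + 2) * Dm ≤ (2 * m + 3) * Dm := Nat.mul_le_mul_right _ (by omega)
  have hm3 : 2 * m * Dm + 3 * Dm = (2 * m + 3) * Dm := by ring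
  obtain ⟨p1, n1, q1, hA1, hq1, hR1⟩ := phase μ hμ0 hμ0m hmL hDm hD ∅ T1
    (Finset.disjoint_empty_left _) (fun i hi => absurd hi (Finset.notMem_empty i))
    (fun i hi => by rw [hT1 i hi]; exact ⟨hμ0, le_rfl⟩) (fun _ => 0) (fun _ => 0) (L - 1)
    (fun i hi => absurd hi (Finset.notMem_empty i)) hR0 (hμD (L - 1) (by omega)) (by
      rw [Finset.empty_union]
      omega)
  rw [Finset.empty_union] at hA1 hR1
  have hq1L : q1 < L := by omega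
  have hT1m : ∀ i ∈ T1, μ i ≤ m := fun i hi => by rw [hT1 i hi]; exact hμ0m
  have hm1 : 1 ≤ m := hμ0.trans hμ0m
  have hd1 : 8 * m ^ 2 ≤ D q1 := deep hR1 hm1 hμ0 hμ0m hX hLX hD (by
    rw [sum_fillOf hmL T1 μ p1 n1 hT1m hA1]
    exact ha1)
  obtain ⟨p2, n2, q2, hA2, hq2, hR2⟩ := phase μ hm1 le_rfl hmL hDm hD T1 T2 h12 hT1m hT2 p1 n1 q1
    hA1 (Fill12_reg hR1 hμ0 hμ0m) (by nlinarith) (by omega)
  refine ⟨p2, n2, q2, hA2, ?_, hd1.trans (Fill12_anti hD hq2 hq1L), hR2⟩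
  refine room (k := 2 * m) hR2 hDm ?_
  rw [sum_fillOf hmL (T1 ∪ T2) μ p2 n2 (fun i hi => ?_) hA2]
  · omega
  · rcases Finset.mem_union.1 hi with hi | hi
    · exact hT1m i hi
    · exact (hT2 i hi).2

end ShghQ
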