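import Pool.Agent.ShghQ.Config

/-!
# The theorem for generic points
-/

namespace ShghQ

open MvPolynomial

theorem Final_tri_one : tri 1 = 1 := rfl

/-- `F = ⊥ ⊆ k`, `k₀ = AlgebraicClosure k`, `K'` the field of `exists_config` for `k₀`.
(1) `tri (δ+1) ≤ Σ tri (μ i)`: `LS δ μ P' = ⊥` for the configuration of `exists_config`, so `finrank = 0` by
`ShghT.finrank_LS_le`, and `χ ≤ 0`.
(2) otherwise add `n₁ = tri (δ+1) - Σ tri (μ i)` points of multiplicity one (`Fin.append`); the number of
positive values is at most `κ + 1 ≤ 2 κ`, so `exists_config` applies with `2 κ`. `ShghT.finrank_LS_le_of_cut`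
(`Z = ∅`) and `ShghT.finrank_LS_le` give `finrank ≤ n₁`, `ShghT.le_finrank_LS` the other inequality. -/
theorem final {k : Type*} [Field k] {s : ℕ} (P : Fin s → Fin 2 → k)
    (hP : AlgebraicIndependent (⊥ : Subfield k) (fun ij : Fin s × Fin 2 => P ij.1 ij.2))
    (δ : ℕ) (μ : Fin s → ℕ) (m κ : ℕ) (hm : 1 ≤ m) (hκ1 : 1 ≤ κ) (hμ : ∀ i, μ i ≤ m)
    (hκ : ((Finset.univ.image μ).erase 0).card ≤ κ) (hδ : 5000 * κ * m ^ 4 ≤ δ ^ 2) :
    (Module.finrank k (ShghT.LS δ μ P) : ℤ) =
      max 0 (((δ + 2).choose 2 : ℤ) - ∑ i, ((μ i + 1).choose 2 : ℤ)) := by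
  classical
  have hδ' : 2500 * (2 * κ) * m ^ 4 ≤ (δ + 1) ^ 2 := by
    calc 2500 * (2 * κ) * m ^ 4 = 5000 * κ * m ^ 4 := by ring
      _ ≤ δ ^ 2 := hδ
      _ ≤ (δ + 1) ^ 2 := Nat.pow_le_pow_left (Nat.le_succ δ) 2
  have htri : tri (δ + 1) = (δ + 2).choose 2 := rfl
  have htriμ : ∀ i, tri (μ i) = (μ i + 1).choose 2 := fun i => rfl
  by_cases hcov : tri (δ + 1) ≤ ∑ i, tri (μ i)
  · obtain ⟨P', hP'⟩ := exists_config (k := AlgebraicClosure k) μ m (2 * κ) δ hm hμ
      (hκ.trans (by omega)) hδ' hcov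
    have h1 := ShghT.finrank_LS_le (F := (⊥ : Subfield k)) P hP P' δ μ
    have h2 : ShghT.LS δ μ P' = ⊥ := (Submodule.eq_bot_iff _).2 hP'
    rw [h2, finrank_bot] at h1
    have h3 : ((δ + 2).choose 2 : ℤ) ≤ ∑ i, ((μ i + 1).choose 2 : ℤ) := by
      rw [htri] at hcov
      have h4 : (δ + 2).choose 2 ≤ ∑ i, (μ i + 1).choose 2 := hcov
      exact_mod_cast h4
    rw [max_eq_left (by linarith)]
    omega
  · rw [not_le] at hcov
    obtain ⟨n, hn⟩ : ∃ n, tri (δ + 1) = ∑ i, tri (μ i) + n := ⟨_, (Nat.add_sub_cancel' hcov.le).symm⟩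
    set μ' : Fin (s + n) → ℕ := Fin.append μ fun _ : Fin n => 1 with hμ'
    have hμ'm : ∀ i, μ' i ≤ m := by
      intro i
      refine Fin.addCases (fun i => ?_) (fun j => ?_) i
      · rw [hμ', Fin.append_left]
        exact hμ i
      · rw [hμ', Fin.append_right]
        exact hm
    have hcard : ((Finset.univ.image μ').erase 0).card ≤ 2 * κ := by
      have hsub : (Finset.univ.image μ').erase 0 ⊆ insert 1 ((Finset.univ.image μ).erase 0) := by
        intro x hx
        rw [Finset.mem_erase, Finset.mem_image] at hx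
        obtain ⟨hx0, i, -, hi⟩ := hx
        revert hi
        refine Fin.addCases (fun i => ?_) (fun j => ?_) i
        · intro hi
          rw [hμ', Fin.append_left] at hi
          refine Finset.mem_insert_of_mem (Finset.mem_erase.2 ⟨hx0, ?_⟩)
          exact Finset.mem_image.2 ⟨i, Finset.mem_univ i, hi⟩
        · intro hi
          rw [hμ', Fin.append_right] at hi
          rw [← hi]
          exact Finset.mem_insert_self _ _
      refine (Finset.card_le_card hsub).trans ((Finset.card_insert_le _ _).trans ?_)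
      omega
    have hcov' : tri (δ + 1) ≤ ∑ i, tri (μ' i) := by
      rw [Fin.sum_univ_add]
      simp only [hμ', Fin.append_left, Fin.append_right, Final_tri_one, Finset.sum_const,
        Finset.card_univ, Fintype.card_fin, smul_eq_mul, mul_one]
      exact hn.le
    obtain ⟨P', hP'⟩ := exists_config (k := AlgebraicClosure k) μ' m (2 * κ) δ hm hμ'm
      hcard hδ' hcov'
    have h1 := ShghT.finrank_LS_le (F := (⊥ : Subfield k)) P hP
      (fun i => P' (Fin.castAdd n i)) δ μ
    have h2 := ShghT.finrank_LS_le_of_cut δ μ (fun i => P' (Fin.castAdd n i)) n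
      (fun i => P' (Fin.natAdd s i)) ∅ (by
        intro f hf _
        refine hP' f ?_
        rw [Fin.append_castAdd_natAdd] at hf
        exact hf)
    have h3 := ShghT.le_finrank_LS δ μ P
    rw [Finset.card_empty, add_zero] at h2
    have h4 : (δ + 2).choose 2 = ∑ i, (μ i + 1).choose 2 + n := hn
    have h5 : Module.finrank k (ShghT.LS δ μ P) = n := by omega
    have h6 : ((δ + 2).choose 2 : ℤ) = ∑ i, ((μ i + 1).choose 2 : ℤ) + n := by
      exact_mod_cast h4
    rw [h5, h6, add_sub_cancel_left, max_eq_right (Int.natCast_nonneg n)]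

end ShghQ
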