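import Pool.Agent.ShghQ.Pat

/-!
# First phase: room and depth
-/

namespace ShghQ

/-- `Σ_{l<L} (D l - F l) = Σ_{l≤q} (D l - F l) ≤ (q + 1) Dm`, so `k Dm < (q + 1) Dm`. -/
theorem room {m L M q Dm k : ℕ} {D F : ℕ → ℕ} (h : Reg m L D F M q) (hD : ∀ l, l < L → D l ≤ Dm)
    (hk : ∑ l ∈ Finset.range L, F l + k * Dm < ∑ l ∈ Finset.range L, D l) : k ≤ q := by
  by_contra hcon
  have hqL := h.q_lt
  have h1 : ∑ l ∈ Finset.Ico (q + 1) L, F l = ∑ l ∈ Finset.Ico (q + 1) L, D l := by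
    refine Finset.sum_congr rfl fun l hl => ?_
    rw [Finset.mem_Ico] at hl
    exact h.full l (by omega) hl.2
  have h2 : ∑ l ∈ Finset.range (q + 1), D l ≤ k * Dm := by
    refine (Finset.sum_le_card_nsmul _ _ Dm fun l hl => ?_).trans ?_
    · rw [Finset.mem_range] at hl
      exact hD l (by omega)
    · rw [Finset.card_range, smul_eq_mul]
      exact Nat.mul_le_mul_right _ (by omega)
  rw [← Finset.sum_range_add_sum_Ico F (show q + 1 ≤ L by omega),
    ← Finset.sum_range_add_sum_Ico D (show q + 1 ≤ L by omega), h1] at hk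
  omega

theorem Room_sum {m L M q : ℕ} {D F : ℕ → ℕ} (h : Reg m L D F M q) (hM1 : 1 ≤ M) :
    ∀ k, k ≤ q → ∑ l ∈ Finset.range (k + 1), F l ≤ M * F k := by
  intro k
  induction k with
  | zero =>
    intro _
    rw [Finset.sum_range_one]
    exact Nat.le_mul_of_pos_left _ hM1
  | succ k ih =>
    intro hk
    rw [Finset.sum_range_succ]
    have h1 := ih (by omega)
    have h2 := h.steep k (by omega)
    omega

/-- Suppose `D q < 8 m²`. Then `D l ≤ D q < 8 m²` for `q < l < L` and `L - q ≤ X - q ≤ D q < 8 m²`. The sum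
of the steepness inequalities for `l < q` gives `Σ_{l≤q} F l ≤ M F q ≤ m 8 m²`. So
`Σ_{l<L} F l < 8 m² * 8 m² + 8 m³ ≤ 72 m⁴`. -/
theorem deep {m L X M q : ℕ} {D F : ℕ → ℕ} (h : Reg m L D F M q) (hm : 1 ≤ m) (hM1 : 1 ≤ M)
    (hM : M ≤ m) (hX : ∀ l, l < L → X ≤ D l + l) (hLX : L ≤ X)
    (hD : ∀ l, l + 1 < L → D (l + 1) ≤ D l) (harea : 72 * m ^ 4 ≤ ∑ l ∈ Finset.range L, F l) :
    8 * m ^ 2 ≤ D q := by
  by_contra hcon
  rw [not_le] at hcon
  have hqL := h.q_lt
  -- the full columns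
  have hDle : ∀ k, q + k < L → D (q + k) ≤ D q := by
    intro k
    induction k with
    | zero => intro _; exact le_rfl
    | succ k ih =>
      intro hk
      exact (hD (q + k) hk).trans (ih (by omega))
  have h1 : ∑ l ∈ Finset.Ico (q + 1) L, F l ≤ (L - (q + 1)) * D q := by
    refine (Finset.sum_le_card_nsmul _ _ (D q) fun l hl => ?_).trans ?_
    · rw [Finset.mem_Ico] at hl
      rw [h.full l (by omega) hl.2]
      have h2 := hDle (l - q) (by omega)
      have h3 : q + (l - q) = l := by omega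
      rw [h3] at h2
      exact h2
    · rw [Nat.card_Ico, smul_eq_mul]
  have hLq : L - (q + 1) ≤ 8 * m ^ 2 := by
    have := hX q hqL
    omega
  have h2 : (L - (q + 1)) * D q ≤ (8 * m ^ 2) * D q := Nat.mul_le_mul_right _ hLq
  have h3 := Room_sum h hM1 q le_rfl
  have h4 : M * F q ≤ m * D q := Nat.mul_le_mul hM (h.le q le_rfl)
  rw [← Finset.sum_range_add_sum_Ico F (show q + 1 ≤ L by omega)] at harea
  have h5 : 72 * m ^ 4 ≤ (m + 8 * m ^ 2) * D q := by
    calc 72 * m ^ 4 ≤ m * D q + (8 * m ^ 2) * D q := by omega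
      _ = (m + 8 * m ^ 2) * D q := by ring
  have h6 : (m + 8 * m ^ 2) * D q < (m + 8 * m ^ 2) * (8 * m ^ 2) := by
    refine Nat.mul_lt_mul_of_pos_left hcon ?_
    positivity
  have h7 : (m + 8 * m ^ 2) * (8 * m ^ 2) ≤ 72 * m ^ 4 := by
    have h8 : m ^ 3 ≤ m ^ 4 := Nat.pow_le_pow_right hm (by norm_num)
    calc (m + 8 * m ^ 2) * (8 * m ^ 2) = 8 * m ^ 3 + 64 * m ^ 4 := by ring
      _ ≤ 8 * m ^ 4 + 64 * m ^ 4 := by omega
      _ = 72 * m ^ 4 := by ring
  omega

end ShghQ
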