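import Pool.Agent.ShghQ.Step
import Pool.Agent.ShghQ.Room

/-!
# First phase: placing a set of points
-/

namespace ShghQ

/-- `sum_pat` summed over the points. -/
theorem sum_fillOf {s : ℕ} {L m : ℕ} (hmL : m ≤ L) (S : Finset (Fin s)) (μ p n : Fin s → ℕ)
    (hμ : ∀ i ∈ S, μ i ≤ m) (h : ∀ i ∈ S, Adm L (μ i) (p i) (n i)) :
    ∑ l ∈ Finset.range L, fillOf S μ p n l = ∑ i ∈ S, tri (μ i) := by
  unfold fillOf
  rw [Finset.sum_comm]
  exact Finset.sum_congr rfl fun i hi => sum_pat (h i hi) ((hμ i hi).trans hmL)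

theorem Phase_update {s : ℕ} (S : Finset (Fin s)) (μ p n : Fin s → ℕ) (a : Fin s) (ha : a ∉ S)
    (p₁ n₁ l : ℕ) :
    fillOf (insert a S) μ (Function.update p a p₁) (Function.update n a n₁) l =
      fillOf S μ p n l + pat (μ a) p₁ n₁ l := by
  unfold fillOf
  rw [Finset.sum_insert ha, Function.update_self, Function.update_self, add_comm]
  congr 1
  refine Finset.sum_congr rfl fun i hi => ?_
  have hne : i ≠ a := by
    rintro rfl
    exact ha hi
  rw [Function.update_of_ne hne, Function.update_of_ne hne]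

/-- Induction on `T` (`Finset.induction_on`, the point `a` is placed last or first): `room` with
`k = m + 1` gives `m + 1 ≤ q` (the filled area is `Σ_{S} tri` by `sum_fillOf`, `Dm ≥ D q ≥ M M > 0`), `step`
gives `p`, `n`, `q'`; use `Function.update`. `max M ν = M`. `D q' ≥ D q ≥ M M` because `q' ≤ q`. -/
theorem phase {s : ℕ} (μ : Fin s → ℕ) {m L M Dm : ℕ} {D : ℕ → ℕ} (hM1 : 1 ≤ M) (hM : M ≤ m)
    (hmL : m ≤ L) (hDm : ∀ l, l < L → D l ≤ Dm) (hD : ∀ l, l + 1 < L → D (l + 1) ≤ D l)
    (S T : Finset (Fin s)) (hST : Disjoint S T) (hS : ∀ i ∈ S, μ i ≤ m)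
    (hT : ∀ i ∈ T, 1 ≤ μ i ∧ μ i ≤ M) (p n : Fin s → ℕ) (q : ℕ)
    (hAdm : ∀ i ∈ S, Adm L (μ i) (p i) (n i)) (hR : Reg m L D (fillOf S μ p n) M q)
    (hDq : M * M ≤ D q)
    (harea : ∑ i ∈ S ∪ T, tri (μ i) + (m + 2) * Dm ≤ ∑ l ∈ Finset.range L, D l) :
    ∃ p' n' q', (∀ i ∈ S ∪ T, Adm L (μ i) (p' i) (n' i)) ∧ q' ≤ q ∧
      Reg m L D (fillOf (S ∪ T) μ p' n') M q' := by
  classical
  induction T using Finset.induction_on generalizing S p n q with
  | empty =>
    refine ⟨p, n, q, ?_, le_rfl, ?_⟩
    · intro i hi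
      rw [Finset.union_empty] at hi
      exact hAdm i hi
    · rw [Finset.union_empty]
      exact hR
  | insert a T haT ih =>
    have haS : a ∉ S := fun h => Finset.disjoint_left.1 hST h (Finset.mem_insert_self a T)
    have ha := hT a (Finset.mem_insert_self a T)
    have hunion : insert a S ∪ T = S ∪ insert a T := by
      ext i
      simp only [Finset.mem_union, Finset.mem_insert]
      tauto
    -- room
    have hMM : 1 ≤ M * M := Nat.mul_pos hM1 hM1
    have hDm1 : 1 ≤ Dm := hMM.trans (hDq.trans (hDm q hR.q_lt))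
    have hsub : ∑ i ∈ S, tri (μ i) ≤ ∑ i ∈ S ∪ insert a T, tri (μ i) :=
      Finset.sum_le_sum_of_subset Finset.subset_union_left
    have hroom : m + 1 ≤ q := by
      refine room hR hDm ?_
      rw [sum_fillOf hmL S μ p n hS hAdm]
      have h1 : (m + 2) * Dm = (m + 1) * Dm + Dm := by ring
      omega
    obtain ⟨p₁, n₁, q₁, hA₁, hq₁, hq₁', hR₁⟩ := step (ν := μ a) hR hM1 hM ha.1
      (ha.2.trans hM) hroom (fun l hl => hD l (by
        have := hR.q_lt
        omega)) ((Nat.mul_le_mul_left M ha.2).trans hDq)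
    rw [max_eq_left ha.2] at hR₁
    have hfun : fillOf (insert a S) μ (Function.update p a p₁) (Function.update n a n₁) =
        fun l => fillOf S μ p n l + pat (μ a) p₁ n₁ l := by
      funext l
      exact Phase_update S μ p n a haS p₁ n₁ l
    have hDq₁ : M * M ≤ D q₁ := by
      rcases Nat.eq_or_lt_of_le hq₁ with h | h
      · rw [h]
        exact hDq
      · have h2 : q₁ + 1 = q := by omega
        refine hDq.trans ?_
        rw [← h2]
        exact hD q₁ (by
          have := hR.q_lt
          omega)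
    obtain ⟨p', n', q', h1, h2, h3⟩ := ih (insert a S) (by
        rw [Finset.disjoint_insert_left]
        exact ⟨haT, Finset.disjoint_of_subset_right (Finset.subset_insert a T) hST⟩)
      (by
        intro i hi
        rcases Finset.mem_insert.1 hi with rfl | hi
        · exact ha.2.trans hM
        · exact hS i hi)
      (fun i hi => hT i (Finset.mem_insert_of_mem hi))
      (Function.update p a p₁) (Function.update n a n₁) q₁ (by
        intro i hi
        by_cases hia : i = a
        · rw [hia, Function.update_self, Function.update_self]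
          exact hA₁
        · rw [Function.update_of_ne hia, Function.update_of_ne hia]
          exact hAdm i (Finset.mem_of_mem_insert_of_ne hi hia))
      (by
        rw [hfun]
        exact hR₁) hDq₁ (by
        rw [hunion]
        exact harea)
    rw [hunion] at h1 h3
    exact ⟨p', n', q', h1, h2.trans hq₁, h3⟩

end ShghQ
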