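import Pool.Agent.ShghQ.Col

/-!
# The expansion at a point `(ξ ^ c, b)`
-/

namespace ShghQ

open MvPolynomial

/-- An element of the `m`-th power of the ideal `(a, η)` has its coefficient of `η ^ i` divisible by
`a ^ (m - i)`. -/
theorem Star_dvd {B : Type*} [CommRing B] (a : B) (m : ℕ) (g : Polynomial B)
    (hg : g ∈ Ideal.span {Polynomial.C a, (Polynomial.X : Polynomial B)} ^ m) (i : ℕ) :
    a ^ (m - i) ∣ g.coeff i := by
  -- multiplication
  have hmul : ∀ (k : ℕ) (u w : Polynomial B), (∀ i, a ^ (k - i) ∣ w.coeff i) →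
      ∀ i, a ^ (k - i) ∣ (u * w).coeff i := by
    intro k u w hw i
    rw [Polynomial.coeff_mul]
    apply Finset.dvd_sum
    intro x hx
    have h1 := Finset.HasAntidiagonal.mem_antidiagonal.1 hx
    exact Dvd.dvd.mul_left ((pow_dvd_pow a (by omega)).trans (hw x.2)) _
  induction m generalizing g i with
  | zero => rw [Nat.zero_sub, pow_zero]; exact one_dvd _
  | succ m ih =>
    rw [pow_succ] at hg
    revert i
    refine Submodule.mul_induction_on hg ?_ ?_
    · intro u hu v hv i
      obtain ⟨p, q, rfl⟩ := Ideal.mem_span_pair.1 hv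
      have h1 : ∀ i, a ^ (m + 1 - i) ∣ (u * Polynomial.C a).coeff i := by
        intro i
        rw [Polynomial.coeff_mul_C]
        have h2 := mul_dvd_mul_right (ih u hu i) a
        rw [← pow_succ] at h2
        exact (pow_dvd_pow a (by omega)).trans h2
      have h2 : ∀ i, a ^ (m + 1 - i) ∣ (u * Polynomial.X).coeff i := by
        intro i
        rcases i with _ | i
        · rw [Polynomial.mul_coeff_zero, Polynomial.coeff_X_zero, mul_zero]
          exact dvd_zero _
        · rw [Polynomial.coeff_mul_X]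
          have := ih u hu i
          rwa [Nat.add_sub_add_right]
      have h3 : u * (p * Polynomial.C a + q * Polynomial.X) =
          p * (u * Polynomial.C a) + q * (u * Polynomial.X) := by ring
      rw [h3, Polynomial.coeff_add]
      exact dvd_add (hmul _ _ _ h1 i) (hmul _ _ _ h2 i)
    · intro x y hx hy i
      rw [Polynomial.coeff_add]
      exact dvd_add (hx i) (hy i)

variable {K : Type*} [Field K]

/-- The map on the coefficients. -/
noncomputable def Star_c (K : Type*) [Field K] :
    Polynomial K →+* Polynomial (Polynomial (Polynomial K)) :=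
  (Polynomial.C : Polynomial (Polynomial K) →+* Polynomial (Polynomial (Polynomial K))).comp
    (Polynomial.mapRingHom (Polynomial.C : K →+* Polynomial K))

theorem Star_c_apply (a : Polynomial K) :
    Star_c K a = Polynomial.C (Polynomial.map Polynomial.C a) := rfl

/-- The images of the variables. -/
noncomputable def Star_g (c : ℕ) (b : K) : Fin 2 → Polynomial (Polynomial (Polynomial K)) :=
  ![Polynomial.C (Polynomial.X ^ c * Polynomial.C Polynomial.X),
    Polynomial.X + Polynomial.C (Polynomial.C (Polynomial.C b))]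

theorem Star_g_zero (c : ℕ) (b : K) : Star_g c b 0 =
    Polynomial.C (Polynomial.X ^ c * Polynomial.C Polynomial.X) := rfl

theorem Star_g_one (c : ℕ) (b : K) : Star_g c b 1 =
    Polynomial.X + Polynomial.C (Polynomial.C (Polynomial.C b)) := rfl

/-- The ring homomorphism `x ↦ ξ ^ c X`, `y ↦ b + η`. -/
noncomputable def Star_phi (c : ℕ) (b : K) : MvPolynomial (Fin 2) (Polynomial K) →+*
    Polynomial (Polynomial (Polynomial K)) :=
  MvPolynomial.eval₂Hom (Star_c K) (Star_g c b)

theorem Star_mem (f : MvPolynomial (Fin 2) (Polynomial K)) (c : ℕ) (b : K) (m : ℕ)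
    (hf : f ∈ pt (Polynomial.X ^ c) (Polynomial.C b) ^ m) :
    Star_phi c b f ∈ Ideal.span {Polynomial.C (Polynomial.C (Polynomial.X - 1)),
      (Polynomial.X : Polynomial (Polynomial (Polynomial K)))} ^ m := by
  have h1 : Star_phi c b f ∈ Ideal.map (Star_phi c b)
      (pt (Polynomial.X ^ c) (Polynomial.C b)) ^ m := by
    have h2 := Ideal.map_pow (Star_phi c b) (pt (Polynomial.X ^ c) (Polynomial.C b)) m
    exact h2 ▸ Ideal.mem_map_of_mem (Star_phi c b) hf
  refine Ideal.pow_right_mono ?_ m h1
  rw [pt, Ideal.map_span, Ideal.span_le]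
  rintro y ⟨z, hz, rfl⟩
  rcases hz with rfl | hz
  · have h2 : Star_phi c b (X 0 - C (Polynomial.X ^ c)) =
        Polynomial.C (Polynomial.X ^ c) * Polynomial.C (Polynomial.C (Polynomial.X - 1)) := by
      simp only [Star_phi, map_sub, eval₂Hom_X', coe_eval₂Hom, eval₂_C, Star_g_zero,
        Star_c_apply, Polynomial.map_X,
        map_mul, map_pow, map_one]
      ring
    rw [SetLike.mem_coe, h2]
    exact Ideal.mul_mem_left _ _ (Ideal.subset_span (Or.inl rfl))
  · rw [Set.mem_singleton_iff] at hz
    subst hz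
    have h2 : Star_phi c b (X 1 - C (Polynomial.C b)) = Polynomial.X := by
      rw [Star_phi, map_sub, eval₂Hom_X', coe_eval₂Hom, eval₂_C, Star_g_one, Star_c_apply,
        Polynomial.map_C]
      ring
    rw [SetLike.mem_coe, h2]
    exact Ideal.subset_span (Or.inr rfl)

theorem Star_coeff_monomial (c : ℕ) (b : K) (e : Fin 2 →₀ ℕ) (a : Polynomial K) (i N : ℕ) :
    ((Star_phi c b (monomial e a)).coeff i).coeff N =
      if c * e 0 ≤ N then Polynomial.C (((e 1).choose i : K) * a.coeff (N - c * e 0) * b ^ (e 1 - i)) *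
        Polynomial.X ^ e 0 else 0 := by
  have h1 : Star_phi c b (monomial e a) = Polynomial.C (Polynomial.map Polynomial.C a *
      Polynomial.C (Polynomial.X ^ e 0) * Polynomial.X ^ (c * e 0)) *
      (Polynomial.X + Polynomial.C (Polynomial.C (Polynomial.C b))) ^ e 1 := by
    rw [Star_phi, coe_eval₂Hom, eval₂_monomial, Finsupp.prod_fintype _ _ (fun _ => pow_zero _),
      Fin.prod_univ_two]
    simp only [Star_g_zero, Star_g_one, Star_c_apply,
      map_mul, map_pow]
    ring
  rw [h1, Polynomial.coeff_C_mul, Polynomial.coeff_X_add_C_pow]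
  have h2 : Polynomial.map Polynomial.C a * Polynomial.C (Polynomial.X ^ e 0) *
      Polynomial.X ^ (c * e 0) * (Polynomial.C (Polynomial.C b) ^ (e 1 - i) *
        ((e 1).choose i : Polynomial (Polynomial K))) =
      Polynomial.map Polynomial.C a * Polynomial.C (Polynomial.X ^ e 0 * Polynomial.C b ^ (e 1 - i) *
        ((e 1).choose i : Polynomial K)) * Polynomial.X ^ (c * e 0) := by
    simp only [map_mul, map_pow, map_natCast]
    ring
  rw [h2, Polynomial.coeff_mul_X_pow']
  split_ifs with h
  · rw [Polynomial.coeff_mul_C, Polynomial.coeff_map]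
    simp only [map_mul, map_pow, map_natCast]
    ring
  · rfl

theorem Star_eval (f : MvPolynomial (Fin 2) (Polynomial K)) (n l i : ℕ) (b : K) :
    (Polynomial.hasseDeriv i (colp f n l)).eval b =
      ∑ j ∈ Finset.range (f.totalDegree + 1),
        (j.choose i : K) * (f.coeff (ex l j)).coeff n * b ^ (j - i) := by
  rw [colp, map_sum, Polynomial.eval_finsetSum]
  refine Finset.sum_congr rfl fun j _ => ?_
  rw [Polynomial.hasseDeriv_monomial, Polynomial.eval_monomial]

theorem Star_coeff (f : MvPolynomial (Fin 2) (Polynomial K)) (c : ℕ) (b : K) (δ : ℕ)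
    (hδ : f.totalDegree ≤ δ) (i N : ℕ) :
    ((Star_phi c b f).coeff i).coeff N = ∑ l ∈ Finset.range (δ + 1),
      if c * l ≤ N then Polynomial.C ((Polynomial.hasseDeriv i (colp f (N - c * l) l)).eval b) *
        Polynomial.X ^ l else 0 := by
  classical
  conv_lhs => rw [← support_sum_monomial_coeff f]
  rw [map_sum, Polynomial.finsetSum_coeff, Polynomial.finsetSum_coeff]
  have h1 : ∀ l ∈ Finset.range (δ + 1), (if c * l ≤ N then
      Polynomial.C ((Polynomial.hasseDeriv i (colp f (N - c * l) l)).eval b) *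
        Polynomial.X ^ l else 0) = ∑ j ∈ Finset.range (f.totalDegree + 1),
        ((Star_phi c b (monomial (ex l j) (f.coeff (ex l j)))).coeff i).coeff N := by
    intro l _
    simp only [Star_coeff_monomial, ex_zero, ex_one]
    split_ifs with h
    · rw [Star_eval, map_sum, Finset.sum_mul]
    · rw [Finset.sum_const_zero]
  rw [Finset.sum_congr rfl h1, ← Finset.sum_product' (Finset.range (δ + 1))
    (Finset.range (f.totalDegree + 1)) (fun l j =>
      ((Star_phi c b (monomial (ex l j) (f.coeff (ex l j)))).coeff i).coeff N)]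
  have hinj : Set.InjOn (fun x : ℕ × ℕ => ex x.1 x.2)
      ((Finset.range (δ + 1) ×ˢ Finset.range (f.totalDegree + 1) : Finset (ℕ × ℕ)) :
        Set (ℕ × ℕ)) := by
    intro x _ y _ hxy
    have h2 := congrArg (fun e => e 0) hxy
    have h3 := congrArg (fun e => e 1) hxy
    simp only [ex_zero, ex_one] at h2 h3
    exact Prod.ext h2 h3
  rw [← Finset.sum_image (f := fun e => ((Star_phi c b (monomial e (f.coeff e))).coeff i).coeff N)
    hinj]
  apply Finset.sum_subset
  · intro e he
    have h2 := le_totalDegree he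
    have h3 : (e.sum fun _ k => k) = e 0 + e 1 := by
      rw [Finsupp.sum_fintype _ _ (fun _ => rfl), Fin.sum_univ_two]
    rw [h3] at h2
    rw [Finset.mem_image]
    refine ⟨(e 0, e 1), ?_, (eq_ex e).symm⟩
    rw [Finset.mem_product, Finset.mem_range, Finset.mem_range]
    omega
  · intro e _ he
    rw [notMem_support_iff.1 he]
    simp

/-- Let `Φ : K[ξ][x, y] → K[X][ξ][η]` be the ring homomorphism `x ↦ ξ ^ c X`, `y ↦ b + η`, `ξ ↦ ξ`. It maps
`x - ξ ^ c` to `ξ ^ c (X - 1)` and `y - b` to `η`, so `Φ f` lies in the `m`-th power of the ideal `(X - 1, η)` and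
its coefficient of `η ^ i` is divisible by `(X - 1) ^ (m - i)` in `K[X][ξ]`; hence the coefficient of
`η ^ i ξ ^ N`, a polynomial in `X`, is divisible by `(X - 1) ^ (m - i)`. This coefficient is the sum below:
`x ^ l y ^ j` with the coefficient `a(ξ)` contributes `a(ξ) ξ ^ (c l) X ^ l (b + η) ^ j`. -/
theorem star (f : MvPolynomial (Fin 2) (Polynomial K)) (c : ℕ) (b : K) (m : ℕ)
    (hf : f ∈ pt (Polynomial.X ^ c) (Polynomial.C b) ^ m) (δ : ℕ) (hδ : f.totalDegree ≤ δ) (i : ℕ)
    (hi : i < m) (N : ℕ) :
    (Polynomial.X - 1 : Polynomial K) ^ (m - i) ∣ ∑ l ∈ Finset.range (δ + 1),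
      if c * l ≤ N then Polynomial.C ((Polynomial.hasseDeriv i (colp f (N - c * l) l)).eval b) *
        Polynomial.X ^ l else 0 := by
  rw [← Star_coeff f c b δ hδ i N]
  have h1 := Star_dvd (Polynomial.C (Polynomial.X - 1 : Polynomial K)) m _ (Star_mem f c b m hf) i
  obtain ⟨w, hw⟩ := h1
  rw [hw, ← Polynomial.C_pow, Polynomial.coeff_C_mul]
  exact Dvd.intro _ rfl

end ShghQ
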