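import Pool.Agent.ShghQ.Pat

/-!
# First phase: placing one point
-/

namespace ShghQ

theorem Step_mono {f : ℕ → ℕ} {q : ℕ} (h : ∀ l, l < q → f l ≤ f (l + 1)) {a b : ℕ} (hab : a ≤ b)
    (hb : b ≤ q) : f a ≤ f b := by
  induction b, hab using Nat.le_induction with
  | base => exact le_rfl
  | succ b hab ih => exact (ih (by omega)).trans (h b (by omega))

theorem Step_anti {f : ℕ → ℕ} {q : ℕ} (h : ∀ l, l < q → f (l + 1) ≤ f l) {a b : ℕ} (hab : a ≤ b)
    (hb : b ≤ q) : f b ≤ f a := by
  induction b, hab using Nat.le_induction with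
  | base => exact le_rfl
  | succ b hab ih => exact (h b (by omega)).trans (ih (by omega))

theorem Step_steep {f g M M' : ℕ} (hM : M ≤ M') (hfg : f ≤ g) (h : g + M * f ≤ M * g) :
    g + M' * f ≤ M' * g := by
  obtain ⟨k, rfl⟩ := Nat.exists_eq_add_of_le hM
  have := Nat.mul_le_mul_left k hfg
  rw [add_mul, add_mul]
  omega

/-- Let `r = D q - F q`.
(A) `ν ≤ r`: `p = q`, `n = ν`, `q' = q`.
(B) `0 < r < ν`: `p = q - 1`, `n = ν - r`, `q' = q - 1`; the column `q` becomes full. At the column `q - 1`
one needs `F (q-1) + ν ≤ D (q-1)`: `M F(q-1) ≤ (M-1) F q` by steepness, so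
`M F(q-1) + M ν ≤ (M-1) F q + M ν ≤ M F q + M r = M D q ≤ M D(q-1)` because
`F q + M r = D q - r + M r ≥ M ν`.
(C) `r = 0`: `M (D(q-1) - F(q-1)) ≥ M D q - (M-1) D q = D q ≥ M ν`, so `p = q - 1`, `n = ν`, `q' = q - 1`.
In the columns `l < q'` use `F l ≤ F q'`, `pat l ≤ ν` and `D q' ≤ D l` (induction from `hD`). The new
steepness is additive: `pat_steep` for the new point, and for `F` the constant can be enlarged since
`F l ≤ F (l+1)`. The new point vanishes in the columns `l > q'+...` as `l > q ≥ m + 1 > ν`. -/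
theorem step {m L M q ν : ℕ} {D F : ℕ → ℕ} (h : Reg m L D F M q) (hM1 : 1 ≤ M) (hM : M ≤ m)
    (hν1 : 1 ≤ ν) (hν : ν ≤ m) (hq : m + 1 ≤ q) (hD : ∀ l, l < q → D (l + 1) ≤ D l)
    (hDq : M * ν ≤ D q) :
    ∃ p n q', Adm L ν p n ∧ q' ≤ q ∧ q ≤ q' + 1 ∧
      Reg m L D (fun l => F l + pat ν p n l) (max M ν) q' := by
  have hmono : ∀ l, l < q → F l ≤ F (l + 1) := by
    intro l hl
    have h1 := h.steep l hl
    have h2 : M * F l ≤ M * F (l + 1) := by omega
    exact Nat.le_of_mul_le_mul_left h2 hM1
  have hqL := h.q_lt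
  have hFq := h.le q le_rfl
  -- steepness of the sum
  have hst : ∀ p n l, l < p → l < q → (F (l + 1) + pat ν p n (l + 1)) +
      max M ν * (F l + pat ν p n l) ≤ max M ν * (F (l + 1) + pat ν p n (l + 1)) := by
    intro p n l hlp hlq
    have h1 := Step_steep (le_max_left M ν) (hmono l hlq) (h.steep l hlq)
    have h2 := pat_steep (n := n) (le_max_right M ν) hlp
    rw [mul_add, mul_add]
    omega
  rcases le_or_gt ν (D q - F q) with hr | hr
  · refine ⟨q, ν, q, ⟨hν1, le_rfl, by omega, hqL, fun _ => rfl⟩, le_rfl, by omega, ?_⟩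
    refine ⟨hqL, ?_, ?_, ?_, ?_⟩
    · intro l hl hlL
      have h1 : pat ν q ν l = 0 := by
        unfold pat
        split_ifs <;> omega
      change F l + pat ν q ν l = D l
      rw [h1, add_zero, h.full l hl hlL]
    · intro l hl
      have h1 := Step_mono hmono hl le_rfl
      have h2 := Step_anti hD hl le_rfl
      have h3 := pat_le ν q ν l
      change F l + pat ν q ν l ≤ D l
      omega
    · intro l hl
      exact hst q ν l hl hl
    · intro l hl
      rw [h.supp l hl, pat_zero le_rfl (by omega)]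
  · obtain ⟨k, rfl⟩ : ∃ k, q = k + 1 := ⟨q - 1, by omega⟩
    have hkey : F k + ν ≤ D (k + 1) := by
      have h1 := h.steep k (by omega)
      have h2 : M * (F k + ν) ≤ M * D (k + 1) := by
        obtain ⟨r, hr'⟩ := Nat.exists_eq_add_of_le hFq
        have h3 : r ≤ M * r := Nat.le_mul_of_pos_left r hM1
        rw [hr'] at hDq ⊢
        rw [mul_add, mul_add]
        omega
      exact Nat.le_of_mul_le_mul_left h2 hM1
    have hDk := hD k (by omega)
    refine ⟨k, ν - (D (k + 1) - F (k + 1)), k, ⟨by omega, by omega, by omega, by omega,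
      fun h' => by omega⟩, by omega, by omega, ?_⟩
    refine ⟨by omega, ?_, ?_, ?_, ?_⟩
    · intro l hl hlL
      change F l + pat ν k (ν - (D (k + 1) - F (k + 1))) l = D l
      rcases eq_or_lt_of_le (Nat.succ_le_of_lt hl) with hl' | hl'
      · subst hl'
        have h1 : pat ν k (ν - (D (k + 1) - F (k + 1))) (k + 1) = D (k + 1) - F (k + 1) := by
          unfold pat
          rw [if_neg (by omega), if_pos rfl]
          omega
        change F (k + 1) + pat ν k (ν - (D (k + 1) - F (k + 1))) (k + 1) = D (k + 1)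
        omega
      · have h1 : pat ν k (ν - (D (k + 1) - F (k + 1))) l = 0 := by
          unfold pat
          rw [if_neg (by omega), if_neg (by omega)]
          omega
        rw [h1, add_zero, h.full l hl' hlL]
    · intro l hl
      have h1 := Step_mono hmono hl (by omega)
      have h2 := Step_anti hD hl (by omega)
      have h3 := pat_le ν k (ν - (D (k + 1) - F (k + 1))) l
      change F l + pat ν k (ν - (D (k + 1) - F (k + 1))) l ≤ D l
      omega
    · intro l hl
      exact hst k _ l hl (by omega)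
    · intro l hl
      change F l + pat ν k (ν - (D (k + 1) - F (k + 1))) l = 0
      rw [h.supp l (by omega), pat_zero (by omega) (by omega)]

end ShghQ
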