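import Pool.Agent.ShghQ.Star

/-!
# The leading column polynomials vanish
-/

namespace ShghQ

open MvPolynomial

variable {K : Type*} [Field K]

lemma Van_key {t : ℕ → K} {δ m i a s : ℕ} (hi : i < a) (ham : a ≤ m)
    (ht : ∀ l, t l ≠ 0 → s ≤ l ∧ l + a ≤ s + m)
    (hd : (Polynomial.X - 1 : Polynomial K) ^ (m - i) ∣
      ∑ l ∈ Finset.range (δ + 1), Polynomial.C (t l) * Polynomial.X ^ l) (l₀ : ℕ) (hl₀ : l₀ ≤ δ) :
    t l₀ = 0 := by
  set T : Polynomial K := ∑ l ∈ Finset.range (δ + 1), Polynomial.C (t l) * Polynomial.X ^ l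
    with hT
  set T' : Polynomial K := ∑ l ∈ Finset.range (δ + 1), Polynomial.C (t l) * Polynomial.X ^ (l - s)
    with hT'
  have h1 : T = Polynomial.X ^ s * T' := by
    rw [hT, hT', Finset.mul_sum]
    refine Finset.sum_congr rfl fun l _ => ?_
    by_cases h0 : t l = 0
    · rw [h0]; simp
    · obtain ⟨h2, -⟩ := ht l h0
      have h3 : (Polynomial.X : Polynomial K) ^ l = Polynomial.X ^ s * Polynomial.X ^ (l - s) := by
        rw [← pow_add, Nat.add_sub_cancel' h2]
      rw [h3]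
      ring
  have h2 : T'.natDegree ≤ m - a := by
    rw [hT']
    refine Polynomial.natDegree_sum_le_of_forall_le _ _ fun l _ => ?_
    by_cases h0 : t l = 0
    · rw [h0]; simp
    · obtain ⟨h2, h3⟩ := ht l h0
      refine (Polynomial.natDegree_C_mul_X_pow_le _ _).trans ?_
      omega
  have hco : IsCoprime ((Polynomial.X - 1 : Polynomial K) ^ (m - i)) (Polynomial.X ^ s) :=
    IsCoprime.pow ⟨-1, 1, by ring⟩
  have h3 : (Polynomial.X - 1 : Polynomial K) ^ (m - i) ∣ T' := by
    rw [h1] at hd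
    exact hco.dvd_of_dvd_mul_left hd
  have h4 : ((Polynomial.X - 1 : Polynomial K) ^ (m - i)).natDegree = m - i := by
    rw [Polynomial.natDegree_pow, ← Polynomial.C_1, Polynomial.natDegree_X_sub_C, mul_one]
  have h5 : T' = 0 := Polynomial.eq_zero_of_dvd_of_natDegree_lt h3 (by rw [h4]; omega)
  have h6 : T.coeff l₀ = t l₀ := by
    rw [hT, Polynomial.finset_sum_coeff]
    simp only [Polynomial.coeff_C_mul_X_pow]
    rw [Finset.sum_ite_eq (Finset.range (δ + 1)) l₀ t, if_pos (Finset.mem_range.mpr (by omega))]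
  rw [← h6, h1, h5, mul_zero, Polynomial.coeff_zero]

/-- Let `(n₀, l₀)` be leading: `n₀ + u l₀ = v`. `star` with `N = n₀ + c l₀`: if the `l`-th term is not zero then
`colp f (N - c l) l ≠ 0`, so `v ≤ N - c l + u l`, that is `val l₀ ≤ val l`, so `s ≤ l` and `l + a ≤ s + m`. The sum
is `X ^ s` times a polynomial of degree `≤ m - a < m - i`; `(X - 1) ^ (m - i)` divides it and is coprime to
`X ^ s`, so the sum is zero, and its coefficient at `l₀` is the claim (`a ≤ m` follows from `hfit` with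
`l = l₀`; if `l₀ > δ` then `colp f n₀ l₀ = 0`). -/
theorem van (f : MvPolynomial (Fin 2) (Polynomial K)) (δ : ℕ) (hδ : f.totalDegree ≤ δ)
    (u : ℕ → ℤ) (v : ℤ) (hv : ∀ n l, colp f n l ≠ 0 → v ≤ n + u l) (c : ℕ) (b : K) (m : ℕ)
    (hf : f ∈ pt (Polynomial.X ^ c) (Polynomial.C b) ^ m) (n₀ l₀ a s : ℕ) (hn : (n₀ : ℤ) + u l₀ = v)
    (hfit : ∀ l, val u c l₀ ≤ val u c l → s ≤ l ∧ l + a ≤ s + m) (i : ℕ) (hi : i < a) :
    (Polynomial.hasseDeriv i (colp f n₀ l₀)).eval b = 0 := by
  by_cases hl₀ : l₀ ≤ δ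
  swap
  · have h0 : colp f n₀ l₀ = 0 := by
      ext j
      rw [colp_coeff_zero f hδ n₀ l₀ j (by omega), Polynomial.coeff_zero]
    rw [h0, map_zero, Polynomial.eval_zero]
  have h0 := hfit l₀ le_rfl
  have ham : a ≤ m := by omega
  have hst := star f c b m hf δ hδ i (by omega) (n₀ + c * l₀)
  set t : ℕ → K := fun l => if c * l ≤ n₀ + c * l₀ then
    (Polynomial.hasseDeriv i (colp f (n₀ + c * l₀ - c * l) l)).eval b else 0 with ht
  have h1 : ∀ l, t l ≠ 0 → s ≤ l ∧ l + a ≤ s + m := by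
    intro l hl
    have hl' : (if c * l ≤ n₀ + c * l₀ then
      (Polynomial.hasseDeriv i (colp f (n₀ + c * l₀ - c * l) l)).eval b else 0) ≠ 0 := hl
    split_ifs at hl' with hle
    · apply hfit
      have h2 : colp f (n₀ + c * l₀ - c * l) l ≠ 0 := by
        intro h3
        rw [h3, map_zero, Polynomial.eval_zero] at hl'
        exact hl' rfl
      have h3 := hv _ _ h2
      rw [Nat.cast_sub hle] at h3
      push_cast at h3
      unfold val
      linarith
    · exact absurd rfl hl'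
  have h2 := Van_key (t := t) (δ := δ) hi ham h1 (by
    convert hst using 2 with l
    rw [ht]
    dsimp only
    split_ifs
    · rfl
    · simp) l₀ hl₀
  have h3 : t l₀ = (Polynomial.hasseDeriv i (colp f n₀ l₀)).eval b := by
    rw [ht]
    dsimp only
    rw [if_pos (by omega), Nat.add_sub_cancel]
  rw [← h3, h2]

end ShghQ
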