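import Pool.Agent.ShghQ.Pat

/-!
# The identity of the closing phase
-/

namespace ShghQ

theorem Zone_abel (c : ℤ) (R : ℕ → ℤ) (y : ℕ) :
    2 * ∑ t ∈ Finset.range y, ((t : ℤ) + 1) * (c - (R t - R (t + 1))) =
      (y : ℤ) * (y + 1) * c - 2 * (∑ l ∈ Finset.range (y + 1), R l - ((y : ℤ) + 1) * R y) := by
  induction y with
  | zero => simp
  | succ y ih =>
    rw [Finset.sum_range_succ, mul_add, ih, Finset.sum_range_succ _ (y + 1)]
    push_cast
    ring

theorem Zone_sum (μ : ℤ) (y : ℕ) :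
    2 * ∑ l ∈ Finset.range (y + 1), (μ - l) = ((y : ℤ) + 1) * (2 * μ - y) := by
  induction y with
  | zero => simp
  | succ y ih =>
    rw [Finset.sum_range_succ, mul_add, ih]
    push_cast
    ring

/-- Pure algebra. `R l = D l - F l`, `Λ_z = R (z-1) - R z`. -/
theorem zone_identity (x : ℕ) (hx : 1 ≤ x) (μ ρ E : ℤ) (R : ℕ → ℤ) (hRx : R x = (μ - x) * ρ + E)
    (hs : ∑ l ∈ Finset.range x, R l = ρ * ∑ l ∈ Finset.range x, (μ - l) - E) :
    (x : ℤ) * (x + 1) * (R (x - 1) - (μ - x + 1) * ρ) =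
      2 * ∑ t ∈ Finset.range (x - 1), ((t : ℤ) + 1) * ((R (x - 1) - R x) - (R t - R (t + 1))) +
        E * (x - 2) * (x + 1) := by
  obtain ⟨y, rfl⟩ : ∃ y, x = y + 1 := ⟨x - 1, by omega⟩
  rw [Nat.add_sub_cancel, Zone_abel (R y - R (y + 1)) R y]
  have h2 := Zone_sum μ y
  push_cast at hRx ⊢
  rw [hRx]
  linear_combination 2 * hs + ρ * h2

end ShghQ
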